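import Mathlib

/-!
Definitions: divergence free test fields, the spaces `L²_σ(Ω)` and `H¹_{0,σ}(Ω)`, weak solutions
of the three dimensional Navier-Stokes equations, energy defect.
-/

open MeasureTheory Set
open scoped InnerProductSpace ENNReal ContDiff

namespace H772R2.NS

/-- Three dimensional Euclidean space. -/
abbrev E3 := EuclideanSpace ℝ (Fin 3)

/-- Real `3 × 3` matrices with the Frobenius norm `(∑ a_ij²)^(1/2)`. -/
abbrev M3 := EuclideanSpace ℝ (Fin 3 × Fin 3)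

/-- The Jacobian matrix: its `(i, j)` entry is `∂φ_i/∂x_j`. -/
noncomputable def jac (φ : E3 → E3) (x : E3) : M3 :=
  WithLp.toLp 2 fun p => fderiv ℝ φ x (EuclideanSpace.single p.2 1) p.1

/-- Divergence free test fields: smooth, with compact support contained in `Ω`. -/
structure IsTest (Ω : Set E3) (φ : E3 → E3) : Prop where
  smooth : ContDiff ℝ ∞ φ
  compact : HasCompactSupport φ
  supp : tsupport φ ⊆ Ω
  divfree : ∀ x, ∑ i, jac φ x (i, i) = 0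

/-- The Hilbert space `L²(Ω)³`. -/
noncomputable abbrev L2V (Ω : Set E3) := Lp E3 2 (volume.restrict Ω)

/-- The Hilbert space `L²(Ω)^{3×3}`. -/
noncomputable abbrev L2M (Ω : Set E3) := Lp M3 2 (volume.restrict Ω)

/-- `L²_σ(Ω)`: the closure in `L²(Ω)³` of the divergence free test fields. -/
def L2sigma (Ω : Set E3) : Set (L2V Ω) :=
  closure {v | ∃ φ, IsTest Ω φ ∧ v =ᵐ[volume.restrict Ω] φ}

/-- The graph of the gradient of `H¹_{0,σ}(Ω)`: the closure of the pairs `(φ, ∇φ)`, `φ` a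
divergence free test field, in `L²(Ω)³ × L²(Ω)^{3×3}`. So `(v, z) ∈ H1graph Ω` means that
`v ∈ H¹_{0,σ}(Ω)` and `z = ∇v`. -/
def H1graph (Ω : Set E3) : Set (L2V Ω × L2M Ω) :=
  closure {p | ∃ φ, IsTest Ω φ ∧ p.1 =ᵐ[volume.restrict Ω] φ ∧ p.2 =ᵐ[volume.restrict Ω] jac φ}

/-- `H¹_{0,σ}(Ω)` as a set of elements of `L²(Ω)³`. -/
def H10sigma (Ω : Set E3) : Set (L2V Ω) := {v | ∃ z, (v, z) ∈ H1graph Ω}

/-- `u` is a weak solution of the Navier-Stokes equations with viscosity `ν` and force `f` in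
`Ω × (0,T)` vanishing on the boundary, `G` is its gradient (no energy inequality is assumed):
* `u ∈ L^∞(0,T; L²_σ)` is weakly continuous in time on `[0,T]`;
* `u ∈ L²(0,T; H¹_{0,σ})`, with `∇u = G`;
* `f ∈ L¹(0,T; L²)`;
* the equations hold in the sense of distributions, tested with `θ(t) φ(x)`, where `θ` is a
  smooth function with compact support in `(0,T)` and `φ` a divergence free test field. -/
structure IsWeakSolution (Ω : Set E3) (ν T : ℝ) (u : ℝ → L2V Ω) (G : ℝ → L2M Ω)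
    (f : ℝ → L2V Ω) : Prop where
  meas : AEStronglyMeasurable u (volume.restrict (Ioo 0 T))
  bdd : ∃ M, ∀ t ∈ Icc 0 T, ‖u t‖ ≤ M
  sol : ∀ t ∈ Icc 0 T, u t ∈ L2sigma Ω
  wcont : ∀ v : L2V Ω, ContinuousOn (fun t => ⟪u t, v⟫_ℝ) (Icc 0 T)
  grad : ∀ᵐ t ∂(volume.restrict (Ioo 0 T)), (u t, G t) ∈ H1graph Ω
  gradL2 : MemLp G 2 (volume.restrict (Ioo 0 T))
  force : Integrable f (volume.restrict (Ioo 0 T))
  eqn : ∀ φ, IsTest Ω φ → ∀ θ : ℝ → ℝ, ContDiff ℝ ∞ θ → HasCompactSupport θ →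
    tsupport θ ⊆ Ioo 0 T →
    ∫ t in Ioo 0 T,
      (deriv θ t * (∫ x in Ω, ∑ i, u t x i * φ x i)
        + θ t * (∫ x in Ω, ∑ i, ∑ j, u t x i * u t x j * jac φ x (i, j))
        - ν * θ t * (∫ x in Ω, ∑ i, ∑ j, G t x (i, j) * jac φ x (i, j))
        + θ t * (∫ x in Ω, ∑ i, f t x i * φ x i)) = 0

/-- The energy defect `D(t) = k(0) + ∫₀ᵗ P - k(t) - |Ω| ∫₀ᵗ ε`: the energy inequality says
`D(t) ≥ 0`, the energy equality `D(t) = 0`. -/
noncomputable def energyDefect {Ω : Set E3} (ν : ℝ) (u : ℝ → L2V Ω) (G : ℝ → L2M Ω)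
    (f : ℝ → L2V Ω) (t : ℝ) : ℝ :=
  ‖u 0‖ ^ 2 / 2 + (∫ τ in (0 : ℝ)..t, ⟪f τ, u τ⟫_ℝ) - ‖u t‖ ^ 2 / 2
    - ν * ∫ τ in (0 : ℝ)..t, ‖G τ‖ ^ 2

end H772R2.NS
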