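import Mathlib
import Pool.Agent.H772R2.NS.Defs

/-!
Test fields: algebra, integrability, Sobolev inequality.
-/

set_option linter.unusedSectionVars false

open MeasureTheory Set Filter Topology
open scoped InnerProductSpace ENNReal ContDiff NNReal

namespace H772R2.NS

/-- unit vector -/
noncomputable abbrev ev (j : Fin 3) : E3 := EuclideanSpace.single j 1

theorem jac_apply (φ : E3 → E3) (x : E3) (p : Fin 3 × Fin 3) :
    jac φ x p = fderiv ℝ φ x (ev p.2) p.1 := rfl

/-- the tensor square -/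
noncomputable def tens (x : E3) : M3 := WithLp.toLp 2 fun p => x p.1 * x p.2

theorem tens_apply (x : E3) (p : Fin 3 × Fin 3) : tens x p = x p.1 * x p.2 := rfl

theorem inner_E3 (x y : E3) : ⟪x, y⟫_ℝ = ∑ i, x i * y i := by
  simp [PiLp.inner_apply, mul_comm]

theorem inner_M3 (x y : M3) : ⟪x, y⟫_ℝ = ∑ i, ∑ j, x (i, j) * y (i, j) := by
  rw [PiLp.inner_apply, Fintype.sum_prod_type]
  simp [mul_comm]

theorem norm_sq_E3 (x : E3) : ‖x‖ ^ 2 = ∑ i, x i ^ 2 := by
  rw [EuclideanSpace.norm_sq_eq]; simp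

theorem norm_sq_M3 (x : M3) : ‖x‖ ^ 2 = ∑ i, ∑ j, x (i, j) ^ 2 := by
  rw [EuclideanSpace.norm_sq_eq, Fintype.sum_prod_type]; simp

theorem norm_tens (x : E3) : ‖tens x‖ = ‖x‖ ^ 2 := by
  have h : ‖tens x‖ ^ 2 = (‖x‖ ^ 2) ^ 2 := by
    rw [norm_sq_M3, norm_sq_E3]
    simp only [tens_apply, mul_pow]
    rw [sq, Finset.sum_mul_sum]
  have h1 : 0 ≤ ‖x‖ ^ 2 := by positivity
  exact (pow_left_inj₀ (norm_nonneg _) h1 (by norm_num)).mp h

theorem norm_tens_sub (a b : E3) : ‖tens a - tens b‖ ≤ ‖a - b‖ * (‖a‖ + ‖b‖) := by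
  -- a⊗a - b⊗b = (a-b)⊗a + b⊗(a-b)
  let p : M3 := WithLp.toLp 2 fun p => (a - b) p.1 * a p.2
  let q : M3 := WithLp.toLp 2 fun p => b p.1 * (a - b) p.2
  have hp : ‖p‖ = ‖a - b‖ * ‖a‖ := by
    have h : ‖p‖ ^ 2 = (‖a - b‖ * ‖a‖) ^ 2 := by
      rw [norm_sq_M3, mul_pow, norm_sq_E3, norm_sq_E3, Finset.sum_mul_sum]
      simp only [p, mul_pow]
    exact (pow_left_inj₀ (norm_nonneg _) (by positivity) (by norm_num)).mp h
  have hq : ‖q‖ = ‖b‖ * ‖a - b‖ := by
    have h : ‖q‖ ^ 2 = (‖b‖ * ‖a - b‖) ^ 2 := by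
      rw [norm_sq_M3, mul_pow, norm_sq_E3, norm_sq_E3, Finset.sum_mul_sum]
      simp only [q, mul_pow]
    exact (pow_left_inj₀ (norm_nonneg _) (by positivity) (by norm_num)).mp h
  have hsum : tens a - tens b = p + q := by
    ext r
    simp only [PiLp.sub_apply, PiLp.add_apply, tens_apply, p, q]
    ring
  rw [hsum]
  calc ‖p + q‖ ≤ ‖p‖ + ‖q‖ := norm_add_le _ _
    _ = ‖a - b‖ * (‖a‖ + ‖b‖) := by rw [hp, hq]; ring

theorem continuous_tens : Continuous tens := by
  unfold tens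
  refine (PiLp.continuous_toLp 2 _).comp ?_
  refine continuous_pi (fun p => ?_)
  fun_prop

/-- linearity of jac -/
theorem jac_add {φ ψ : E3 → E3} (hφ : ContDiff ℝ ∞ φ) (hψ : ContDiff ℝ ∞ ψ) (x : E3) :
    jac (φ + ψ) x = jac φ x + jac ψ x := by
  ext p
  have h1 : DifferentiableAt ℝ φ x := (hφ.differentiable (by simp)) x
  have h2 : DifferentiableAt ℝ ψ x := (hψ.differentiable (by simp)) x
  simp only [jac_apply, PiLp.add_apply]
  rw [fderiv_add h1 h2]
  rfl

theorem jac_smul {φ : E3 → E3} (c : ℝ) (x : E3) :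
    jac (c • φ) x = c • jac φ x := by
  ext p
  simp only [jac_apply, PiLp.smul_apply]
  rw [fderiv_const_smul_field]
  rfl

theorem jac_zero (x : E3) : jac (0 : E3 → E3) x = 0 := by
  ext p
  simp [jac_apply]

theorem continuous_jac {φ : E3 → E3} (hφ : ContDiff ℝ ∞ φ) : Continuous (jac φ) := by
  have h : Continuous (fderiv ℝ φ) := hφ.continuous_fderiv (by simp)
  unfold jac
  refine (PiLp.continuous_toLp 2 _).comp ?_
  refine continuous_pi (fun p => ?_)
  have h2 : Continuous fun x => fderiv ℝ φ x (ev p.2) := h.clm_apply continuous_const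
  exact (EuclideanSpace.proj (𝕜 := ℝ) p.1 : E3 →L[ℝ] ℝ).continuous.comp h2

theorem tsupport_jac_subset {φ : E3 → E3} : tsupport (jac φ) ⊆ tsupport φ := by
  refine closure_minimal ?_ (isClosed_tsupport φ)
  intro x hx
  by_contra hcon
  have h0 : fderiv ℝ φ x = 0 := by
    have : x ∉ tsupport (fderiv ℝ φ) := fun h => hcon (tsupport_fderiv_subset ℝ h)
    exact image_eq_zero_of_notMem_tsupport this
  apply hx
  ext p
  simp [jac_apply, h0]

theorem hasCompactSupport_jac {φ : E3 → E3} (h : HasCompactSupport φ) :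
    HasCompactSupport (jac φ) := h.mono' (subset_tsupport _ |>.trans tsupport_jac_subset)

/-- operator norm is bounded by the Frobenius norm -/
theorem norm_fderiv_le_jac {φ : E3 → E3} (x : E3) : ‖fderiv ℝ φ x‖ ≤ ‖jac φ x‖ := by
  refine ContinuousLinearMap.opNorm_le_bound _ (norm_nonneg _) (fun v => ?_)
  have hv : v = ∑ j, v j • ev j := by
    ext i
    simp [Finset.sum_apply, Pi.single_apply]
  have hcomp : ∀ i, fderiv ℝ φ x v i = ∑ j, jac φ x (i, j) * v j := by
    intro i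
    conv_lhs => rw [hv]
    rw [map_sum]
    simp only [map_smul, PiLp.smul_apply, smul_eq_mul, WithLp.ofLp_sum, Finset.sum_apply, jac_apply]
    refine Finset.sum_congr rfl (fun j _ => ?_)
    simp [mul_comm]
  have h : ‖fderiv ℝ φ x v‖ ^ 2 ≤ (‖jac φ x‖ * ‖v‖) ^ 2 := by
    rw [norm_sq_E3, mul_pow, norm_sq_M3, norm_sq_E3, Finset.sum_mul]
    refine Finset.sum_le_sum (fun i _ => ?_)
    rw [hcomp]
    exact Finset.sum_mul_sq_le_sq_mul_sq _ _ _
  exact (pow_le_pow_iff_left₀ (norm_nonneg _) (by positivity) (by norm_num)).mp h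

section test
variable {Ω : Set E3} {φ ψ : E3 → E3}

theorem IsTest.zero : IsTest Ω (0 : E3 → E3) where
  smooth := contDiff_const
  compact := HasCompactSupport.zero
  supp := by simp [tsupport_eq_empty_iff.mpr rfl]
  divfree := fun x => by simp [jac_zero]

theorem IsTest.add (h1 : IsTest Ω φ) (h2 : IsTest Ω ψ) : IsTest Ω (φ + ψ) where
  smooth := h1.smooth.add h2.smooth
  compact := h1.compact.add h2.compact
  supp := (tsupport_add φ ψ).trans (union_subset h1.supp h2.supp)
  divfree := fun x => by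
    simp only [jac_add h1.smooth h2.smooth, PiLp.add_apply, Finset.sum_add_distrib, h1.divfree,
      h2.divfree, add_zero]

theorem IsTest.smul (c : ℝ) (h1 : IsTest Ω φ) : IsTest Ω (c • φ) where
  smooth := contDiff_const.smul h1.smooth
  compact := h1.compact.smul_left (f := fun _ => c)
  supp := (tsupport_smul_subset_right (fun _ => c) φ).trans h1.supp
  divfree := fun x => by
    simp only [jac_smul, PiLp.smul_apply, smul_eq_mul, ← Finset.mul_sum, h1.divfree, mul_zero]

theorem IsTest.memLp (h : IsTest Ω φ) (p : ℝ≥0∞) : MemLp φ p (volume : Measure E3) :=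
  h.smooth.continuous.memLp_of_hasCompactSupport h.compact

theorem IsTest.jac_memLp (h : IsTest Ω φ) (p : ℝ≥0∞) : MemLp (jac φ) p (volume : Measure E3) :=
  (continuous_jac h.smooth).memLp_of_hasCompactSupport (hasCompactSupport_jac h.compact)

theorem IsTest.eLpNorm_jac_restrict (h : IsTest Ω φ) (hΩ : MeasurableSet Ω) (p : ℝ≥0∞) :
    eLpNorm (jac φ) p (volume.restrict Ω) = eLpNorm (jac φ) p (volume : Measure E3) := by
  rw [← eLpNorm_indicator_eq_eLpNorm_restrict hΩ]
  congr 1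
  rw [indicator_eq_self]
  exact (subset_tsupport _).trans (tsupport_jac_subset.trans h.supp)

theorem exists_sobolev : ∃ C : ℝ≥0, ∀ φ : E3 → E3, ContDiff ℝ 1 φ → HasCompactSupport φ →
    eLpNorm φ 6 (volume : Measure E3) ≤ C * eLpNorm (fderiv ℝ φ) 2 (volume : Measure E3) := by
  refine ⟨eLpNormLESNormFDerivOfEqInnerConst (volume : Measure E3) 2, fun φ h1 h2 => ?_⟩
  have := eLpNorm_le_eLpNorm_fderiv_of_eq_inner (volume : Measure E3) h1 h2 (p := 2) (p' := 6)
    (by norm_num) (by simp) (by simp; norm_num)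
  simpa using this

end test

end H772R2.NS
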