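import Mathlib
import Pool.Agent.H772R2.NS.Space1

/-!
The `L⁴` bound on `H¹_{0,σ}` and the tensor square as a continuous map.
-/

set_option linter.unusedSectionVars false

open MeasureTheory Set Filter Topology
open scoped InnerProductSpace ENNReal ContDiff NNReal

namespace H772R2.NS

section holder
variable {α : Type*} {mα : MeasurableSpace α} {μ : Measure α}

theorem eLpNorm_tens (v : α → E3) :
    eLpNorm (fun x => tens (v x)) 2 μ = (eLpNorm v 4 μ) ^ 2 := by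
  have h1 : eLpNorm (fun x => tens (v x)) 2 μ = eLpNorm (fun x => ‖v x‖ ^ (2 : ℝ)) 2 μ := by
    apply eLpNorm_congr_norm_ae
    refine Eventually.of_forall (fun x => ?_)
    rw [norm_tens, Real.rpow_two, Real.norm_of_nonneg (by positivity)]
  rw [h1, eLpNorm_norm_rpow v (by norm_num : (0 : ℝ) < 2)]
  have h2 : (2 : ℝ≥0∞) * ENNReal.ofReal 2 = 4 := by
    rw [ENNReal.ofReal_ofNat]; norm_num
  rw [h2, ENNReal.rpow_two]

theorem eLpNorm_four_le (v : α → E3) (hv : AEStronglyMeasurable v μ) :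
    (eLpNorm v 4 μ) ^ 4 ≤ eLpNorm v 2 μ * (eLpNorm v 6 μ) ^ 3 := by
  have e4 : (eLpNorm v 4 μ) ^ 4 = ∫⁻ x, ‖v x‖ₑ ^ 4 ∂μ := by
    rw [eLpNorm_eq_lintegral_rpow_enorm_toReal (by norm_num) (by norm_num)]
    rw [← ENNReal.rpow_natCast, ← ENNReal.rpow_mul]
    norm_num
  have e2 : eLpNorm v 2 μ = (∫⁻ x, ‖v x‖ₑ ^ (2 : ℝ) ∂μ) ^ ((1 : ℝ) / 2) := by
    rw [eLpNorm_eq_lintegral_rpow_enorm_toReal (by norm_num) (by norm_num)]
    norm_num
  have e6 : (eLpNorm v 6 μ) ^ 3 = (∫⁻ x, (‖v x‖ₑ ^ 3) ^ (2 : ℝ) ∂μ) ^ ((1 : ℝ) / 2) := by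
    rw [eLpNorm_eq_lintegral_rpow_enorm_toReal (by norm_num) (by norm_num)]
    rw [← ENNReal.rpow_natCast, ← ENNReal.rpow_mul]
    norm_num
    congr 1
    refine lintegral_congr (fun x => ?_)
    rw [← ENNReal.rpow_natCast (‖v x‖ₑ) 3, ← ENNReal.rpow_natCast, ← ENNReal.rpow_natCast,
      ← ENNReal.rpow_mul]
    norm_num
  rw [e4, e2, e6]
  have hm : AEMeasurable (fun x => ‖v x‖ₑ) μ := hv.enorm
  have := ENNReal.lintegral_mul_le_Lp_mul_Lq μ Real.HolderConjugate.two_two hm (hm.pow_const 3)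
  refine le_trans (le_of_eq ?_) this
  refine lintegral_congr (fun x => ?_)
  simp only [Pi.mul_apply]
  ring

theorem eLpNorm_tens_sub_le (v w : α → E3) (hv : AEStronglyMeasurable v μ)
    (hw : AEStronglyMeasurable w μ) :
    eLpNorm (fun x => tens (v x) - tens (w x)) 2 μ
      ≤ eLpNorm (fun x => v x - w x) 4 μ * (eLpNorm v 4 μ + eLpNorm w 4 μ) := by
  have h1 : eLpNorm (fun x => tens (v x) - tens (w x)) 2 μ
      ≤ eLpNorm (fun x => ‖v x - w x‖ * (‖v x‖ + ‖w x‖)) 2 μ := by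
    apply eLpNorm_mono_real
    intro x
    exact norm_tens_sub _ _
  have hd : AEStronglyMeasurable (fun x => ‖v x - w x‖) μ := (hv.sub hw).norm
  have hs : AEStronglyMeasurable (fun x => ‖v x‖ + ‖w x‖) μ := hv.norm.add hw.norm
  have hT : ENNReal.HolderTriple 4 4 2 := ⟨by
    rw [← two_mul]
    have h4 : (4 : ℝ≥0∞) = 2 * 2 := by norm_num
    rw [h4, ENNReal.mul_inv (by norm_num) (by norm_num), ← mul_assoc,
      ENNReal.mul_inv_cancel (by norm_num) (by norm_num), one_mul]⟩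
  have h2 := eLpNorm_le_eLpNorm_mul_eLpNorm'_of_norm (p := 4) (q := 4) (r := 2) hd hs
    (fun a b => a * b) 1 (Eventually.of_forall (fun x => by
      rw [norm_mul]; simp)) (μ := μ)
  refine h1.trans (h2.trans ?_)
  rw [ENNReal.coe_one, one_mul]
  have h3 : eLpNorm (fun x => ‖v x - w x‖) 4 μ = eLpNorm (fun x => v x - w x) 4 μ :=
    eLpNorm_norm _
  rw [h3]
  gcongr
  refine (eLpNorm_add_le hv.norm hw.norm (by norm_num)).trans ?_
  rw [eLpNorm_norm, eLpNorm_norm]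

end holder

/-- the submodule of pairs `(φ, ∇φ)`. -/
noncomputable def preW (Ω : Set E3) : Submodule ℝ (L2V Ω × L2M Ω) where
  carrier := {p | ∃ φ, IsTest Ω φ ∧ p.1 =ᵐ[volume.restrict Ω] φ ∧
    p.2 =ᵐ[volume.restrict Ω] jac φ}
  zero_mem' := by
    refine ⟨0, IsTest.zero, ?_, ?_⟩
    · exact Lp.coeFn_zero _ _ _
    · refine (Lp.coeFn_zero _ _ _).trans ?_
      exact Eventually.of_forall (fun x => by simp [jac_zero])
  add_mem' := by
    rintro p q ⟨φ, h1, h2, h3⟩ ⟨ψ, g1, g2, g3⟩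
    refine ⟨φ + ψ, h1.add g1, ?_, ?_⟩
    · exact (Lp.coeFn_add p.1 q.1).trans (h2.add g2)
    · refine (Lp.coeFn_add p.2 q.2).trans ?_
      filter_upwards [h3, g3] with x a b
      simp only [Pi.add_apply]
      rw [a, b, jac_add h1.smooth g1.smooth]
  smul_mem' := by
    rintro c p ⟨φ, h1, h2, h3⟩
    refine ⟨c • φ, h1.smul c, ?_, ?_⟩
    · refine (Lp.coeFn_smul c p.1).trans ?_
      filter_upwards [h2] with x a
      simp [a]
    · refine (Lp.coeFn_smul c p.2).trans ?_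
      filter_upwards [h3] with x a
      simp [a, jac_smul]

/-- the graph of the gradient as a closed submodule. -/
noncomputable def graphW (Ω : Set E3) : Submodule ℝ (L2V Ω × L2M Ω) := (preW Ω).topologicalClosure

theorem graphW_coe (Ω : Set E3) : (graphW Ω : Set (L2V Ω × L2M Ω)) = H1graph Ω := by
  unfold graphW
  rw [Submodule.topologicalClosure_coe]
  rfl

theorem mem_graphW {Ω : Set E3} {p : L2V Ω × L2M Ω} : p ∈ graphW Ω ↔ p ∈ H1graph Ω := by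
  rw [← graphW_coe]; rfl

theorem graphW_closed (Ω : Set E3) : IsClosed (graphW Ω : Set (L2V Ω × L2M Ω)) :=
  Submodule.isClosed_topologicalClosure _

/-- The Sobolev constant. -/
noncomputable def CS : ℝ≥0 := exists_sobolev.choose

theorem CS_spec : ∀ φ : E3 → E3, ContDiff ℝ 1 φ → HasCompactSupport φ →
    eLpNorm φ 6 (volume : Measure E3) ≤ CS * eLpNorm (fderiv ℝ φ) 2 (volume : Measure E3) :=
  exists_sobolev.choose_spec

theorem IsTest.four_le {Ω : Set E3} (hΩ : MeasurableSet Ω) {φ : E3 → E3} (h : IsTest Ω φ) :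
    (eLpNorm φ 4 (volume.restrict Ω)) ^ 4
      ≤ (CS : ℝ≥0∞) ^ 3 * (eLpNorm φ 2 (volume.restrict Ω)
        * (eLpNorm (jac φ) 2 (volume.restrict Ω)) ^ 3) := by
  have hm : AEStronglyMeasurable φ (volume.restrict Ω) :=
    h.smooth.continuous.aestronglyMeasurable
  refine (eLpNorm_four_le φ hm).trans ?_
  have h6 : eLpNorm φ 6 (volume.restrict Ω) ≤ CS * eLpNorm (jac φ) 2 (volume.restrict Ω) := by
    calc eLpNorm φ 6 (volume.restrict Ω) ≤ eLpNorm φ 6 (volume : Measure E3) :=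
          eLpNorm_mono_measure _ Measure.restrict_le_self
      _ ≤ CS * eLpNorm (fderiv ℝ φ) 2 (volume : Measure E3) :=
          CS_spec φ (h.smooth.of_le (by simp)) h.compact
      _ ≤ CS * eLpNorm (jac φ) 2 (volume : Measure E3) := by
          gcongr
          exact eLpNorm_mono (fun x => norm_fderiv_le_jac x)
      _ = CS * eLpNorm (jac φ) 2 (volume.restrict Ω) := by
          rw [h.eLpNorm_jac_restrict hΩ]
  calc eLpNorm φ 2 (volume.restrict Ω) * (eLpNorm φ 6 (volume.restrict Ω)) ^ 3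
      ≤ eLpNorm φ 2 (volume.restrict Ω)
        * (CS * eLpNorm (jac φ) 2 (volume.restrict Ω)) ^ 3 := by gcongr
    _ = _ := by rw [mul_pow]; ring

/-- the `L⁴` bound on `H¹_{0,σ}`. -/
theorem four_le {Ω : Set E3} (hΩ : MeasurableSet Ω) {p : L2V Ω × L2M Ω} (hp : p ∈ graphW Ω) :
    (eLpNorm p.1 4 (volume.restrict Ω)) ^ 4 ≤ (CS : ℝ≥0∞) ^ 3 * (‖p.1‖ₑ * ‖p.2‖ₑ ^ 3) := by
  have hp' : p ∈ closure (preW Ω : Set (L2V Ω × L2M Ω)) := by
    have := hp
    unfold graphW at this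
    rwa [← SetLike.mem_coe, Submodule.topologicalClosure_coe] at this
  obtain ⟨q, hq, hlim⟩ := mem_closure_iff_seq_limit.mp hp'
  have h1 : Tendsto (fun n => (q n).1) atTop (𝓝 p.1) := (continuous_fst.tendsto p).comp hlim
  have h2 : Tendsto (fun n => (q n).2) atTop (𝓝 p.2) := (continuous_snd.tendsto p).comp hlim
  have hmeas : TendstoInMeasure (volume.restrict Ω) (fun n => ((q n).1 : E3 → E3)) atTop p.1 :=
    tendstoInMeasure_of_tendsto_Lp h1
  obtain ⟨ns, hns, hae⟩ := hmeas.exists_seq_tendsto_ae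
  have hns' := hns.tendsto_atTop
  have hbd : ∀ n, (eLpNorm (q n).1 4 (volume.restrict Ω)) ^ 4
      ≤ (CS : ℝ≥0∞) ^ 3 * (‖(q n).1‖ₑ * ‖(q n).2‖ₑ ^ 3) := by
    intro n
    obtain ⟨φ, k1, k2, k3⟩ := hq n
    rw [Lp.enorm_def, Lp.enorm_def, eLpNorm_congr_ae k2, eLpNorm_congr_ae k2,
      eLpNorm_congr_ae k3]
    exact k1.four_le hΩ
  have hR : Tendsto (fun n => (CS : ℝ≥0∞) ^ 3 * (‖(q (ns n)).1‖ₑ * ‖(q (ns n)).2‖ₑ ^ 3)) atTop
      (𝓝 ((CS : ℝ≥0∞) ^ 3 * (‖p.1‖ₑ * ‖p.2‖ₑ ^ 3))) := by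
    have a1 : Tendsto (fun n => ‖(q (ns n)).1‖ₑ) atTop (𝓝 ‖p.1‖ₑ) :=
      (continuous_enorm.tendsto _).comp (h1.comp hns')
    have a2 : Tendsto (fun n => ‖(q (ns n)).2‖ₑ) atTop (𝓝 ‖p.2‖ₑ) :=
      (continuous_enorm.tendsto _).comp (h2.comp hns')
    have a3 : Tendsto (fun n => ‖(q (ns n)).2‖ₑ ^ 3) atTop (𝓝 (‖p.2‖ₑ ^ 3)) :=
      ENNReal.Tendsto.pow a2
    refine ENNReal.Tendsto.const_mul ?_ (Or.inr (by simp))
    refine ENNReal.Tendsto.mul a1 (Or.inr ?_) a3 (Or.inr ?_)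
    · exact ENNReal.pow_ne_top enorm_ne_top
    · exact enorm_ne_top
  refine le_of_forall_gt (fun c hc => ?_)
  -- choose c' between
  obtain ⟨c', hc'1, hc'2⟩ := exists_between hc
  refine lt_of_le_of_lt ?_ hc'2
  have hev : ∀ᶠ n in atTop, eLpNorm (q (ns n)).1 4 (volume.restrict Ω) ≤ c' ^ ((4 : ℝ)⁻¹) := by
    filter_upwards [hR.eventually (gt_mem_nhds hc'1)] with n hn
    have h5 := (hbd (ns n)).trans hn.le
    rw [ENNReal.le_rpow_inv_iff (by norm_num)]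
    have : (4 : ℝ) = ((4 : ℕ) : ℝ) := by norm_num
    rw [this, ENNReal.rpow_natCast]
    exact h5
  have h6 := Lp.eLpNorm_le_of_ae_tendsto hev (fun n => Lp.aestronglyMeasurable _) hae
  rw [ENNReal.le_rpow_inv_iff (by norm_num)] at h6
  have : (4 : ℝ) = ((4 : ℕ) : ℝ) := by norm_num
  rwa [this, ENNReal.rpow_natCast] at h6

theorem four_lt_top {Ω : Set E3} (hΩ : MeasurableSet Ω) {p : L2V Ω × L2M Ω} (hp : p ∈ graphW Ω) :
    eLpNorm p.1 4 (volume.restrict Ω) < ⊤ := by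
  have h := four_le hΩ hp
  have h2 : (CS : ℝ≥0∞) ^ 3 * (‖p.1‖ₑ * ‖p.2‖ₑ ^ 3) < ⊤ := by
    refine ENNReal.mul_lt_top (by simp) (ENNReal.mul_lt_top enorm_lt_top ?_)
    exact ENNReal.pow_lt_top enorm_lt_top
  have h3 := h.trans_lt h2
  by_contra hcon
  rw [not_lt, top_le_iff] at hcon
  rw [hcon] at h3
  simp at h3

theorem memLp_tens {Ω : Set E3} (hΩ : MeasurableSet Ω) {p : L2V Ω × L2M Ω} (hp : p ∈ graphW Ω) :
    MemLp (fun x => tens (p.1 x)) 2 (volume.restrict Ω) := by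
  refine ⟨continuous_tens.comp_aestronglyMeasurable (Lp.aestronglyMeasurable _), ?_⟩
  rw [eLpNorm_tens]
  exact ENNReal.pow_lt_top (four_lt_top hΩ hp)

open Classical in
/-- the tensor square as a map into `L²`. -/
noncomputable def tensL {Ω : Set E3} (v : L2V Ω) : L2M Ω :=
  if h : MemLp (fun x => tens (v x)) 2 (volume.restrict Ω) then h.toLp _ else 0

theorem tensL_coe {Ω : Set E3} (hΩ : MeasurableSet Ω) {p : L2V Ω × L2M Ω} (hp : p ∈ graphW Ω) :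
    (tensL p.1 : E3 → M3) =ᵐ[volume.restrict Ω] fun x => tens (p.1 x) := by
  unfold tensL
  rw [dif_pos (memLp_tens hΩ hp)]
  exact MemLp.coeFn_toLp _

theorem enorm_tensL {Ω : Set E3} (hΩ : MeasurableSet Ω) {p : L2V Ω × L2M Ω}
    (hp : p ∈ graphW Ω) :
    ‖tensL p.1‖ₑ = (eLpNorm p.1 4 (volume.restrict Ω)) ^ 2 := by
  rw [Lp.enorm_def, eLpNorm_congr_ae (tensL_coe hΩ hp), eLpNorm_tens]

/-- the bound on the tensor square. -/
theorem norm_tensL_sq_le {Ω : Set E3} (hΩ : MeasurableSet Ω) {p : L2V Ω × L2M Ω}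
    (hp : p ∈ graphW Ω) :
    ‖tensL p.1‖ ^ 2 ≤ (CS : ℝ) ^ 3 * (‖p.1‖ * ‖p.2‖ ^ 3) := by
  have h1 : ‖tensL p.1‖ₑ ^ 2 ≤ (CS : ℝ≥0∞) ^ 3 * (‖p.1‖ₑ * ‖p.2‖ₑ ^ 3) := by
    rw [enorm_tensL hΩ hp, ← pow_mul]
    exact four_le hΩ hp
  have h2 : (‖tensL p.1‖ₑ ^ 2).toReal ≤ ((CS : ℝ≥0∞) ^ 3 * (‖p.1‖ₑ * ‖p.2‖ₑ ^ 3)).toReal :=
    ENNReal.toReal_mono (by
      refine (ENNReal.mul_lt_top (by simp) (ENNReal.mul_lt_top enorm_lt_top ?_)).ne
      exact ENNReal.pow_lt_top enorm_lt_top) h1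
  simpa [ENNReal.toReal_mul, ENNReal.toReal_pow, toReal_enorm] using h2

end H772R2.NS
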