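import Mathlib
import Pool.Agent.H772R2.NS.Space2

/-!
Continuity of the tensor square, orthogonality, uniqueness of the gradient, measurability.
-/

set_option linter.unusedSectionVars false

open MeasureTheory Set Filter Topology
open scoped InnerProductSpace ENNReal ContDiff NNReal

namespace H772R2.NS

/-- the real `L⁴` norm. -/
noncomputable def n4 {Ω : Set E3} (v : L2V Ω) : ℝ := (eLpNorm v 4 (volume.restrict Ω)).toReal

theorem n4_pow {Ω : Set E3} (hΩ : MeasurableSet Ω) {p : L2V Ω × L2M Ω} (hp : p ∈ graphW Ω) :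
    n4 p.1 ^ 4 ≤ (CS : ℝ) ^ 3 * (‖p.1‖ * ‖p.2‖ ^ 3) := by
  have h1 := four_le hΩ hp
  have h2 : ((eLpNorm p.1 4 (volume.restrict Ω)) ^ 4).toReal
      ≤ ((CS : ℝ≥0∞) ^ 3 * (‖p.1‖ₑ * ‖p.2‖ₑ ^ 3)).toReal :=
    ENNReal.toReal_mono (by
      refine (ENNReal.mul_lt_top (by simp) (ENNReal.mul_lt_top enorm_lt_top ?_)).ne
      exact ENNReal.pow_lt_top enorm_lt_top) h1
  simpa [n4, ENNReal.toReal_mul, ENNReal.toReal_pow, toReal_enorm] using h2

theorem norm_tensL {Ω : Set E3} (hΩ : MeasurableSet Ω) {p : L2V Ω × L2M Ω}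
    (hp : p ∈ graphW Ω) : ‖tensL p.1‖ = n4 p.1 ^ 2 := by
  have h := enorm_tensL hΩ hp
  have h2 := congrArg ENNReal.toReal h
  simpa [n4, ENNReal.toReal_pow, toReal_enorm] using h2

theorem dist_tensL_le {Ω : Set E3} (hΩ : MeasurableSet Ω) {p q : L2V Ω × L2M Ω}
    (hp : p ∈ graphW Ω) (hq : q ∈ graphW Ω) :
    ‖tensL q.1 - tensL p.1‖ ≤ n4 (q - p).1 * (2 * n4 p.1 + n4 (q - p).1) := by
  have hqp : q - p ∈ graphW Ω := (graphW Ω).sub_mem hq hp
  have fp := four_lt_top hΩ hp
  have fq := four_lt_top hΩ hq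
  have fqp := four_lt_top hΩ hqp
  have e0 : ((q - p).1 : E3 → E3) =ᵐ[volume.restrict Ω] fun x => q.1 x - p.1 x := by
    filter_upwards [Lp.coeFn_sub q.1 p.1] with x hx
    exact hx
  have e1 : ‖tensL q.1 - tensL p.1‖ₑ
      ≤ eLpNorm (fun x => q.1 x - p.1 x) 4 (volume.restrict Ω)
        * (eLpNorm q.1 4 (volume.restrict Ω) + eLpNorm p.1 4 (volume.restrict Ω)) := by
    rw [Lp.enorm_def]
    have : eLpNorm (tensL q.1 - tensL p.1 : L2M Ω) 2 (volume.restrict Ω)
        = eLpNorm (fun x => tens (q.1 x) - tens (p.1 x)) 2 (volume.restrict Ω) := by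
      apply eLpNorm_congr_ae
      refine (Lp.coeFn_sub _ _).trans ?_
      exact (tensL_coe hΩ hq).sub (tensL_coe hΩ hp)
    rw [this]
    exact eLpNorm_tens_sub_le _ _ (Lp.aestronglyMeasurable _) (Lp.aestronglyMeasurable _)
  have e2 : eLpNorm (fun x => q.1 x - p.1 x) 4 (volume.restrict Ω)
      = eLpNorm (q - p).1 4 (volume.restrict Ω) := (eLpNorm_congr_ae e0).symm
  have e3 : eLpNorm q.1 4 (volume.restrict Ω)
      ≤ eLpNorm (q - p).1 4 (volume.restrict Ω) + eLpNorm p.1 4 (volume.restrict Ω) := by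
    have : (q.1 : E3 → E3) =ᵐ[volume.restrict Ω] fun x => (q - p).1 x + p.1 x := by
      filter_upwards [e0] with x hx
      rw [hx]; simp
    rw [eLpNorm_congr_ae this]
    exact eLpNorm_add_le (Lp.aestronglyMeasurable _) (Lp.aestronglyMeasurable _) (by norm_num)
  rw [e2] at e1
  have e4 : ‖tensL q.1 - tensL p.1‖ₑ ≤ eLpNorm (q - p).1 4 (volume.restrict Ω)
      * ((eLpNorm (q - p).1 4 (volume.restrict Ω) + eLpNorm p.1 4 (volume.restrict Ω))
        + eLpNorm p.1 4 (volume.restrict Ω)) := e1.trans (by gcongr)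
  have e5 := ENNReal.toReal_mono (ENNReal.mul_lt_top fqp
    (ENNReal.add_lt_top.mpr ⟨ENNReal.add_lt_top.mpr ⟨fqp, fp⟩, fp⟩)).ne e4
  rw [toReal_enorm, ENNReal.toReal_mul, ENNReal.toReal_add
    (ENNReal.add_lt_top.mpr ⟨fqp, fp⟩).ne fp.ne, ENNReal.toReal_add fqp.ne fp.ne] at e5
  refine e5.trans (le_of_eq ?_)
  simp only [n4]
  ring

theorem tensL_continuousOn {Ω : Set E3} (hΩ : MeasurableSet Ω) :
    ContinuousOn (fun p : L2V Ω × L2M Ω => tensL p.1) (graphW Ω : Set (L2V Ω × L2M Ω)) := by
  intro p hp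
  rw [ContinuousWithinAt, tendsto_iff_norm_sub_tendsto_zero]
  -- n4 (q - p).1 → 0
  have h0 : Tendsto (fun q : L2V Ω × L2M Ω => q - p) (𝓝[(graphW Ω : Set _)] p) (𝓝 0) := by
    have : Tendsto (fun q : L2V Ω × L2M Ω => q - p) (𝓝 p) (𝓝 (p - p)) :=
      (continuous_id.sub continuous_const).tendsto p
    rw [sub_self] at this
    exact this.mono_left nhdsWithin_le_nhds
  have hB : Tendsto (fun q : L2V Ω × L2M Ω => (CS : ℝ) ^ 3 * (‖(q - p).1‖ * ‖(q - p).2‖ ^ 3))
      (𝓝[(graphW Ω : Set _)] p) (𝓝 0) := by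
    have hc : Continuous (fun q : L2V Ω × L2M Ω => (CS : ℝ) ^ 3 * (‖q.1‖ * ‖q.2‖ ^ 3)) := by
      fun_prop
    have := (hc.tendsto 0).comp h0
    simpa [Function.comp_def] using this
  have hn : Tendsto (fun q : L2V Ω × L2M Ω => n4 (q - p).1) (𝓝[(graphW Ω : Set _)] p) (𝓝 0) := by
    have h4 : Tendsto (fun q : L2V Ω × L2M Ω => n4 (q - p).1 ^ 4) (𝓝[(graphW Ω : Set _)] p)
        (𝓝 0) := by
      refine squeeze_zero' (Eventually.of_forall (fun q => by positivity)) ?_ hB
      filter_upwards [self_mem_nhdsWithin] with q hq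
      exact n4_pow hΩ ((graphW Ω).sub_mem hq hp)
    have s0 : Tendsto Real.sqrt (𝓝 0) (𝓝 0) := by
      simpa using Real.continuous_sqrt.tendsto 0
    have h5 := s0.comp (s0.comp h4)
    refine h5.congr (fun q => ?_)
    have hnn : 0 ≤ n4 (q - p).1 := ENNReal.toReal_nonneg
    simp only [Function.comp]
    rw [show n4 (q - p).1 ^ 4 = (n4 (q - p).1 ^ 2) ^ 2 by ring, Real.sqrt_sq (by positivity),
      Real.sqrt_sq hnn]
  have hlim : Tendsto (fun q : L2V Ω × L2M Ω => n4 (q - p).1 * (2 * n4 p.1 + n4 (q - p).1))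
      (𝓝[(graphW Ω : Set _)] p) (𝓝 0) := by
    have := hn.mul ((tendsto_const_nhds (x := 2 * n4 p.1)).add hn)
    simpa using this
  refine squeeze_zero' (Eventually.of_forall (fun q => norm_nonneg _)) ?_ hlim
  filter_upwards [self_mem_nhdsWithin] with q hq
  exact dist_tensL_le hΩ hp hq

/-- extension by density from test pairs. -/
theorem graphW_induction {Ω : Set E3} (F : L2V Ω × L2M Ω → ℝ)
    (hF : ContinuousOn F (graphW Ω : Set (L2V Ω × L2M Ω))) (h0 : ∀ p ∈ preW Ω, F p = 0)
    {p : L2V Ω × L2M Ω} (hp : p ∈ graphW Ω) : F p = 0 := by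
  have hp' : p ∈ closure (preW Ω : Set (L2V Ω × L2M Ω)) := by
    have := hp
    unfold graphW at this
    rwa [← SetLike.mem_coe, Submodule.topologicalClosure_coe] at this
  obtain ⟨q, hq, hlim⟩ := mem_closure_iff_seq_limit.mp hp'
  have hqW : ∀ n, q n ∈ graphW Ω := fun n => Submodule.le_topologicalClosure _ (hq n)
  have h1 : Tendsto q atTop (𝓝[(graphW Ω : Set _)] p) :=
    tendsto_nhdsWithin_iff.mpr ⟨hlim, Eventually.of_forall hqW⟩
  have h2 : Tendsto (fun n => F (q n)) atTop (𝓝 (F p)) := (hF p hp).tendsto.comp h1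
  have h3 : Tendsto (fun n => F (q n)) atTop (𝓝 0) := by
    refine (tendsto_congr (fun n => ?_)).mpr tendsto_const_nhds
    exact h0 _ (hq n)
  exact tendsto_nhds_unique h2 h3

section coord

variable {φ : E3 → E3}

theorem contDiff_coord (h : ContDiff ℝ ∞ φ) (j : Fin 3) : ContDiff ℝ ∞ (fun x => φ x j) :=
  (EuclideanSpace.proj (𝕜 := ℝ) j : E3 →L[ℝ] ℝ).contDiff.comp h

theorem fderiv_coord (h : ContDiff ℝ ∞ φ) (j : Fin 3) (x v : E3) :
    fderiv ℝ (fun x => φ x j) x v = fderiv ℝ φ x v j := by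
  have h1 : DifferentiableAt ℝ φ x := (h.differentiable (by simp)) x
  have h2 : HasFDerivAt (fun x => φ x j)
      ((EuclideanSpace.proj (𝕜 := ℝ) j : E3 →L[ℝ] ℝ).comp (fderiv ℝ φ x)) x :=
    (EuclideanSpace.proj (𝕜 := ℝ) j : E3 →L[ℝ] ℝ).hasFDerivAt.comp x h1.hasFDerivAt
  rw [h2.fderiv]
  rfl

theorem hasCompactSupport_coord (h : HasCompactSupport φ) (j : Fin 3) :
    HasCompactSupport (fun x => φ x j) := by
  refine h.mono (fun x hx => ?_)
  intro h0
  apply hx
  simp [h0]

/-- `∫ (φ ⊗ φ) : ∇φ = 0` for divergence free test fields. -/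
theorem IsTest.trilinear_zero {Ω : Set E3} (h : IsTest Ω φ) :
    ∫ x, ⟪tens (φ x), jac φ x⟫_ℝ = 0 := by
  let g : E3 → ℝ := fun x => ∑ i, φ x i ^ 2
  have hg : ContDiff ℝ ∞ g := ContDiff.sum (fun i _ => (contDiff_coord h.smooth i).pow 2)
  have hgc : HasCompactSupport g := by
    refine h.compact.mono (fun x hx => ?_)
    intro h0
    apply hx
    simp [g, h0]
  have hgd : ∀ x j, fderiv ℝ g x (ev j) = ∑ i, 2 * φ x i * jac φ x (i, j) := by
    intro x j
    have h1 : ∀ i ∈ Finset.univ, DifferentiableAt ℝ (fun x => φ x i ^ 2) x := fun i _ =>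
      (((contDiff_coord h.smooth i).pow 2).differentiable (by simp)) x
    have h2 : fderiv ℝ g x = ∑ i, fderiv ℝ (fun x => φ x i ^ 2) x := by
      have : g = fun x => ∑ i, φ x i ^ 2 := rfl
      rw [this, fderiv_fun_sum h1]
    rw [h2, ContinuousLinearMap.sum_apply]
    refine Finset.sum_congr rfl (fun i _ => ?_)
    have h3 : DifferentiableAt ℝ (fun x => φ x i) x :=
      ((contDiff_coord h.smooth i).differentiable (by simp)) x
    rw [fderiv_fun_pow 2 h3]
    simp only [ContinuousLinearMap.smul_apply, smul_eq_mul]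
    rw [fderiv_coord h.smooth, jac_apply]
    simp
  have hcont : ∀ j, Continuous (fun x => fderiv ℝ g x (ev j)) := fun j =>
    (hg.continuous_fderiv (by simp)).clm_apply continuous_const
  have hcontφ : ∀ j, Continuous (fun x => fderiv ℝ (fun y => φ y j) x (ev j)) := fun j =>
    ((contDiff_coord h.smooth j).continuous_fderiv (by simp)).clm_apply continuous_const
  have hφc : ∀ j, Continuous (fun x => φ x j) := fun j => (contDiff_coord h.smooth j).continuous
  have hibp : ∀ j, ∫ x, φ x j * fderiv ℝ g x (ev j)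
      = - ∫ x, fderiv ℝ (fun y => φ y j) x (ev j) * g x := by
    intro j
    apply integral_mul_fderiv_eq_neg_fderiv_mul_of_integrable
    · exact ((hcontφ j).mul hg.continuous).integrable_of_hasCompactSupport (hgc.mul_left)
    · exact ((hφc j).mul (hcont j)).integrable_of_hasCompactSupport
        ((hasCompactSupport_coord h.compact j).mul_right)
    · exact ((hφc j).mul hg.continuous).integrable_of_hasCompactSupport (hgc.mul_left)
    · intro x _
      exact ((contDiff_coord h.smooth j).differentiable (by simp)) x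
    · intro x _
      exact (hg.differentiable (by simp)) x
  have hpt : ∀ x, ⟪tens (φ x), jac φ x⟫_ℝ = (1 / 2) * ∑ j, φ x j * fderiv ℝ g x (ev j) := by
    intro x
    rw [inner_M3]
    simp only [hgd, tens_apply, Finset.mul_sum]
    rw [Finset.sum_comm]
    refine Finset.sum_congr rfl (fun j _ => Finset.sum_congr rfl (fun i _ => ?_))
    ring
  have hint1 : ∀ j ∈ Finset.univ, Integrable (fun x => φ x j * fderiv ℝ g x (ev j)) := fun j _ =>
    ((hφc j).mul (hcont j)).integrable_of_hasCompactSupport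
        ((hasCompactSupport_coord h.compact j).mul_right)
  have hint2 : ∀ j ∈ Finset.univ, Integrable (fun x => fderiv ℝ (fun y => φ y j) x (ev j) * g x) :=
    fun j _ => ((hcontφ j).mul hg.continuous).integrable_of_hasCompactSupport (hgc.mul_left)
  simp_rw [hpt]
  rw [integral_const_mul, integral_finsetSum _ hint1]
  simp_rw [hibp]
  rw [Finset.sum_neg_distrib, ← integral_finsetSum _ hint2]
  have hz : ∀ x, ∑ j, fderiv ℝ (fun y => φ y j) x (ev j) * g x = 0 := by
    intro x
    rw [← Finset.sum_mul]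
    have : ∑ j, fderiv ℝ (fun y => φ y j) x (ev j) = 0 := by
      simp_rw [fderiv_coord h.smooth]
      exact h.divfree x
    rw [this, zero_mul]
  simp [hz]

end coord

/-- `∫_Ω (v ⊗ v) : ∇v = 0` for `v ∈ H¹_{0,σ}(Ω)`. -/
theorem inner_tensL_zero {Ω : Set E3} (hΩ : MeasurableSet Ω) {p : L2V Ω × L2M Ω}
    (hp : p ∈ graphW Ω) : ⟪tensL p.1, p.2⟫_ℝ = 0 := by
  refine graphW_induction (fun p => ⟪tensL p.1, p.2⟫_ℝ)
    ((tensL_continuousOn hΩ).inner continuous_snd.continuousOn) ?_ hp
  intro q hq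
  have hqW : q ∈ graphW Ω := Submodule.le_topologicalClosure _ hq
  obtain ⟨φ, h1, h2, h3⟩ := hq
  have e1 : ⟪tensL q.1, q.2⟫_ℝ = ∫ x in Ω, ⟪tens (φ x), jac φ x⟫_ℝ := by
    rw [L2.inner_def]
    apply integral_congr_ae
    filter_upwards [tensL_coe hΩ hqW, h2, h3] with x a b c
    rw [a, b, c]
  show ⟪tensL q.1, q.2⟫_ℝ = 0
  rw [e1, setIntegral_eq_integral_of_forall_compl_eq_zero]
  · exact h1.trilinear_zero
  · intro x hx
    have : jac φ x = 0 := by
      apply image_eq_zero_of_notMem_tsupport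
      intro hc
      exact hx (h1.supp (tsupport_jac_subset hc))
    rw [this, inner_zero_right]

/-- uniqueness of the gradient. -/
theorem graphW_uniq {Ω : Set E3} (hΩ : IsOpen Ω) (z : L2M Ω) (hz : ((0 : L2V Ω), z) ∈ graphW Ω) :
    z = 0 := by
  have key : ∀ (i j : Fin 3) (ψ : E3 → ℝ), ContDiff ℝ ∞ ψ → HasCompactSupport ψ →
      tsupport ψ ⊆ Ω → ∫ x in Ω, ψ x • z x (i, j) = 0 := by
    intro i j ψ h1 h2 h3
    -- test vectors
    have hψc : Continuous ψ := h1.continuous
    have hdψ : Continuous (fun x => fderiv ℝ ψ x (ev j)) :=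
      (h1.continuous_fderiv (by simp)).clm_apply continuous_const
    have hdψs : HasCompactSupport (fun x => fderiv ℝ ψ x (ev j)) := h2.fderiv_apply ℝ _
    let A : E3 → M3 := fun x => EuclideanSpace.single (i, j) (ψ x)
    let B : E3 → E3 := fun x => EuclideanSpace.single i (fderiv ℝ ψ x (ev j))
    have hAc : Continuous A := by
      have : A = fun x => ψ x • (EuclideanSpace.single (i, j) (1 : ℝ) : M3) := by
        ext x p; simp [A]
      rw [this]; fun_prop
    have hBc : Continuous B := by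
      have : B = fun x => fderiv ℝ ψ x (ev j) • (EuclideanSpace.single i (1 : ℝ) : E3) := by
        ext x p; simp [B]
      rw [this]; exact hdψ.smul continuous_const
    have hAs : HasCompactSupport A := by
      refine h2.mono (fun x hx => ?_)
      intro h0; apply hx; ext p; simp [A, h0]
    have hBs : HasCompactSupport B := by
      refine hdψs.mono (fun x hx => ?_)
      intro h0
      apply hx
      have h0' : fderiv ℝ ψ x (ev j) = 0 := h0
      ext p; simp [B, h0']
    have hA : MemLp A 2 (volume.restrict Ω) :=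
      (hAc.memLp_of_hasCompactSupport hAs).restrict Ω
    have hB : MemLp B 2 (volume.restrict Ω) :=
      (hBc.memLp_of_hasCompactSupport hBs).restrict Ω
    have hcont : Continuous (fun p : L2V Ω × L2M Ω =>
        ⟪hA.toLp A, p.2⟫_ℝ + ⟪hB.toLp B, p.1⟫_ℝ) := by fun_prop
    have hzero := graphW_induction (fun p : L2V Ω × L2M Ω =>
        ⟪hA.toLp A, p.2⟫_ℝ + ⟪hB.toLp B, p.1⟫_ℝ) hcont.continuousOn (by
      rintro q ⟨φ, k1, k2, k3⟩
      have e1 : ⟪hA.toLp A, q.2⟫_ℝ = ∫ x in Ω, ψ x * fderiv ℝ (fun y => φ y i) x (ev j) := by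
        rw [L2.inner_def]
        apply integral_congr_ae
        filter_upwards [hA.coeFn_toLp, k3] with x a b
        rw [a, b]
        simp only [A, EuclideanSpace.inner_single_left, jac_apply]
        rw [fderiv_coord k1.smooth]
        simp
      have e2 : ⟪hB.toLp B, q.1⟫_ℝ = ∫ x in Ω, fderiv ℝ ψ x (ev j) * φ x i := by
        rw [L2.inner_def]
        apply integral_congr_ae
        filter_upwards [hB.coeFn_toLp, k2] with x a b
        rw [a, b]
        simp only [B, EuclideanSpace.inner_single_left]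
        simp
      show ⟪hA.toLp A, q.2⟫_ℝ + ⟪hB.toLp B, q.1⟫_ℝ = 0
      have hφc : Continuous (fun x => φ x i) := (contDiff_coord k1.smooth i).continuous
      have hdφ : Continuous (fun x => fderiv ℝ (fun y => φ y i) x (ev j)) :=
        ((contDiff_coord k1.smooth i).continuous_fderiv (by simp)).clm_apply continuous_const
      have e3 : ∫ x in Ω, ψ x * fderiv ℝ (fun y => φ y i) x (ev j)
          = ∫ x, ψ x * fderiv ℝ (fun y => φ y i) x (ev j) := by
        apply setIntegral_eq_integral_of_forall_compl_eq_zero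
        intro x hx
        have : ψ x = 0 := image_eq_zero_of_notMem_tsupport (fun hc => hx (h3 hc))
        rw [this, zero_mul]
      have e4 : ∫ x in Ω, fderiv ℝ ψ x (ev j) * φ x i = ∫ x, fderiv ℝ ψ x (ev j) * φ x i := by
        apply setIntegral_eq_integral_of_forall_compl_eq_zero
        intro x hx
        have : φ x = 0 := image_eq_zero_of_notMem_tsupport (fun hc => hx (k1.supp hc))
        rw [this]; simp
      rw [e1, e2, e3, e4, integral_mul_fderiv_eq_neg_fderiv_mul_of_integrable]
      · ring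
      · exact (hdψ.mul hφc).integrable_of_hasCompactSupport
          ((hasCompactSupport_coord k1.compact i).mul_left)
      · exact (hψc.mul hdφ).integrable_of_hasCompactSupport (h2.mul_right)
      · exact (hψc.mul hφc).integrable_of_hasCompactSupport (h2.mul_right)
      · intro x _; exact (h1.differentiable (by simp)) x
      · intro x _; exact ((contDiff_coord k1.smooth i).differentiable (by simp)) x) hz
    simp only [inner_zero_right, add_zero] at hzero
    rw [L2.inner_def] at hzero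
    rw [← hzero]
    apply integral_congr_ae
    filter_upwards [hA.coeFn_toLp] with x a
    rw [a]
    simp [A, EuclideanSpace.inner_single_left]
  have hcomp : ∀ i j : Fin 3, ∀ᵐ x ∂(volume.restrict Ω), z x (i, j) = 0 := by
    intro i j
    have hzm : MemLp (fun x => z x (i, j)) 2 (volume.restrict Ω) := by
      have h1 : MemLp (z : E3 → M3) 2 (volume.restrict Ω) := Lp.memLp z
      refine h1.of_le ?_ ?_
      · exact ((EuclideanSpace.proj (𝕜 := ℝ) (i, j) : M3 →L[ℝ] ℝ).continuous).comp_aestronglyMeasurable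
          h1.aestronglyMeasurable
      · exact Eventually.of_forall (fun x => PiLp.norm_apply_le (z x) (i, j))
    have hloc : LocallyIntegrableOn (fun x => z x (i, j)) Ω volume := by
      intro x hx
      obtain ⟨ε, hε, hball⟩ := Metric.isOpen_iff.mp hΩ x hx
      refine ⟨Metric.ball x ε ∩ Ω, ?_, ?_⟩
      · rw [inter_comm]
        exact inter_mem_nhdsWithin _ (Metric.ball_mem_nhds x hε)
      · have h1 : MemLp (fun x => z x (i, j)) 2 (volume.restrict (Metric.ball x ε ∩ Ω)) :=
          hzm.mono_measure (Measure.restrict_mono inter_subset_right le_rfl)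
        have : IsFiniteMeasure (volume.restrict (Metric.ball x ε ∩ Ω) : Measure E3) :=
          ⟨by
            rw [Measure.restrict_apply_univ]
            exact (measure_mono inter_subset_left).trans_lt measure_ball_lt_top⟩
        exact h1.integrable (by norm_num)
    have := hΩ.ae_eq_zero_of_integral_contDiff_smul_eq_zero hloc (fun g g1 g2 g3 => by
      rw [← key i j g g1 g2 g3]
      symm
      apply setIntegral_eq_integral_of_forall_compl_eq_zero
      intro x hx
      have : g x = 0 := image_eq_zero_of_notMem_tsupport (fun hc => hx (g3 hc))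
      rw [this, zero_smul])
    rw [ae_restrict_iff' hΩ.measurableSet]
    exact this
  have hall : ∀ᵐ x ∂(volume.restrict Ω), ∀ p : Fin 3 × Fin 3, z x p = 0 := by
    rw [ae_all_iff]
    rintro ⟨i, j⟩
    exact hcomp i j
  apply Lp.ext
  filter_upwards [hall, Lp.coeFn_zero M3 2 (volume.restrict Ω)] with x a b
  rw [b]
  ext p
  simp [a p]

instance : Fact ((2 : ℝ≥0∞) ≠ ⊤) := ⟨by simp⟩

theorem secondCountable_L2V (Ω : Set E3) : SecondCountableTopology (L2V Ω) :=
  Lp.SecondCountableTopology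

theorem secondCountable_L2M (Ω : Set E3) : SecondCountableTopology (L2M Ω) :=
  Lp.SecondCountableTopology

/-- measurability in time of the tensor square. -/
theorem aestronglyMeasurable_tensL {Ω : Set E3} (hΩ : MeasurableSet Ω) {μ : Measure ℝ}
    {u : ℝ → L2V Ω} {G : ℝ → L2M Ω} (hu : AEStronglyMeasurable u μ)
    (hG : AEStronglyMeasurable G μ) (hW : ∀ᵐ t ∂μ, (u t, G t) ∈ graphW Ω) :
    AEStronglyMeasurable (fun t => tensL (u t)) μ := by
  classical
  have := secondCountable_L2V Ω
  have := secondCountable_L2M Ω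
  let _ : MeasurableSpace (L2V Ω × L2M Ω) := borel _
  have : BorelSpace (L2V Ω × L2M Ω) := ⟨rfl⟩
  let _ : MeasurableSpace (L2M Ω) := borel _
  have : BorelSpace (L2M Ω) := ⟨rfl⟩
  have hm : Measurable ((graphW Ω : Set (L2V Ω × L2M Ω)).piecewise
      (fun p : L2V Ω × L2M Ω => tensL p.1) (fun _ => 0)) :=
    (tensL_continuousOn hΩ).measurable_piecewise continuousOn_const (graphW_closed Ω).measurableSet
  have hp : AEMeasurable (fun t => (u t, G t)) μ := (hu.prodMk hG).aemeasurable
  have hc := (hm.comp_aemeasurable hp).aestronglyMeasurable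
  refine hc.congr ?_
  filter_upwards [hW] with t ht
  simp only [Function.comp]
  rw [piecewise_eq_of_mem _ _ _ ht]

end H772R2.NS
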