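import Mathlib
import Pool.Agent.H772R2.NS.Defs

/-!
Public definitions, in terms of type synonyms: divergence free test fields, the spaces `L²_σ(Ω)`
and `H¹_{0,σ}(Ω)`, weak solutions of the three dimensional Navier-Stokes equations, energy defect.
-/

open MeasureTheory Set
open scoped InnerProductSpace ENNReal ContDiff

namespace H772R2.NS.Pub

/-- Three dimensional Euclidean space. -/
def R3 : Type := EuclideanSpace ℝ (Fin 3)

noncomputable instance R3.nacg : NormedAddCommGroup R3 :=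
  (inferInstance : NormedAddCommGroup (EuclideanSpace ℝ (Fin 3)))

noncomputable instance R3.ips : InnerProductSpace ℝ R3 :=
  (inferInstance : InnerProductSpace ℝ (EuclideanSpace ℝ (Fin 3)))

noncomputable instance R3.ms : MeasureSpace R3 :=
  (inferInstance : MeasureSpace (EuclideanSpace ℝ (Fin 3)))

/-- Real `3 × 3` matrices with the Frobenius norm `(∑ a_ij²)^(1/2)`. -/
def Mat : Type := EuclideanSpace ℝ (Fin 3 × Fin 3)

noncomputable instance Mat.nacg : NormedAddCommGroup Mat :=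
  (inferInstance : NormedAddCommGroup (EuclideanSpace ℝ (Fin 3 × Fin 3)))

noncomputable instance Mat.ips : InnerProductSpace ℝ Mat :=
  (inferInstance : InnerProductSpace ℝ (EuclideanSpace ℝ (Fin 3 × Fin 3)))

/-- The `j`-th vector of the standard basis. -/
noncomputable def e (j : Fin 3) : R3 := EuclideanSpace.single j (1 : ℝ)

/-- The Jacobian matrix of `φ` at `x`: its entry `(i, j)` is `∂φ_i/∂x_j = ⟪e_i, ∂_j φ⟫`. -/
noncomputable def jac (φ : R3 → R3) (x : R3) : Mat :=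
  WithLp.toLp 2 fun p : Fin 3 × Fin 3 => ⟪e p.1, fderiv ℝ φ x (e p.2)⟫_ℝ

/-- The divergence. -/
noncomputable def dvg (φ : R3 → R3) (x : R3) : ℝ := ∑ i, ⟪e i, fderiv ℝ φ x (e i)⟫_ℝ

/-- Divergence free test fields: smooth, with compact support contained in `Ω`. -/
structure IsTest (Ω : Set R3) (φ : R3 → R3) : Prop where
  smooth : ContDiff ℝ ∞ φ
  compact : HasCompactSupport φ
  supp : tsupport φ ⊆ Ω
  divfree : ∀ x, dvg φ x = 0

/-- The Hilbert space `L²(Ω; E)`. -/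
def L2 (Ω : Set R3) (E : Type) [NormedAddCommGroup E] : Type :=
  Lp E 2 ((volume : Measure R3).restrict Ω)

section

variable (Ω : Set R3) (E : Type) [NormedAddCommGroup E]

noncomputable instance L2.nacg : NormedAddCommGroup (L2 Ω E) :=
  (inferInstance : NormedAddCommGroup (Lp E 2 ((volume : Measure R3).restrict Ω)))

noncomputable instance L2.ips [InnerProductSpace ℝ E] : InnerProductSpace ℝ (L2 Ω E) :=
  (inferInstance : InnerProductSpace ℝ (Lp E 2 ((volume : Measure R3).restrict Ω)))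

end

/-- A function representing the class `v ∈ L²(Ω; E)`. -/
noncomputable def L2.fn {Ω : Set R3} {E : Type} [NormedAddCommGroup E] (v : L2 Ω E) : R3 → E :=
  ((show Lp E 2 ((volume : Measure R3).restrict Ω) from v) : R3 → E)

/-- `v` is the class of the function `φ`. -/
def IsClass {Ω : Set R3} {E : Type} [NormedAddCommGroup E] (v : L2 Ω E) (φ : R3 → E) : Prop :=
  v.fn =ᵐ[volume.restrict Ω] φ

/-- `L²_σ(Ω)`: the closure in `L²(Ω)³` of the divergence free test fields. -/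
def L2sigma (Ω : Set R3) : Set (L2 Ω R3) :=
  closure {v | ∃ φ, IsTest Ω φ ∧ IsClass v φ}

/-- The graph of the gradient of `H¹_{0,σ}(Ω)`: the closure of the pairs `(φ, ∇φ)`, `φ` a
divergence free test field, in `L²(Ω)³ × L²(Ω)^{3×3}`. So `(v, z) ∈ H1graph Ω` means that
`v ∈ H¹_{0,σ}(Ω)` and `z = ∇v`. -/
def H1graph (Ω : Set R3) : Set (L2 Ω R3 × L2 Ω Mat) :=
  closure {p | ∃ φ, IsTest Ω φ ∧ IsClass p.1 φ ∧ IsClass p.2 (jac φ)}

/-- `H¹_{0,σ}(Ω)` as a set of elements of `L²(Ω)³`. -/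
def H10sigma (Ω : Set R3) : Set (L2 Ω R3) := {v | ∃ z, (v, z) ∈ H1graph Ω}

/-- The function under the time integral in the weak formulation with the test field
`θ(t) φ(x)`: `θ'(u, φ) + θ (u, (u·∇)φ) - νθ (∇u, ∇φ) + θ (f, φ)`. -/
noncomputable def integrand {Ω : Set R3} (ν : ℝ) (v : L2 Ω R3) (z : L2 Ω Mat) (g : L2 Ω R3)
    (φ : R3 → R3) (a b : ℝ) : ℝ :=
  b * (∫ x in Ω, ⟪v.fn x, φ x⟫_ℝ) + a * (∫ x in Ω, ⟪v.fn x, fderiv ℝ φ x (v.fn x)⟫_ℝ)
    - ν * a * (∫ x in Ω, ⟪z.fn x, jac φ x⟫_ℝ) + a * (∫ x in Ω, ⟪g.fn x, φ x⟫_ℝ)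

/-- `u` is a weak solution of the Navier-Stokes equations with viscosity `ν` and force `f` in
`Ω × (0,T)` vanishing on the boundary, `G` is its gradient (no energy inequality is assumed):
* `u ∈ L^∞(0,T; L²_σ)` is weakly continuous in time on `[0,T]`;
* `u ∈ L²(0,T; H¹_{0,σ})`, with `∇u = G`;
* `f ∈ L¹(0,T; L²)`;
* the equations hold in the sense of distributions, tested with `θ(t) φ(x)`, where `θ` is a
  smooth function with compact support in `(0,T)` and `φ` a divergence free test field. -/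
structure IsWeakSolution (Ω : Set R3) (ν T : ℝ) (u : ℝ → L2 Ω R3) (G : ℝ → L2 Ω Mat)
    (f : ℝ → L2 Ω R3) : Prop where
  meas : AEStronglyMeasurable u (volume.restrict (Ioo 0 T))
  bdd : ∃ M, ∀ t ∈ Icc 0 T, ‖u t‖ ≤ M
  sol : ∀ t ∈ Icc 0 T, u t ∈ L2sigma Ω
  wcont : ∀ v : L2 Ω R3, ContinuousOn (fun t => ⟪u t, v⟫_ℝ) (Icc 0 T)
  grad : ∀ᵐ t ∂(volume.restrict (Ioo 0 T)), (u t, G t) ∈ H1graph Ω
  gradL2 : MemLp G 2 (volume.restrict (Ioo 0 T))
  force : Integrable f (volume.restrict (Ioo 0 T))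
  eqn : ∀ φ, IsTest Ω φ → ∀ θ : ℝ → ℝ, ContDiff ℝ ∞ θ → HasCompactSupport θ →
    tsupport θ ⊆ Ioo 0 T →
    ∫ t in Ioo 0 T, integrand ν (u t) (G t) (f t) φ (θ t) (deriv θ t) = 0

/-- The energy defect `D(t) = k(0) + ∫₀ᵗ P - k(t) - |Ω| ∫₀ᵗ ε`: the energy inequality says
`D(t) ≥ 0`, the energy equality `D(t) = 0`. -/
noncomputable def energyDefect {Ω : Set R3} (ν : ℝ) (u : ℝ → L2 Ω R3) (G : ℝ → L2 Ω Mat)
    (f : ℝ → L2 Ω R3) (t : ℝ) : ℝ :=
  ‖u 0‖ ^ 2 / 2 + (∫ τ in (0 : ℝ)..t, ⟪f τ, u τ⟫_ℝ) - ‖u t‖ ^ 2 / 2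
    - ν * ∫ τ in (0 : ℝ)..t, ‖G τ‖ ^ 2

/-- The norm of `v` in `L⁴(Ω)³`. -/
noncomputable def norm4 {Ω : Set R3} (v : L2 Ω R3) : ℝ≥0∞ := eLpNorm v.fn 4 (volume.restrict Ω)

end H772R2.NS.Pub
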