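import Mathlib
import Pool.Agent.H772R2.NS.Pub
import Pool.Agent.H772R2.NS.Space2

/-!
The public definitions agree with the internal ones.
-/

open MeasureTheory Set Filter
open scoped InnerProductSpace ENNReal ContDiff

namespace H772R2.NS.Pub

variable {Ω : Set R3}

theorem inner_e (i : Fin 3) (w : E3) : ⟪(e i : E3), w⟫_ℝ = w i := by
  show ⟪(EuclideanSpace.single i (1 : ℝ) : E3), w⟫_ℝ = w i
  rw [EuclideanSpace.inner_single_left]
  simp

theorem jac_eq (φ : E3 → E3) (x : E3) : Pub.jac φ x = NS.jac φ x := by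
  have h : ∀ p : Fin 3 × Fin 3, ⟪(e p.1 : E3), fderiv ℝ φ x (e p.2 : E3)⟫_ℝ
      = (fderiv ℝ φ x (EuclideanSpace.single p.2 1)) p.1 := by
    intro p
    exact inner_e p.1 _
  show WithLp.toLp 2 (fun p : Fin 3 × Fin 3 => ⟪(e p.1 : E3), fderiv ℝ φ x (e p.2 : E3)⟫_ℝ) = _
  rw [funext h]
  rfl

theorem dvg_eq (φ : E3 → E3) (x : E3) :
    dvg φ x = ∑ i, NS.jac φ x (i, i) := by
  unfold dvg
  refine Finset.sum_congr rfl fun i _ => ?_
  exact inner_e i _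

theorem isTest_iff (φ : E3 → E3) : Pub.IsTest Ω φ ↔ NS.IsTest (Ω : Set E3) φ := by
  constructor
  · rintro ⟨h1, h2, h3, h4⟩
    exact ⟨h1, h2, h3, fun x => (dvg_eq φ x).symm.trans (h4 x)⟩
  · rintro ⟨h1, h2, h3, h4⟩
    exact ⟨h1, h2, h3, fun x => (dvg_eq φ x).trans (h4 x)⟩

theorem L2sigma_eq : (Pub.L2sigma Ω : Set (L2V (Ω : Set E3))) = NS.L2sigma (Ω : Set E3) := by
  have : {v : L2 Ω R3 | ∃ φ, Pub.IsTest Ω φ ∧ IsClass v φ}
      = {v : L2V (Ω : Set E3) | ∃ φ, NS.IsTest (Ω : Set E3) φ ∧ v =ᵐ[volume.restrict Ω] φ} := by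
    ext v
    constructor
    · rintro ⟨φ, h1, h2⟩
      exact ⟨φ, (isTest_iff φ).mp h1, h2⟩
    · rintro ⟨φ, h1, h2⟩
      exact ⟨φ, (isTest_iff φ).mpr h1, h2⟩
  unfold Pub.L2sigma
  rw [this]
  rfl

theorem isClass_jac (v : L2M (Ω : Set E3)) (φ : E3 → E3) :
    IsClass (Ω := Ω) (E := Mat) v (Pub.jac φ) ↔ v =ᵐ[volume.restrict (Ω : Set E3)] NS.jac φ := by
  have hj : (Pub.jac φ : E3 → M3) = NS.jac φ := funext (jac_eq φ)
  have h : IsClass (Ω := Ω) (E := Mat) v (Pub.jac φ)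
      ↔ v =ᵐ[volume.restrict (Ω : Set E3)] (Pub.jac φ : E3 → M3) := Iff.rfl
  rw [h, hj]

theorem H1graph_eq : (Pub.H1graph Ω : Set (L2V (Ω : Set E3) × L2M (Ω : Set E3)))
    = NS.H1graph (Ω : Set E3) := by
  have : {p : L2 Ω R3 × L2 Ω Mat | ∃ φ, Pub.IsTest Ω φ ∧ IsClass p.1 φ ∧ IsClass p.2 (Pub.jac φ)}
      = {p : L2V (Ω : Set E3) × L2M (Ω : Set E3) | ∃ φ, NS.IsTest (Ω : Set E3) φ ∧
        p.1 =ᵐ[volume.restrict Ω] φ ∧ p.2 =ᵐ[volume.restrict Ω] NS.jac φ} := by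
    ext v
    constructor
    · rintro ⟨φ, h1, h2, h3⟩
      exact ⟨φ, (isTest_iff φ).mp h1, h2, (isClass_jac _ φ).mp h3⟩
    · rintro ⟨φ, h1, h2, h3⟩
      exact ⟨φ, (isTest_iff φ).mpr h1, h2, (isClass_jac _ φ).mpr h3⟩
  unfold Pub.H1graph
  rw [this]
  rfl

theorem inner_fderiv (φ : E3 → E3) (x w : E3) :
    ⟪w, fderiv ℝ φ x w⟫_ℝ = ∑ i, ∑ j, w i * w j * NS.jac φ x (i, j) := by
  rw [inner_E3]
  refine Finset.sum_congr rfl fun i _ => ?_
  have hw : w = ∑ j, w j • (EuclideanSpace.single j (1 : ℝ) : E3) := by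
    ext k
    simp [Pi.single_apply]
  have h1 : fderiv ℝ φ x w i = ∑ j, w j * NS.jac φ x (i, j) := by
    conv_lhs => rw [hw]
    rw [map_sum]
    have : ∀ y : Fin 3 → E3, (∑ j, y j) i = ∑ j, y j i := by
      intro y
      simp
    rw [this]
    refine Finset.sum_congr rfl fun j _ => ?_
    rw [map_smul]
    rfl
  rw [h1, Finset.mul_sum]
  refine Finset.sum_congr rfl fun j _ => ?_
  ring

theorem integrand_eq (ν : ℝ) (v : L2V (Ω : Set E3)) (z : L2M (Ω : Set E3)) (g : L2V (Ω : Set E3))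
    (φ : E3 → E3) (a b : ℝ) :
    integrand (Ω := Ω) ν v z g φ a b
      = b * (∫ x in (Ω : Set E3), ∑ i, v x i * φ x i)
        + a * (∫ x in (Ω : Set E3), ∑ i, ∑ j, v x i * v x j * NS.jac φ x (i, j))
        - ν * a * (∫ x in (Ω : Set E3), ∑ i, ∑ j, z x (i, j) * NS.jac φ x (i, j))
        + a * (∫ x in (Ω : Set E3), ∑ i, g x i * φ x i) := by
  have e1 : ∀ w : L2V (Ω : Set E3), (∫ x in Ω, ⟪L2.fn (Ω := Ω) (E := R3) w x, (φ : R3 → R3) x⟫_ℝ)
      = ∫ x in (Ω : Set E3), ∑ i, w x i * φ x i := fun w =>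
    integral_congr_ae (μ := (volume : Measure E3).restrict (Ω : Set E3))
      (Eventually.of_forall fun x => inner_E3 (w x) (φ x))
  have e2 : (∫ x in Ω, ⟪L2.fn (Ω := Ω) (E := R3) v x,
      fderiv ℝ (φ : R3 → R3) x (L2.fn (Ω := Ω) (E := R3) v x)⟫_ℝ)
      = ∫ x in (Ω : Set E3), ∑ i, ∑ j, v x i * v x j * NS.jac φ x (i, j) :=
    integral_congr_ae (μ := (volume : Measure E3).restrict (Ω : Set E3))
      (Eventually.of_forall fun x => inner_fderiv φ x (v x))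
  have e3 : (∫ x in Ω, ⟪L2.fn (Ω := Ω) (E := Mat) z x, Pub.jac φ x⟫_ℝ)
      = ∫ x in (Ω : Set E3), ∑ i, ∑ j, z x (i, j) * NS.jac φ x (i, j) :=
    integral_congr_ae (μ := (volume : Measure E3).restrict (Ω : Set E3))
      (Eventually.of_forall fun x => by
        have h1 : (Pub.jac φ x : M3) = NS.jac φ x := jac_eq φ x
        refine Eq.trans ?_ (inner_M3 (z x) (NS.jac φ x))
        exact congrArg (fun y : M3 => ⟪z x, y⟫_ℝ) h1)
  exact congrArg₂ (· + ·) (congrArg₂ (· - ·) (congrArg₂ (· + ·) (congrArg (b * ·) (e1 v))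
    (congrArg (a * ·) e2)) (congrArg (ν * a * ·) e3)) (congrArg (a * ·) (e1 g))

/-- Weak solutions in the sense of the public definition are weak solutions in the sense of the
internal one. -/
theorem toNS {ν T : ℝ} {u : ℝ → L2 Ω R3} {G : ℝ → L2 Ω Mat} {f : ℝ → L2 Ω R3}
    (h : Pub.IsWeakSolution Ω ν T u G f) :
    NS.IsWeakSolution (Ω : Set E3) ν T u G f where
  meas := h.meas
  bdd := h.bdd
  sol := fun t ht => by
    have := h.sol t ht
    rw [← L2sigma_eq]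
    exact this
  wcont := h.wcont
  grad := by
    rw [← H1graph_eq]
    exact h.grad
  gradL2 := h.gradL2
  force := h.force
  eqn := fun φ hφ θ h1 h2 h3 => by
    have h4 := h.eqn φ ((isTest_iff φ).mpr hφ) θ h1 h2 h3
    refine Eq.trans ?_ h4
    exact integral_congr_ae (Eventually.of_forall fun t =>
      (integrand_eq ν (u t) (G t) (f t) φ (θ t) (deriv θ t)).symm)

theorem mem_pub {v : L2V (Ω : Set E3)} {z : L2M (Ω : Set E3)} :
    (v, z) ∈ graphW (Ω : Set E3)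
      ↔ (v, z) ∈ (Pub.H1graph Ω : Set (L2V (Ω : Set E3) × L2M (Ω : Set E3))) := by
  rw [H1graph_eq]
  exact mem_graphW

theorem defect_pub {ν : ℝ} (u : ℝ → L2 Ω R3) (G : ℝ → L2 Ω Mat) (f : ℝ → L2 Ω R3) :
    NS.energyDefect (Ω := (Ω : Set E3)) ν u G f = Pub.energyDefect ν u G f := rfl

end H772R2.NS.Pub
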