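import Mathlib

/-!
One-dimensional combinatorics: the next point of a closed set, refining partitions of a closed
set, two-sided accumulation points.
-/

set_option linter.unusedSectionVars false

open MeasureTheory Set Filter Topology
open scoped ENNReal

namespace H772R2.NS

/-- The first point of `A` at or after `x`. -/
noncomputable def nxt (A : Set ℝ) (x : ℝ) : ℝ := sInf (A ∩ Ici x)

/-- The last point of `A` at or before `x`. -/
noncomputable def prv (A : Set ℝ) (x : ℝ) : ℝ := sSup (A ∩ Iic x)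

theorem nxt_mem {A : Set ℝ} (hA : IsClosed A) {x t : ℝ} (ht : t ∈ A) (hx : x ≤ t) :
    nxt A x ∈ A ∧ x ≤ nxt A x := by
  have h1 : IsClosed (A ∩ Ici x) := hA.inter isClosed_Ici
  have h2 : (A ∩ Ici x).Nonempty := ⟨t, ht, hx⟩
  have h3 : BddBelow (A ∩ Ici x) := ⟨x, fun y hy => hy.2⟩
  have := h1.csInf_mem h2 h3
  exact ⟨this.1, this.2⟩

theorem nxt_le {A : Set ℝ} {x t : ℝ} (ht : t ∈ A) (hx : x ≤ t) : nxt A x ≤ t :=
  csInf_le ⟨x, fun _ hy => hy.2⟩ ⟨ht, hx⟩

theorem nxt_self {A : Set ℝ} (hA : IsClosed A) {x : ℝ} (hx : x ∈ A) : nxt A x = x :=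
  le_antisymm (nxt_le hx le_rfl) (nxt_mem hA hx le_rfl).2

theorem nxt_mono {A : Set ℝ} (hA : IsClosed A) {x y t : ℝ} (ht : t ∈ A) (hy : y ≤ t)
    (hxy : x ≤ y) : nxt A x ≤ nxt A y :=
  nxt_le (nxt_mem hA ht hy).1 (hxy.trans (nxt_mem hA ht hy).2)

theorem prv_mem {A : Set ℝ} (hA : IsClosed A) {x t : ℝ} (ht : t ∈ A) (hx : t ≤ x) :
    prv A x ∈ A ∧ prv A x ≤ x := by
  have h1 : IsClosed (A ∩ Iic x) := hA.inter isClosed_Iic
  have h2 : (A ∩ Iic x).Nonempty := ⟨t, ht, hx⟩
  have h3 : BddAbove (A ∩ Iic x) := ⟨x, fun y hy => hy.2⟩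
  have := h1.csSup_mem h2 h3
  exact ⟨this.1, this.2⟩

theorem le_prv {A : Set ℝ} {x t : ℝ} (ht : t ∈ A) (hx : t ≤ x) : t ≤ prv A x :=
  le_csSup ⟨x, fun _ hy => hy.2⟩ ⟨ht, hx⟩

/-- `x` is a two-sided accumulation point of `A`. -/
def TwoSided (A : Set ℝ) (x : ℝ) : Prop :=
  (∀ ε > 0, ∃ a ∈ A, x - ε < a ∧ a < x) ∧ (∀ ε > 0, ∃ b ∈ A, x < b ∧ b < x + ε)

theorem countable_not_twoSided (A : Set ℝ) : {x ∈ A | ¬ TwoSided A x}.Countable := by
  have h1 := countable_setOfPred_isolated_right_within (α := ℝ) (s := A)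
  have h2 := countable_setOfPred_isolated_left_within (α := ℝ) (s := A)
  refine (h1.union h2).mono ?_
  rintro x ⟨hx, hn⟩
  by_contra hcon
  rw [mem_union, not_or] at hcon
  apply hn
  constructor
  · intro ε hε
    have h3 : (𝓝[A ∩ Iio x] x).NeBot := ⟨fun h => hcon.2 ⟨hx, h⟩⟩
    have h4 : Ioi (x - ε) ∈ 𝓝[A ∩ Iio x] x := mem_nhdsWithin_of_mem_nhds (Ioi_mem_nhds (by linarith))
    have h5 : A ∩ Iio x ∈ 𝓝[A ∩ Iio x] x := self_mem_nhdsWithin
    obtain ⟨a, ha1, ha2⟩ := h3.nonempty_of_mem (inter_mem h4 h5)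
    exact ⟨a, ha2.1, ha1, ha2.2⟩
  · intro ε hε
    have h3 : (𝓝[A ∩ Ioi x] x).NeBot := ⟨fun h => hcon.1 ⟨hx, h⟩⟩
    have h4 : Iio (x + ε) ∈ 𝓝[A ∩ Ioi x] x := mem_nhdsWithin_of_mem_nhds (Iio_mem_nhds (by linarith))
    have h5 : A ∩ Ioi x ∈ 𝓝[A ∩ Ioi x] x := self_mem_nhdsWithin
    obtain ⟨a, ha1, ha2⟩ := h3.nonempty_of_mem (inter_mem h4 h5)
    exact ⟨a, ha2.1, ha2.2, ha1⟩

theorem ae_twoSided (A : Set ℝ) : ∀ᵐ x ∂(volume : Measure ℝ), x ∈ A → TwoSided A x := by
  have h := (countable_not_twoSided A).measure_zero (volume : Measure ℝ)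
  rw [measure_eq_zero_iff_ae_notMem] at h
  filter_upwards [h] with x hx hxA
  by_contra hcon
  exact hx ⟨hxA, hcon⟩

/-- uniform grid -/
noncomputable def grid (s t : ℝ) (n i : ℕ) : ℝ := s + (t - s) * i / n

theorem grid_zero (s t : ℝ) (n : ℕ) : grid s t n 0 = s := by simp [grid]

theorem grid_last (s t : ℝ) {n : ℕ} (hn : 0 < n) : grid s t n n = t := by
  have : (n : ℝ) ≠ 0 := by positivity
  simp [grid, this]

theorem grid_mono {s t : ℝ} (hst : s ≤ t) (n : ℕ) : Monotone (grid s t n) := by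
  intro i j hij
  have h1 : (i : ℝ) ≤ j := by exact_mod_cast hij
  have h2 : 0 ≤ t - s := by linarith
  unfold grid
  gcongr

theorem grid_succ (s t : ℝ) {n : ℕ} (hn : 0 < n) (i : ℕ) :
    grid s t n (i + 1) = grid s t n i + (t - s) / n := by
  have : (n : ℝ) ≠ 0 := by positivity
  simp only [grid]
  push_cast
  field_simp
  ring

theorem grid_le_last {s t : ℝ} (hst : s ≤ t) {n i : ℕ} (hn : 0 < n) (hi : i ≤ n) :
    grid s t n i ≤ t := by
  have := grid_mono hst n hi
  rwa [grid_last s t hn] at this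

/-- adapted partition points -/
noncomputable def pt (A : Set ℝ) (s t : ℝ) (n i : ℕ) : ℝ := nxt A (grid s t n i)

section
variable {A : Set ℝ} (hA : IsClosed A) {s t : ℝ} (hs : s ∈ A) (ht : t ∈ A) (hst : s ≤ t)
include hA

include hs in
theorem pt_zero (n : ℕ) : pt A s t n 0 = s := by
  rw [pt, grid_zero, nxt_self hA hs]

include ht in
theorem pt_last {n : ℕ} (hn : 0 < n) : pt A s t n n = t := by
  rw [pt, grid_last s t hn, nxt_self hA ht]

include ht hst in
theorem pt_mem {n i : ℕ} (hn : 0 < n) (hi : i ≤ n) : pt A s t n i ∈ A :=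
  (nxt_mem hA ht (grid_le_last hst hn hi)).1

include ht hst in
theorem pt_ge {n i : ℕ} (hn : 0 < n) (hi : i ≤ n) : grid s t n i ≤ pt A s t n i :=
  (nxt_mem hA ht (grid_le_last hst hn hi)).2

include ht hst in
theorem pt_mono {n i j : ℕ} (hn : 0 < n) (hij : i ≤ j) (hj : j ≤ n) :
    pt A s t n i ≤ pt A s t n j :=
  nxt_mono hA ht (grid_le_last hst hn hj) (grid_mono hst n hij)

include ht hst in
theorem pt_le {n i : ℕ} (hn : 0 < n) (hi : i ≤ n) : pt A s t n i ≤ t :=
  nxt_le ht (grid_le_last hst hn hi)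

include hs ht hst in
theorem le_pt {n i : ℕ} (hn : 0 < n) (hi : i ≤ n) : s ≤ pt A s t n i := by
  have := pt_mono hA ht hst hn (Nat.zero_le i) hi
  rwa [pt_zero hA hs] at this

include hs ht in
/-- existence of the partition interval containing a point. -/
theorem exists_index {n : ℕ} (hn : 0 < n) {x : ℝ} (hx : x ∈ Ioc s t) :
    ∃ i < n, pt A s t n i < x ∧ x ≤ pt A s t n (i + 1) := by
  have h0 : pt A s t n 0 < x := by rw [pt_zero hA hs]; exact hx.1
  have hn' : ¬ (pt A s t n n < x) := by rw [pt_last hA ht hn]; exact not_lt.mpr hx.2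
  by_contra hcon
  push Not at hcon
  have : ∀ i ≤ n, pt A s t n i < x := by
    intro i
    induction i with
    | zero => intro _; exact h0
    | succ i ih =>
      intro hi
      exact hcon i (by omega) (ih (by omega))
  exact hn' (this n le_rfl)

include ht hst in
theorem index_unique {n : ℕ} (hn : 0 < n) {x : ℝ} {i j : ℕ} (hi : i < n) (hj : j < n)
    (hix : x ∈ Ioc (pt A s t n i) (pt A s t n (i + 1)))
    (hjx : x ∈ Ioc (pt A s t n j) (pt A s t n (j + 1))) : i = j := by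
  by_contra hne
  rcases lt_or_gt_of_ne hne with h | h
  · have := pt_mono hA ht hst hn (show i + 1 ≤ j by omega) (by omega)
    have h1 := hix.2
    have h2 := hjx.1
    linarith
  · have := pt_mono hA ht hst hn (show j + 1 ≤ i by omega) (by omega)
    have h1 := hjx.2
    have h2 := hix.1
    linarith

include ht hst in
/-- The end points of the partition interval of a two-sided accumulation point are close. -/
theorem index_close {x : ℝ} (hx : x ∈ Ioo s t) (h2 : TwoSided A x) (ε : ℝ) (hε : 0 < ε) :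
    ∃ N : ℕ, ∀ n ≥ N, 0 < n → ∀ i < n, pt A s t n i < x → x ≤ pt A s t n (i + 1) →
      x - ε < pt A s t n i ∧ pt A s t n (i + 1) < x + ε := by
  obtain ⟨a, haA, ha1, ha2⟩ := h2.1 ε hε
  obtain ⟨b, hbA, hb1, hb2⟩ := h2.2 ε hε
  have hδ : 0 < min (a - (x - ε)) (b - x) := lt_min (by linarith) (by linarith)
  obtain ⟨N, hN⟩ := exists_nat_gt ((t - s) / min (a - (x - ε)) (b - x))
  refine ⟨N, fun n hn hn0 i hi h3 h4 => ?_⟩
  have hmesh : (t - s) / n < min (a - (x - ε)) (b - x) := by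
    have hn0' : (0 : ℝ) < n := by exact_mod_cast hn0
    rw [div_lt_iff₀ hn0']
    rw [div_lt_iff₀ hδ] at hN
    have : (N : ℝ) ≤ n := by exact_mod_cast hn
    nlinarith
  have hm1 := hmesh.trans_le (min_le_left _ _)
  have hm2 := hmesh.trans_le (min_le_right _ _)
  have hg := grid_succ s t hn0 i
  have hpi := pt_ge hA ht hst hn0 hi.le
  constructor
  · have hga : a < grid s t n (i + 1) := by
      by_contra hcon
      push Not at hcon
      have : pt A s t n (i + 1) ≤ a := nxt_le haA hcon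
      linarith
    linarith
  · have hgb : grid s t n (i + 1) ≤ b := by linarith
    have : pt A s t n (i + 1) ≤ b := nxt_le hbA hgb
    linarith

end

end H772R2.NS
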