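import Mathlib
import Pool.Agent.H772R2.NS.Grid

/-!
Abstract Hilbert space core of the energy defect analysis of weak solutions of the
Navier-Stokes equations.
-/

set_option linter.unusedSectionVars false

open MeasureTheory Set Filter Topology
open scoped InnerProductSpace ENNReal

namespace H772R2.NS

variable {H K : Type*} [NormedAddCommGroup H] [InnerProductSpace ℝ H] [CompleteSpace H]
  [NormedAddCommGroup K] [InnerProductSpace ℝ K] [CompleteSpace K]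

/-- Ultrafilter form of weak compactness of balls in a Hilbert space. -/
theorem exists_weak_limit (F : Ultrafilter ℝ) (A : Set ℝ) (z : ℝ → K) (h : ℝ)
    (hA : A ∈ F) (hz : ∀ t ∈ A, ‖z t‖ ≤ h) :
    ∃ z0 : K, ‖z0‖ ≤ h ∧ ∀ y : K, Tendsto (fun t => ⟪z t, y⟫_ℝ) F (𝓝 ⟪z0, y⟫_ℝ) := by
  have hcomp := WeakDual.isCompact_closedBall (𝕜 := ℝ) (E := K) 0 h
  let g : ℝ → WeakDual ℝ K := fun t => StrongDual.toWeakDual (InnerProductSpace.toDual ℝ K (z t))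
  have hmem : (WeakDual.toStrongDual ⁻¹' Metric.closedBall (0 : StrongDual ℝ K) h) ∈ F.map g := by
    rw [Ultrafilter.mem_map]
    filter_upwards [hA] with t ht
    simp only [mem_preimage, Metric.mem_closedBall, dist_zero_right, g]
    have h1 := hz t ht
    have : ‖InnerProductSpace.toDual ℝ K (z t)‖ = ‖z t‖ := by simp
    simpa using h1
  obtain ⟨x, hx, hFx⟩ := hcomp.ultrafilter_le_nhds (F.map g) (by simpa using hmem)
  refine ⟨(InnerProductSpace.toDual ℝ K).symm (WeakDual.toStrongDual x), ?_, ?_⟩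
  · have := hx
    simp only [mem_preimage, Metric.mem_closedBall, dist_zero_right] at this
    simpa using this
  · intro y
    have h1 : Tendsto g F (𝓝 x) := by
      have : ((F.map g : Ultrafilter (WeakDual ℝ K)) : Filter (WeakDual ℝ K)) ≤ 𝓝 x := hFx
      simpa [Tendsto, Ultrafilter.coe_map] using this
    have h2 : Tendsto (fun t => g t y) F (𝓝 (x y)) := by
      have := (WeakBilin.eval_continuous (topDualPairing ℝ K) y).tendsto x
      exact this.comp h1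
    have h3 : x y = ⟪(InnerProductSpace.toDual ℝ K).symm (WeakDual.toStrongDual x), y⟫_ℝ := by
      rw [InnerProductSpace.toDual_symm_apply]
      rfl
    rw [← h3]
    refine h2.congr (fun t => ?_)
    simp [g, InnerProductSpace.toDual_apply_apply]

/-- A closed subspace of `H × K` is stable under weak limits along ultrafilters. -/
theorem mem_of_weak_limit (W : Submodule ℝ (H × K)) (hW : IsClosed (W : Set (H × K)))
    (F : Ultrafilter ℝ) (A : Set ℝ) (u : ℝ → H) (z : ℝ → K) (u0 : H) (z0 : K)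
    (hA : A ∈ F) (hz : ∀ t ∈ A, (u t, z t) ∈ W)
    (hu : ∀ y : H, Tendsto (fun t => ⟪u t, y⟫_ℝ) F (𝓝 ⟪u0, y⟫_ℝ))
    (hzz : ∀ y : K, Tendsto (fun t => ⟪z t, y⟫_ℝ) F (𝓝 ⟪z0, y⟫_ℝ)) :
    (u0, z0) ∈ W := by
  by_contra hcon
  obtain ⟨f, c, hfc, hfW⟩ := geometric_hahn_banach_point_closed (W.convex) hW
    (show (u0, z0) ∉ (W : Set (H × K)) from hcon)
  -- f vanishes on W
  have hf0 : ∀ p ∈ W, f p = 0 := by
    intro p hp
    by_contra hne
    have h1 := hfW (((c - 1) / f p) • p) (W.smul_mem _ hp)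
    rw [map_smul, smul_eq_mul, div_mul_cancel₀ _ hne] at h1
    linarith
  have hc0 : c < 0 := by
    have := hfW 0 W.zero_mem
    simpa using this
  -- decompose f
  let f1 : StrongDual ℝ H := f.comp (ContinuousLinearMap.inl ℝ H K)
  let f2 : StrongDual ℝ K := f.comp (ContinuousLinearMap.inr ℝ H K)
  let p1 := (InnerProductSpace.toDual ℝ H).symm f1
  let p2 := (InnerProductSpace.toDual ℝ K).symm f2
  have hdec : ∀ (a : H) (b : K), f (a, b) = ⟪a, p1⟫_ℝ + ⟪b, p2⟫_ℝ := by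
    intro a b
    have h1 : ⟪a, p1⟫_ℝ = f (a, 0) := by
      rw [real_inner_comm, InnerProductSpace.toDual_symm_apply]
      simp [f1]
    have h2 : ⟪b, p2⟫_ℝ = f (0, b) := by
      rw [real_inner_comm, InnerProductSpace.toDual_symm_apply]
      simp [f2]
    rw [h1, h2, ← map_add]
    simp
  have hlim : Tendsto (fun t => ⟪u t, p1⟫_ℝ + ⟪z t, p2⟫_ℝ) F (𝓝 (f (u0, z0))) := by
    rw [hdec]
    exact (hu p1).add (hzz p2)
  have hzero : Tendsto (fun t => ⟪u t, p1⟫_ℝ + ⟪z t, p2⟫_ℝ) F (𝓝 0) := by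
    refine (tendsto_congr' ?_).mpr (tendsto_const_nhds (x := (0 : ℝ)))
    filter_upwards [hA] with t ht
    rw [← hdec]
    exact hf0 _ (hz t ht)
  have : f (u0, z0) = 0 := tendsto_nhds_unique hlim hzero
  rw [this] at hfc
  linarith

/-- Abstract weak solutions on `[0,T]`: `W ⊆ H × K` is the graph of the gradient (closed), `u` is
the velocity, `G` its gradient, `m` the tensor `u ⊗ u`, `f` the force. -/
structure Sol (W : Submodule ℝ (H × K)) (T M ν : ℝ) (u : ℝ → H) (G m : ℝ → K) (f : ℝ → H) :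
    Prop where
  T0 : 0 ≤ T
  ν0 : 0 ≤ ν
  closedW : IsClosed (W : Set (H × K))
  uniq : ∀ z : K, ((0 : H), z) ∈ W → z = 0
  wcont : ∀ v : H, ContinuousOn (fun t => ⟪u t, v⟫_ℝ) (Icc 0 T)
  bdd : ∀ t ∈ Icc 0 T, ‖u t‖ ≤ M
  umeas : AEStronglyMeasurable u (volume.restrict (Ioc 0 T))
  memW : ∀ᵐ t ∂(volume.restrict (Ioc 0 T)), (u t, G t) ∈ W
  Gmeas : AEStronglyMeasurable G (volume.restrict (Ioc 0 T))
  G2 : Integrable (fun t => ‖G t‖ ^ 2) (volume.restrict (Ioc 0 T))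
  fint : Integrable f (volume.restrict (Ioc 0 T))
  mint : Integrable m (volume.restrict (Ioc 0 T))
  ortho : ∀ᵐ t ∂(volume.restrict (Ioc 0 T)), ⟪m t, G t⟫_ℝ = 0
  weak : ∀ p ∈ W, ∀ s t, 0 ≤ s → s ≤ t → t ≤ T →
    ⟪u t, p.1⟫_ℝ - ⟪u s, p.1⟫_ℝ
      = ∫ τ in s..t, (⟪m τ, p.2⟫_ℝ - ν * ⟪G τ, p.2⟫_ℝ + ⟪f τ, p.1⟫_ℝ)

/-- the right hand side of the weak formulation. -/
noncomputable def rhs (ν : ℝ) (G m : ℝ → K) (f : ℝ → H) (p : H × K) (τ : ℝ) : ℝ :=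
  ⟪m τ, p.2⟫_ℝ - ν * ⟪G τ, p.2⟫_ℝ + ⟪f τ, p.1⟫_ℝ

/-- power input minus dissipation. -/
noncomputable def pow (ν : ℝ) (u : ℝ → H) (G : ℝ → K) (f : ℝ → H) (τ : ℝ) : ℝ :=
  ⟪f τ, u τ⟫_ℝ - ν * ‖G τ‖ ^ 2

/-- the energy defect. -/
noncomputable def defect (ν : ℝ) (u : ℝ → H) (G : ℝ → K) (f : ℝ → H) (t : ℝ) : ℝ :=
  ‖u 0‖ ^ 2 / 2 + (∫ τ in (0 : ℝ)..t, pow ν u G f τ) - ‖u t‖ ^ 2 / 2

/-- the times at which the enstrophy is at most `h²`. -/
def good (W : Submodule ℝ (H × K)) (T : ℝ) (u : ℝ → H) (h : ℝ) : Set ℝ :=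
  {t ∈ Icc 0 T | ∃ z : K, ‖z‖ ≤ h ∧ (u t, z) ∈ W}

/-- the error density. -/
noncomputable def wt (ν M h : ℝ) (G m : ℝ → K) (f : ℝ → H) (τ : ℝ) : ℝ :=
  h * ‖m τ‖ + ν * h * ‖G τ‖ + 2 * M * ‖f τ‖ + ν * ‖G τ‖ ^ 2

namespace Sol

variable {W : Submodule ℝ (H × K)} {T M ν : ℝ} {u : ℝ → H} {G m : ℝ → K} {f : ℝ → H}

theorem utend (S : Sol W T M ν u G m f) {x : ℝ} {F : Filter ℝ} (hF : F ≤ 𝓝 x)
    (hx : x ∈ Icc 0 T) (hI : Icc 0 T ∈ F) (y : H) :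
    Tendsto (fun t => ⟪u t, y⟫_ℝ) F (𝓝 ⟪u x, y⟫_ℝ) := by
  have h1 := (S.wcont y) x hx
  have h2 : F ≤ 𝓝[Icc 0 T] x := le_inf hF (by simpa using hI)
  exact h1.mono_left h2

theorem good_closed (S : Sol W T M ν u G m f) (h : ℝ) : IsClosed (good W T u h) := by
  rw [isClosed_iff_ultrafilter]
  intro x F hF hg
  have hIcc : Icc 0 T ∈ F := by filter_upwards [hg] with t ht using ht.1
  have hx : x ∈ Icc 0 T := by
    have := isClosed_iff_ultrafilter.mp (isClosed_Icc (a := (0 : ℝ)) (b := T)) x F hF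
    exact this hIcc
  classical
  choose! z hz using fun t (ht : t ∈ good W T u h) => ht.2
  obtain ⟨z0, h0, hz0⟩ := exists_weak_limit F (good W T u h) z h hg (fun t ht => (hz t ht).1)
  refine ⟨hx, z0, h0, ?_⟩
  exact mem_of_weak_limit W S.closedW F (good W T u h) u z (u x) z0 hg
    (fun t ht => (hz t ht).2) (fun y => S.utend hF hx hIcc y) hz0

theorem grad_unique (S : Sol W T M ν u G m f) {v : H} {z z' : K} (h : (v, z) ∈ W)
    (h' : (v, z') ∈ W) : z = z' := by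
  have h1 : ((0 : H), z - z') ∈ W := by
    have := W.sub_mem h h'
    simpa using this
  exact sub_eq_zero.mp (S.uniq _ h1)

/-- weak continuity of the gradient on sets of bounded enstrophy. -/
theorem grad_wcont (S : Sol W T M ν u G m f) {A : Set ℝ} {z : ℝ → K} {h : ℝ}
    (hAI : A ⊆ Icc 0 T) (hz : ∀ t ∈ A, ‖z t‖ ≤ h ∧ (u t, z t) ∈ W) {x : ℝ} (hx : x ∈ A) (y : K) :
    Tendsto (fun t => ⟪z t, y⟫_ℝ) (𝓝[A] x) (𝓝 ⟪z x, y⟫_ℝ) := by
  rw [tendsto_iff_ultrafilter]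
  intro F hF
  have hAF : A ∈ F := by
    have : A ∈ 𝓝[A] x := self_mem_nhdsWithin
    exact hF this
  have hFx : (F : Filter ℝ) ≤ 𝓝 x := hF.trans nhdsWithin_le_nhds
  obtain ⟨z0, h0, hz0⟩ := exists_weak_limit F A z h hAF (fun t ht => (hz t ht).1)
  have hmem : (u x, z0) ∈ W := mem_of_weak_limit W S.closedW F A u z (u x) z0 hAF
    (fun t ht => (hz t ht).2)
    (fun y => S.utend hFx (hAI hx) (mem_of_superset hAF hAI) y) hz0
  have := S.grad_unique hmem (hz x hx).2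
  rw [← this]
  exact hz0 y

theorem Gint (S : Sol W T M ν u G m f) : Integrable G (volume.restrict (Ioc 0 T)) := by
  have h2 : MemLp G 2 (volume.restrict (Ioc 0 T)) := by
    rw [memLp_two_iff_integrable_sq_norm S.Gmeas]
    exact S.G2
  exact h2.integrable (by norm_num)

theorem rhs_int (S : Sol W T M ν u G m f) (p : H × K) :
    Integrable (rhs ν G m f p) (volume.restrict (Ioc 0 T)) := by
  unfold rhs
  refine ((S.mint.inner_const p.2).sub ((S.Gint.inner_const p.2).const_mul ν)).add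
    (S.fint.inner_const p.1)

theorem fu_int (S : Sol W T M ν u G m f) :
    Integrable (fun τ => ⟪f τ, u τ⟫_ℝ) (volume.restrict (Ioc 0 T)) := by
  refine Integrable.mono' (g := fun τ => M * ‖f τ‖) (S.fint.norm.const_mul M)
    (S.fint.aestronglyMeasurable.inner S.umeas) ?_
  filter_upwards [ae_restrict_mem measurableSet_Ioc] with τ hτ
  have h1 := S.bdd τ ⟨hτ.1.le, hτ.2⟩
  calc ‖⟪f τ, u τ⟫_ℝ‖ ≤ ‖f τ‖ * ‖u τ‖ := norm_inner_le_norm _ _
    _ ≤ ‖f τ‖ * M := by gcongr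
    _ = M * ‖f τ‖ := by ring

theorem pow_int (S : Sol W T M ν u G m f) :
    Integrable (pow ν u G f) (volume.restrict (Ioc 0 T)) := by
  unfold pow
  exact S.fu_int.sub (S.G2.const_mul ν)

theorem wt_int (S : Sol W T M ν u G m f) (h : ℝ) :
    Integrable (wt ν M h G m f) (volume.restrict (Ioc 0 T)) := by
  unfold wt
  exact (((S.mint.norm.const_mul h).add (S.Gint.norm.const_mul (ν * h))).add
    (S.fint.norm.const_mul (2 * M))).add (S.G2.const_mul ν)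

theorem M0 (S : Sol W T M ν u G m f) : 0 ≤ M :=
  (norm_nonneg _).trans (S.bdd 0 ⟨le_rfl, S.T0⟩)

theorem rhs_bound (S : Sol W T M ν u G m f) {p : H × K} {h : ℝ} (h1 : ‖p.1‖ ≤ 2 * M)
    (h2 : ‖p.2‖ ≤ 2 * h) (τ : ℝ) :
    |rhs ν G m f p τ| ≤ 2 * h * ‖m τ‖ + 2 * ν * h * ‖G τ‖ + 2 * M * ‖f τ‖ := by
  unfold rhs
  have a1 : |⟪m τ, p.2⟫_ℝ| ≤ ‖m τ‖ * (2 * h) :=
    (abs_real_inner_le_norm _ _).trans (by gcongr)
  have a2 : |⟪G τ, p.2⟫_ℝ| ≤ ‖G τ‖ * (2 * h) :=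
    (abs_real_inner_le_norm _ _).trans (by gcongr)
  have a3 : |⟪f τ, p.1⟫_ℝ| ≤ ‖f τ‖ * (2 * M) :=
    (abs_real_inner_le_norm _ _).trans (by gcongr)
  have a4 : |ν * ⟪G τ, p.2⟫_ℝ| ≤ ν * (‖G τ‖ * (2 * h)) := by
    rw [abs_mul, abs_of_nonneg S.ν0]
    exact mul_le_mul_of_nonneg_left a2 S.ν0
  calc |⟪m τ, p.2⟫_ℝ - ν * ⟪G τ, p.2⟫_ℝ + ⟪f τ, p.1⟫_ℝ|
      ≤ |⟪m τ, p.2⟫_ℝ - ν * ⟪G τ, p.2⟫_ℝ| + |⟪f τ, p.1⟫_ℝ| := abs_add_le _ _
    _ ≤ |⟪m τ, p.2⟫_ℝ| + |ν * ⟪G τ, p.2⟫_ℝ| + |⟪f τ, p.1⟫_ℝ| := by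
        gcongr; exact abs_sub _ _
    _ ≤ _ := by linarith

theorem pow_bound (S : Sol W T M ν u G m f) {τ : ℝ} (hτ : τ ∈ Icc 0 T) :
    |pow ν u G f τ| ≤ M * ‖f τ‖ + ν * ‖G τ‖ ^ 2 := by
  unfold pow
  have h1 : |⟪f τ, u τ⟫_ℝ| ≤ ‖f τ‖ * M :=
    (abs_real_inner_le_norm _ _).trans (by gcongr; exact S.bdd τ hτ)
  have h2 : |ν * ‖G τ‖ ^ 2| = ν * ‖G τ‖ ^ 2 := abs_of_nonneg (mul_nonneg S.ν0 (by positivity))
  calc |⟪f τ, u τ⟫_ℝ - ν * ‖G τ‖ ^ 2| ≤ |⟪f τ, u τ⟫_ℝ| + |ν * ‖G τ‖ ^ 2| := abs_sub _ _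
    _ ≤ _ := by rw [h2]; linarith

end Sol

end H772R2.NS
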