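import Mathlib
import Pool.Agent.H772R2.NS.Core

/-!
The key inequality: on a closed set `A` of times with bounded enstrophy the energy defect only
changes across the gaps of `A`.
-/

set_option linter.unusedSectionVars false

open MeasureTheory Set Filter Topology
open scoped InnerProductSpace ENNReal

namespace H772R2.NS

variable {H K : Type*} [NormedAddCommGroup H] [InnerProductSpace ℝ H] [CompleteSpace H]
  [NormedAddCommGroup K] [InnerProductSpace ℝ K] [CompleteSpace K]

namespace Sol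

variable {W : Submodule ℝ (H × K)} {T M ν : ℝ} {u : ℝ → H} {G m : ℝ → K} {f : ℝ → H}

/-- energy increment between two good times. -/
theorem sq_sub (S : Sol W T M ν u G m f) {a b : ℝ} {z w : K} (h0 : 0 ≤ a) (hab : a ≤ b)
    (hb : b ≤ T) (ha' : (u a, z) ∈ W) (hb' : (u b, w) ∈ W) :
    ‖u b‖ ^ 2 - ‖u a‖ ^ 2 = ∫ τ in a..b, rhs ν G m f (u a + u b, z + w) τ := by
  have h1 := S.weak _ (W.add_mem ha' hb') a b h0 hab hb
  have h2 : ⟪u b, u a + u b⟫_ℝ - ⟪u a, u a + u b⟫_ℝ = ‖u b‖ ^ 2 - ‖u a‖ ^ 2 := by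
    rw [inner_add_right, inner_add_right, real_inner_self_eq_norm_sq, real_inner_self_eq_norm_sq,
      real_inner_comm (u a) (u b)]
    ring
  rw [← h2]
  simpa [rhs] using h1

theorem defect_sub (S : Sol W T M ν u G m f) {s t : ℝ} (h0 : 0 ≤ s) (hst : s ≤ t) (hT : t ≤ T) :
    defect ν u G f t - defect ν u G f s
      = (∫ τ in s..t, pow ν u G f τ) - (‖u t‖ ^ 2 - ‖u s‖ ^ 2) / 2 := by
  have i1 : IntervalIntegrable (pow ν u G f) volume 0 s := by
    rw [intervalIntegrable_iff_integrableOn_Ioc_of_le h0]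
    exact IntegrableOn.mono_set S.pow_int (Ioc_subset_Ioc_right (hst.trans hT))
  have i2 : IntervalIntegrable (pow ν u G f) volume s t := by
    rw [intervalIntegrable_iff_integrableOn_Ioc_of_le hst]
    exact IntegrableOn.mono_set S.pow_int (Ioc_subset_Ioc h0 hT)
  have h1 := intervalIntegral.integral_add_adjacent_intervals i1 i2
  unfold defect
  rw [← h1]
  ring

theorem key (S : Sol W T M ν u G m f) {h : ℝ} {A : Set ℝ} (hA : IsClosed A)
    (hAg : A ⊆ good W T u h) {s t : ℝ} (hs : s ∈ A) (ht : t ∈ A) (hst : s ≤ t) :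
    |defect ν u G f t - defect ν u G f s| ≤ ∫ τ in Ioc s t \ A, wt ν M h G m f τ := by
  classical
  have hAI : A ⊆ Icc 0 T := fun a ha => (hAg ha).1
  choose! z hz using fun a (ha : a ∈ A) => (hAg ha).2
  have hs0 : 0 ≤ s := (hAI hs).1
  have htT : t ≤ T := (hAI ht).2
  let P : ℕ → ℕ → ℝ := fun n i => pt A s t (n + 1) i
  let U : ℕ → ℕ → H × K := fun n i => (u (P n i) + u (P n (i + 1)), z (P n i) + z (P n (i + 1)))
  let Φ : ℕ → ℝ → ℝ := fun n τ =>
    ∑ i ∈ Finset.range (n + 1), (Ioc (P n i) (P n (i + 1))).indicator (rhs ν G m f (U n i)) τ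
  have hPA : ∀ n i, i ≤ n + 1 → P n i ∈ A := fun n i hi =>
    pt_mem hA ht hst (Nat.succ_pos n) hi
  have hPmono : ∀ n i, i < n + 1 → P n i ≤ P n (i + 1) := fun n i hi =>
    pt_mono hA ht hst (Nat.succ_pos n) (Nat.le_succ i) hi
  have hPs : ∀ n i, i ≤ n + 1 → s ≤ P n i := fun n i hi => le_pt hA hs ht hst (Nat.succ_pos n) hi
  have hPt : ∀ n i, i ≤ n + 1 → P n i ≤ t := fun n i hi => pt_le hA ht hst (Nat.succ_pos n) hi
  -- value of Φ on the partition intervals
  have hΦval : ∀ n i, i < n + 1 → ∀ τ ∈ Ioc (P n i) (P n (i + 1)),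
      Φ n τ = rhs ν G m f (U n i) τ := by
    intro n i hi τ hτ
    show ∑ j ∈ Finset.range (n + 1), _ = _
    rw [Finset.sum_eq_single i]
    · rw [indicator_of_mem hτ]
    · intro j hj hji
      rw [indicator_of_notMem]
      intro hτj
      exact hji (index_unique hA ht hst (Nat.succ_pos n) (Finset.mem_range.mp hj) hi hτj hτ)
    · intro hni
      exact absurd (Finset.mem_range.mpr hi) hni
  have hsub : Ioc s t ⊆ Ioc 0 T := Ioc_subset_Ioc hs0 htT
  -- integrability
  have hrint : ∀ p, IntegrableOn (rhs ν G m f p) (Ioc s t) volume := fun p =>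
    IntegrableOn.mono_set (S.rhs_int p) hsub
  have hΦint : ∀ n, IntegrableOn (Φ n) (Ioc s t) volume := by
    intro n
    show Integrable (fun τ => ∑ i ∈ Finset.range (n + 1), _) _
    refine integrable_finsetSum _ (fun i _ => ?_)
    exact (hrint _).indicator measurableSet_Ioc
  have hpint : IntegrableOn (pow ν u G f) (Ioc s t) volume := IntegrableOn.mono_set S.pow_int hsub
  have hwint : IntegrableOn (wt ν M h G m f) (Ioc s t) volume :=
    IntegrableOn.mono_set (S.wt_int h) hsub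
  -- claim 1
  have claim1 : ∀ n, ‖u t‖ ^ 2 - ‖u s‖ ^ 2 = ∫ τ in s..t, Φ n τ := by
    intro n
    have e1 : ∑ i ∈ Finset.range (n + 1), (‖u (P n (i + 1))‖ ^ 2 - ‖u (P n i)‖ ^ 2)
        = ‖u t‖ ^ 2 - ‖u s‖ ^ 2 := by
      rw [Finset.sum_range_sub (fun i => ‖u (P n i)‖ ^ 2)]
      have h1 : P n (n + 1) = t := pt_last hA ht (Nat.succ_pos n)
      have h2 : P n 0 = s := pt_zero hA hs _
      rw [h1, h2]
    have e2 : ∑ i ∈ Finset.range (n + 1), (‖u (P n (i + 1))‖ ^ 2 - ‖u (P n i)‖ ^ 2)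
        = ∑ i ∈ Finset.range (n + 1), ∫ τ in P n i..P n (i + 1), Φ n τ := by
      refine Finset.sum_congr rfl (fun i hi => ?_)
      have hi' := Finset.mem_range.mp hi
      rw [S.sq_sub (hs0.trans (hPs n i hi'.le)) (hPmono n i hi') ((hPt n (i + 1) hi').trans htT)
        (hz _ (hPA n i hi'.le)).2 (hz _ (hPA n (i + 1) hi')).2]
      refine intervalIntegral.integral_congr_ae ?_
      rw [uIoc_of_le (hPmono n i hi')]
      exact Eventually.of_forall (fun τ hτ => (hΦval n i hi' τ hτ).symm)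
    have e3 : ∑ i ∈ Finset.range (n + 1), ∫ τ in P n i..P n (i + 1), Φ n τ
        = ∫ τ in P n 0..P n (n + 1), Φ n τ := by
      apply intervalIntegral.sum_integral_adjacent_intervals
      intro i hi
      rw [intervalIntegrable_iff_integrableOn_Ioc_of_le (hPmono n i hi)]
      exact (hΦint n).mono_set (Ioc_subset_Ioc (hPs n i hi.le) (hPt n (i + 1) hi))
    have h1 : P n (n + 1) = t := pt_last hA ht (Nat.succ_pos n)
    have h2 : P n 0 = s := pt_zero hA hs _
    rw [h1, h2] at e3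
    rw [← e1, e2, e3]
  -- claim 2
  have hUb : ∀ n i, i < n + 1 → ‖(U n i).1‖ ≤ 2 * M ∧ ‖(U n i).2‖ ≤ 2 * h := by
    intro n i hi
    have a1 := hPA n i hi.le
    have a2 := hPA n (i + 1) hi
    constructor
    · calc ‖(U n i).1‖ ≤ ‖u (P n i)‖ + ‖u (P n (i + 1))‖ := norm_add_le _ _
        _ ≤ M + M := add_le_add (S.bdd _ (hAI a1)) (S.bdd _ (hAI a2))
        _ = 2 * M := by ring
    · calc ‖(U n i).2‖ ≤ ‖z (P n i)‖ + ‖z (P n (i + 1))‖ := norm_add_le _ _
        _ ≤ h + h := add_le_add (hz _ a1).1 (hz _ a2).1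
        _ = 2 * h := by ring
  have claim2 : ∀ n, ∀ τ ∈ Ioc s t, |Φ n τ| ≤ 2 * h * ‖m τ‖ + 2 * ν * h * ‖G τ‖ + 2 * M * ‖f τ‖ := by
    intro n τ hτ
    obtain ⟨i, hi, h1, h2⟩ := exists_index hA hs ht (Nat.succ_pos n) hτ
    rw [hΦval n i hi τ ⟨h1, h2⟩]
    exact S.rhs_bound (hUb n i hi).1 (hUb n i hi).2 τ
  -- claim 3
  have claim3 : ∀ᵐ τ ∂(volume.restrict (Ioc s t)), τ ∈ A →
      Tendsto (fun n => Φ n τ) atTop (𝓝 (2 * pow ν u G f τ)) := by
    have b1 : ∀ᵐ τ ∂(volume.restrict (Ioc s t)), τ ∈ A → TwoSided A τ :=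
      ae_restrict_of_ae (ae_twoSided A)
    have b2 : ∀ᵐ τ ∂(volume.restrict (Ioc s t)), (u τ, G τ) ∈ W :=
      ae_mono (Measure.restrict_mono hsub le_rfl) S.memW
    have b3 : ∀ᵐ τ ∂(volume.restrict (Ioc s t)), ⟪m τ, G τ⟫_ℝ = 0 :=
      ae_mono (Measure.restrict_mono hsub le_rfl) S.ortho
    have b4 : ∀ᵐ τ ∂(volume.restrict (Ioc s t)), τ ≠ t := by
      apply ae_restrict_of_ae
      have : (volume : Measure ℝ) {t} = 0 := by simp
      rw [measure_eq_zero_iff_ae_notMem] at this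
      filter_upwards [this] with x hx using hx
    filter_upwards [b1, b2, b3, b4, ae_restrict_mem measurableSet_Ioc] with τ h1 h2 h3 h4 h5 hτA
    have h2s := h1 hτA
    have hτo : τ ∈ Ioo s t := ⟨h5.1, lt_of_le_of_ne h5.2 h4⟩
    have hzG : z τ = G τ := S.grad_unique (hz τ hτA).2 h2
    choose idx hidx using fun n => exists_index hA hs ht (Nat.succ_pos n) h5
    have hΦeq : ∀ n, Φ n τ = rhs ν G m f (U n (idx n)) τ := fun n =>
      hΦval n (idx n) (hidx n).1 τ ⟨(hidx n).2.1, (hidx n).2.2⟩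
    have hα : Tendsto (fun n => P n (idx n)) atTop (𝓝[A] τ) := by
      rw [tendsto_nhdsWithin_iff]
      constructor
      · rw [Metric.tendsto_atTop]
        intro ε hε
        obtain ⟨N, hN⟩ := index_close hA ht hst hτo h2s ε hε
        refine ⟨N, fun n hn => ?_⟩
        have := hN (n + 1) (by omega) (Nat.succ_pos n) (idx n) (hidx n).1 (hidx n).2.1 (hidx n).2.2
        have h6 := (hidx n).2.1
        rw [Real.dist_eq, abs_lt]
        constructor
        · have := this.1
          show -ε < pt A s t (n + 1) (idx n) - τ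
          linarith
        · show pt A s t (n + 1) (idx n) - τ < ε
          linarith
      · exact Eventually.of_forall (fun n => hPA n _ (hidx n).1.le)
    have hβ : Tendsto (fun n => P n (idx n + 1)) atTop (𝓝[A] τ) := by
      rw [tendsto_nhdsWithin_iff]
      constructor
      · rw [Metric.tendsto_atTop]
        intro ε hε
        obtain ⟨N, hN⟩ := index_close hA ht hst hτo h2s ε hε
        refine ⟨N, fun n hn => ?_⟩
        have := hN (n + 1) (by omega) (Nat.succ_pos n) (idx n) (hidx n).1 (hidx n).2.1 (hidx n).2.2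
        have h6 := (hidx n).2.2
        rw [Real.dist_eq, abs_lt]
        constructor
        · show -ε < pt A s t (n + 1) (idx n + 1) - τ
          linarith
        · have := this.2
          show pt A s t (n + 1) (idx n + 1) - τ < ε
          linarith
      · exact Eventually.of_forall (fun n => hPA n _ (hidx n).1)
    have hzw : ∀ y, Tendsto (fun a => ⟪z a, y⟫_ℝ) (𝓝[A] τ) (𝓝 ⟪z τ, y⟫_ℝ) := fun y =>
      S.grad_wcont hAI hz hτA y
    have huw : ∀ y, Tendsto (fun a => ⟪u a, y⟫_ℝ) (𝓝[A] τ) (𝓝 ⟪u τ, y⟫_ℝ) := fun y =>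
      S.utend nhdsWithin_le_nhds (hAI hτA) (mem_of_superset self_mem_nhdsWithin hAI) y
    have lim2 : ∀ y, Tendsto (fun n => ⟪(U n (idx n)).2, y⟫_ℝ) atTop (𝓝 (2 * ⟪z τ, y⟫_ℝ)) := by
      intro y
      have := ((hzw y).comp hα).add ((hzw y).comp hβ)
      rw [two_mul]
      refine this.congr (fun n => ?_)
      simp only [U, inner_add_left, Function.comp]
    have lim1 : ∀ y, Tendsto (fun n => ⟪(U n (idx n)).1, y⟫_ℝ) atTop (𝓝 (2 * ⟪u τ, y⟫_ℝ)) := by
      intro y
      have := ((huw y).comp hα).add ((huw y).comp hβ)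
      rw [two_mul]
      refine this.congr (fun n => ?_)
      simp only [U, inner_add_left, Function.comp]
    have lim : Tendsto (fun n => rhs ν G m f (U n (idx n)) τ) atTop
        (𝓝 (2 * ⟪z τ, m τ⟫_ℝ - ν * (2 * ⟪z τ, G τ⟫_ℝ) + 2 * ⟪u τ, f τ⟫_ℝ)) := by
      have := ((lim2 (m τ)).sub ((lim2 (G τ)).const_mul ν)).add (lim1 (f τ))
      refine this.congr (fun n => ?_)
      unfold rhs
      rw [real_inner_comm (m τ), real_inner_comm (G τ), real_inner_comm (f τ)]
    have hval : 2 * ⟪z τ, m τ⟫_ℝ - ν * (2 * ⟪z τ, G τ⟫_ℝ) + 2 * ⟪u τ, f τ⟫_ℝ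
        = 2 * pow ν u G f τ := by
      unfold pow
      rw [hzG, real_inner_comm (m τ) (G τ), h3, real_inner_self_eq_norm_sq,
        real_inner_comm (f τ) (u τ)]
      ring
    rw [← hval]
    exact lim.congr (fun n => (hΦeq n).symm)
  -- conclusion
  have hdef : ∀ n, 2 * (defect ν u G f t - defect ν u G f s)
      = - ∫ τ in Ioc s t, (Φ n τ - 2 * pow ν u G f τ) := by
    intro n
    rw [S.defect_sub hs0 hst htT, claim1 n, intervalIntegral.integral_of_le hst,
      intervalIntegral.integral_of_le hst, integral_sub (hΦint n) (hpint.const_mul 2),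
      integral_const_mul]
    ring
  have hsplit : ∀ n, |2 * (defect ν u G f t - defect ν u G f s)|
      ≤ |∫ τ in Ioc s t ∩ A, (Φ n τ - 2 * pow ν u G f τ)|
        + 2 * ∫ τ in Ioc s t \ A, wt ν M h G m f τ := by
    intro n
    have hE : IntegrableOn (fun τ => Φ n τ - 2 * pow ν u G f τ) (Ioc s t) volume :=
      (hΦint n).sub (hpint.const_mul 2)
    rw [hdef n, abs_neg, ← integral_inter_add_sdiff hA.measurableSet hE]
    refine (abs_add_le _ _).trans ?_
    gcongr
    rw [← integral_const_mul]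
    refine (abs_integral_le_integral_abs).trans ?_
    refine setIntegral_mono_on ?_ ?_ (measurableSet_Ioc.diff hA.measurableSet) ?_
    · exact (hE.mono_set sdiff_subset).abs
    · exact (hwint.mono_set sdiff_subset).const_mul 2
    · intro τ hτ
      have c1 := claim2 n τ hτ.1
      have c2 := S.pow_bound (τ := τ) ⟨(hs0.trans hτ.1.1.le), hτ.1.2.trans htT⟩
      calc |Φ n τ - 2 * pow ν u G f τ| ≤ |Φ n τ| + |2 * pow ν u G f τ| := abs_sub _ _
        _ = |Φ n τ| + 2 * |pow ν u G f τ| := by rw [abs_mul]; norm_num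
        _ ≤ (2 * h * ‖m τ‖ + 2 * ν * h * ‖G τ‖ + 2 * M * ‖f τ‖)
            + 2 * (M * ‖f τ‖ + ν * ‖G τ‖ ^ 2) := by gcongr
        _ = 2 * wt ν M h G m f τ := by unfold wt; ring
  have hlim : Tendsto (fun n => ∫ τ in Ioc s t ∩ A, (Φ n τ - 2 * pow ν u G f τ)) atTop
      (𝓝 (∫ τ in Ioc s t ∩ A, (0 : ℝ))) := by
    refine tendsto_integral_of_dominated_convergence (fun τ => 2 * wt ν M h G m f τ) ?_ ?_ ?_ ?_
    · intro n
      exact (((hΦint n).sub (hpint.const_mul 2)).mono_set inter_subset_left).aestronglyMeasurable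
    · exact (hwint.mono_set inter_subset_left).const_mul 2
    · intro n
      filter_upwards [ae_restrict_mem (measurableSet_Ioc.inter hA.measurableSet)] with τ hτ
      have c1 := claim2 n τ hτ.1
      have c2 := S.pow_bound (τ := τ) ⟨(hs0.trans hτ.1.1.le), hτ.1.2.trans htT⟩
      rw [Real.norm_eq_abs]
      calc |Φ n τ - 2 * pow ν u G f τ| ≤ |Φ n τ| + |2 * pow ν u G f τ| := abs_sub _ _
        _ = |Φ n τ| + 2 * |pow ν u G f τ| := by rw [abs_mul]; norm_num
        _ ≤ (2 * h * ‖m τ‖ + 2 * ν * h * ‖G τ‖ + 2 * M * ‖f τ‖)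
            + 2 * (M * ‖f τ‖ + ν * ‖G τ‖ ^ 2) := by gcongr
        _ = 2 * wt ν M h G m f τ := by unfold wt; ring
    · have c3 : ∀ᵐ τ ∂(volume.restrict (Ioc s t ∩ A)), τ ∈ A →
          Tendsto (fun n => Φ n τ) atTop (𝓝 (2 * pow ν u G f τ)) :=
        ae_mono (Measure.restrict_mono inter_subset_left le_rfl) claim3
      filter_upwards [c3, ae_restrict_mem (measurableSet_Ioc.inter hA.measurableSet)] with τ h1 h2
      have := (h1 h2.2).sub_const (2 * pow ν u G f τ)
      simpa using this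
  have hfin : |2 * (defect ν u G f t - defect ν u G f s)|
      ≤ 2 * ∫ τ in Ioc s t \ A, wt ν M h G m f τ := by
    have h1 := hlim.abs.add_const (2 * ∫ τ in Ioc s t \ A, wt ν M h G m f τ)
    have h2 := ge_of_tendsto' h1 hsplit
    simpa using h2
  rw [abs_mul] at hfin
  norm_num at hfin
  linarith

end Sol

end H772R2.NS
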