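import Mathlib
import Pool.Agent.H772R2.NS.Key

/-!
A Sard type theorem for the energy defect: it maps the times of finite enstrophy onto a
Lebesgue-null set. Consequences: characterisations of the energy equality.
-/

set_option linter.unusedSectionVars false

open MeasureTheory Set Filter Topology
open scoped InnerProductSpace ENNReal

namespace H772R2.NS

/-- The union of the gaps of `A` of length at most `δ`. -/
def gaps (A : Set ℝ) (δ : ℝ) : Set ℝ :=
  Aᶜ ∩ ⋃ p ∈ {p : ℝ × ℝ | p.1 ∈ A ∧ p.2 ∈ A ∧ p.2 - p.1 ≤ δ}, Ioo p.1 p.2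

theorem gaps_open {A : Set ℝ} (hA : IsClosed A) (δ : ℝ) : IsOpen (gaps A δ) :=
  hA.isOpen_compl.inter (isOpen_biUnion fun _ _ => isOpen_Ioo)

theorem mem_gaps {A : Set ℝ} {δ x p q : ℝ} (hx : x ∉ A) (hp : p ∈ A) (hq : q ∈ A)
    (hpq : q - p ≤ δ) (h1 : p < x) (h2 : x ≤ q) : x ∈ gaps A δ := by
  refine ⟨hx, ?_⟩
  simp only [mem_iUnion]
  refine ⟨(p, q), ⟨hp, hq, hpq⟩, h1, lt_of_le_of_ne h2 ?_⟩
  rintro rfl
  exact hx hq

theorem gaps_vanish {A : Set ℝ} (hA : IsClosed A) (x : ℝ) :
    ∃ η > 0, ∀ δ < η, x ∉ gaps A δ := by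
  by_cases hx : x ∈ A
  · exact ⟨1, one_pos, fun δ _ h => h.1 hx⟩
  obtain ⟨η, hη, hball⟩ := Metric.isOpen_iff.mp hA.isOpen_compl x hx
  refine ⟨η, hη, fun δ hδ hxg => ?_⟩
  obtain ⟨_, hx2⟩ := hxg
  simp only [mem_iUnion] at hx2
  obtain ⟨p, ⟨hp1, hp2, hp3⟩, h1, h2⟩ := hx2
  have : p.1 ∈ Metric.ball x η := by
    rw [Metric.mem_ball, Real.dist_eq, abs_lt]
    constructor <;> linarith
  exact hball this hp1

theorem exists_grid_index {a b : ℝ} (hab : a ≤ b) {n : ℕ} (hn : 0 < n) {x : ℝ}
    (hx : x ∈ Icc a b) : ∃ i < n, x ∈ Icc (grid a b n i) (grid a b n (i + 1)) := by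
  rcases hx.1.eq_or_lt with rfl | hax
  · refine ⟨0, hn, ?_, ?_⟩
    · rw [grid_zero]
    · calc a = grid a b n 0 := (grid_zero a b n).symm
        _ ≤ _ := grid_mono hab n (Nat.zero_le _)
  by_contra hcon
  push Not at hcon
  have : ∀ i ≤ n, grid a b n i < x := by
    intro i
    induction i with
    | zero => intro _; rw [grid_zero]; exact hax
    | succ i ih =>
      intro hi
      have h1 := ih (by omega)
      by_contra h2
      exact hcon i (by omega) ⟨h1.le, not_lt.mp h2⟩
  have h3 := this n le_rfl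
  rw [grid_last a b hn] at h3
  linarith [hx.2]

/-- A function on a closed set which only varies across the gaps (in an absolutely continuous
way) has a null image. -/
theorem null_image {A : Set ℝ} (hA : IsClosed A) {a b : ℝ} (hab : a ≤ b) (hAI : A ⊆ Icc a b)
    (D w : ℝ → ℝ) (hw : IntegrableOn w (Ioc a b) volume) (hw0 : ∀ x, 0 ≤ w x)
    (hD : ∀ s ∈ A, ∀ t ∈ A, s ≤ t → |D t - D s| ≤ ∫ τ in Ioc s t \ A, w τ) :
    volume (D '' A) = 0 := by
  have hAm := hA.measurableSet
  -- the bound for each n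
  have hbound : ∀ n : ℕ, 0 < n →
      volume (D '' A) ≤ ENNReal.ofReal (∫ τ in Ioc a b, (gaps A ((b - a) / n)).indicator w τ) := by
    intro n hn
    set B := gaps A ((b - a) / n) with hB
    have hBm : MeasurableSet B := (gaps_open hA _).measurableSet
    have hwB : IntegrableOn (B.indicator w) (Ioc a b) volume := hw.indicator hBm
    have hcov : D '' A ⊆ ⋃ i ∈ Finset.range n,
        D '' (A ∩ Icc (grid a b n i) (grid a b n (i + 1))) := by
      rintro _ ⟨x, hx, rfl⟩
      obtain ⟨i, hi, hxi⟩ := exists_grid_index hab hn (hAI hx)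
      simp only [mem_iUnion]
      exact ⟨i, Finset.mem_range.mpr hi, x, ⟨hx, hxi⟩, rfl⟩
    have hpiece : ∀ i ∈ Finset.range n,
        volume (D '' (A ∩ Icc (grid a b n i) (grid a b n (i + 1))))
          ≤ ENNReal.ofReal (∫ τ in grid a b n i..grid a b n (i + 1), B.indicator w τ) := by
      intro i hi
      have hi' := Finset.mem_range.mp hi
      have hga : a ≤ grid a b n i := by
        calc a = grid a b n 0 := (grid_zero a b n).symm
          _ ≤ _ := grid_mono hab n (Nat.zero_le _)
      have hgb : grid a b n (i + 1) ≤ b := grid_le_last hab hn hi'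
      have hgg : grid a b n i ≤ grid a b n (i + 1) := grid_mono hab n (Nat.le_succ i)
      have hwi : IntegrableOn (B.indicator w) (Ioc (grid a b n i) (grid a b n (i + 1))) volume :=
        hwB.mono_set (Ioc_subset_Ioc hga hgb)
      refine (Real.volume_le_diam _).trans ?_
      refine Metric.ediam_le ?_
      have main : ∀ s ∈ A ∩ Icc (grid a b n i) (grid a b n (i + 1)),
          ∀ t ∈ A ∩ Icc (grid a b n i) (grid a b n (i + 1)), s ≤ t →
          |D t - D s| ≤ ∫ τ in grid a b n i..grid a b n (i + 1), B.indicator w τ := by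
        intro s hs t ht hst
        refine (hD s hs.1 t ht.1 hst).trans ?_
        rw [intervalIntegral.integral_of_le hgg]
        have e1 : ∫ τ in Ioc s t \ A, w τ = ∫ τ in Ioc s t, Aᶜ.indicator w τ := by
          rw [setIntegral_indicator hAm.compl]
          rfl
        have e2 : ∫ τ in Ioc s t, Aᶜ.indicator w τ ≤ ∫ τ in Ioc s t, B.indicator w τ := by
          have hsub : Ioc s t ⊆ Ioc a b := Ioc_subset_Ioc (hga.trans hs.2.1) (ht.2.2.trans hgb)
          refine setIntegral_mono_on ((hw.indicator hAm.compl).mono_set hsub)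
            (hwB.mono_set hsub) measurableSet_Ioc ?_
          intro τ hτ
          by_cases hτA : τ ∈ A
          · rw [indicator_of_notMem (show τ ∉ Aᶜ from fun h => h hτA)]
            exact indicator_nonneg (fun x _ => hw0 x) τ
          · have h1 : τ ∈ B := by
              refine mem_gaps hτA hs.1 ht.1 ?_ hτ.1 hτ.2
              have := grid_succ a b hn i
              have h3 := hs.2.1
              have h4 := ht.2.2
              linarith
            rw [indicator_of_mem h1, indicator_of_mem (show τ ∈ Aᶜ from hτA)]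
        rw [e1]
        refine e2.trans ?_
        refine setIntegral_mono_set hwi ?_ ?_
        · exact Eventually.of_forall (fun x => indicator_nonneg (fun x _ => hw0 x) x)
        · exact (Ioc_subset_Ioc hs.2.1 ht.2.2).eventuallyLE
      rintro _ ⟨s, hs, rfl⟩ _ ⟨t, ht, rfl⟩
      rw [edist_dist, Real.dist_eq]
      apply ENNReal.ofReal_le_ofReal
      rcases le_total s t with h | h
      · rw [abs_sub_comm]; exact main s hs t ht h
      · exact main t ht s hs h
    calc volume (D '' A) ≤ volume (⋃ i ∈ Finset.range n,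
          D '' (A ∩ Icc (grid a b n i) (grid a b n (i + 1)))) := measure_mono hcov
      _ ≤ ∑ i ∈ Finset.range n, volume (D '' (A ∩ Icc (grid a b n i) (grid a b n (i + 1)))) :=
          measure_biUnion_finset_le _ _
      _ ≤ ∑ i ∈ Finset.range n,
          ENNReal.ofReal (∫ τ in grid a b n i..grid a b n (i + 1), B.indicator w τ) :=
          Finset.sum_le_sum hpiece
      _ = ENNReal.ofReal (∑ i ∈ Finset.range n,
          ∫ τ in grid a b n i..grid a b n (i + 1), B.indicator w τ) := by
          rw [ENNReal.ofReal_sum_of_nonneg]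
          intro i _
          apply intervalIntegral.integral_nonneg_of_forall
          · exact grid_mono hab n (Nat.le_succ i)
          · intro x; exact indicator_nonneg (fun x _ => hw0 x) x
      _ = ENNReal.ofReal (∫ τ in Ioc a b, B.indicator w τ) := by
          congr 1
          rw [intervalIntegral.sum_integral_adjacent_intervals (a := grid a b n), grid_zero,
            grid_last a b hn, intervalIntegral.integral_of_le hab]
          intro k hk
          have hgg : grid a b n k ≤ grid a b n (k + 1) := grid_mono hab n (Nat.le_succ k)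
          rw [intervalIntegrable_iff_integrableOn_Ioc_of_le hgg]
          refine hwB.mono_set (Ioc_subset_Ioc ?_ (grid_le_last hab hn hk))
          calc a = grid a b n 0 := (grid_zero a b n).symm
            _ ≤ _ := grid_mono hab n (Nat.zero_le _)
  -- the limit
  have hlim : Tendsto (fun n : ℕ => ∫ τ in Ioc a b,
      (gaps A ((b - a) / (n + 1 : ℕ))).indicator w τ) atTop (𝓝 (∫ τ in Ioc a b, (0 : ℝ))) := by
    refine tendsto_integral_of_dominated_convergence w ?_ hw ?_ ?_
    · intro n
      exact (hw.indicator (gaps_open hA _).measurableSet).aestronglyMeasurable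
    · intro n
      refine Eventually.of_forall (fun τ => ?_)
      rw [Real.norm_eq_abs, abs_of_nonneg (indicator_nonneg (fun x _ => hw0 x) τ)]
      exact indicator_le_self' (fun x _ => hw0 x) τ
    · refine Eventually.of_forall (fun τ => ?_)
      obtain ⟨η, hη, hv⟩ := gaps_vanish hA τ
      have h1 : Tendsto (fun n : ℕ => (b - a) / ((n + 1 : ℕ) : ℝ)) atTop (𝓝 0) := by
        have := tendsto_const_div_atTop_nhds_zero_nat (b - a)
        exact this.comp (tendsto_add_atTop_nat 1)
      refine (tendsto_congr' ?_).mpr tendsto_const_nhds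
      filter_upwards [h1.eventually (gt_mem_nhds hη)] with n hn
      rw [indicator_of_notMem (hv _ hn)]
  have h2 : Tendsto (fun n : ℕ => ENNReal.ofReal (∫ τ in Ioc a b,
      (gaps A ((b - a) / (n + 1 : ℕ))).indicator w τ)) atTop (𝓝 0) := by
    have := (ENNReal.continuous_ofReal.tendsto _).comp hlim
    simpa [Function.comp_def] using this
  have h3 := ge_of_tendsto' h2 (fun n => hbound (n + 1) (Nat.succ_pos n))
  exact le_antisymm h3 (zero_le)

variable {H K : Type*} [NormedAddCommGroup H] [InnerProductSpace ℝ H] [CompleteSpace H]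
  [NormedAddCommGroup K] [InnerProductSpace ℝ K] [CompleteSpace K]

namespace Sol

variable {W : Submodule ℝ (H × K)} {T M ν : ℝ} {u : ℝ → H} {G m : ℝ → K} {f : ℝ → H}

theorem wt_nonneg (S : Sol W T M ν u G m f) {h : ℝ} (hh : 0 ≤ h) (τ : ℝ) :
    0 ≤ wt ν M h G m f τ := by
  unfold wt
  have n2 : 0 ≤ ν * h * ‖G τ‖ := mul_nonneg (mul_nonneg S.ν0 hh) (norm_nonneg _)
  have n3 : 0 ≤ 2 * M * ‖f τ‖ := mul_nonneg (mul_nonneg (by norm_num) S.M0) (norm_nonneg _)
  have n4 : 0 ≤ ν * ‖G τ‖ ^ 2 := mul_nonneg S.ν0 (by positivity)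
  positivity

/-- **Sard type theorem**: the energy defect maps the set of times of finite enstrophy onto a null
set. -/
theorem sard (S : Sol W T M ν u G m f) :
    volume (defect ν u G f '' {t ∈ Icc 0 T | ∃ z : K, (u t, z) ∈ W}) = 0 := by
  have h1 : {t ∈ Icc 0 T | ∃ z : K, (u t, z) ∈ W} ⊆ ⋃ n : ℕ, good W T u n := by
    rintro t ⟨ht, z, hz⟩
    obtain ⟨n, hn⟩ := exists_nat_ge ‖z‖
    exact mem_iUnion.mpr ⟨n, ht, z, hn, hz⟩
  refine measure_mono_null (image_mono h1) ?_
  rw [image_iUnion, measure_iUnion_null_iff]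
  intro n
  exact null_image (S.good_closed n) S.T0 (fun t ht => ht.1) _ _ (S.wt_int n)
    (S.wt_nonneg (Nat.cast_nonneg n))
    (fun s hs t ht hst => S.key (S.good_closed n) le_rfl hs ht hst)

theorem defect_zero : defect ν u G f 0 = 0 := by simp [defect]

/-- If the defect is continuous and maps the times of infinite enstrophy to a null set, then it
vanishes. -/
theorem eq_of_lusin (S : Sol W T M ν u G m f)
    (hc : ContinuousOn (defect ν u G f) (Icc 0 T))
    (hn : volume (defect ν u G f '' {t ∈ Icc 0 T | ¬ ∃ z : K, (u t, z) ∈ W}) = 0) :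
    ∀ t ∈ Icc 0 T, defect ν u G f t = 0 := by
  have hall : volume (defect ν u G f '' Icc 0 T) = 0 := by
    have : Icc 0 T = {t ∈ Icc 0 T | ∃ z : K, (u t, z) ∈ W}
        ∪ {t ∈ Icc 0 T | ¬ ∃ z : K, (u t, z) ∈ W} := by
      ext x; constructor
      · intro hx
        by_cases h : ∃ z : K, (u x, z) ∈ W
        · exact Or.inl ⟨hx, h⟩
        · exact Or.inr ⟨hx, h⟩
      · rintro (hx | hx) <;> exact hx.1
    rw [this, image_union]
    exact measure_union_null S.sard hn
  intro t ht
  by_contra hne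
  have hconn : (defect ν u G f '' Icc 0 T).OrdConnected :=
    (isPreconnected_Icc.image _ hc).ordConnected
  have h0 : (0 : ℝ) ∈ defect ν u G f '' Icc 0 T := ⟨0, ⟨le_rfl, S.T0⟩, defect_zero⟩
  have h1 : defect ν u G f t ∈ defect ν u G f '' Icc 0 T := ⟨t, ht, rfl⟩
  have h2 : uIcc 0 (defect ν u G f t) ⊆ defect ν u G f '' Icc 0 T := hconn.uIcc_subset h0 h1
  have h3 := measure_mono_null h2 hall
  rw [uIcc, Real.volume_Icc] at h3
  simp only [ENNReal.ofReal_eq_zero, sub_nonpos] at h3
  have h4 : min 0 (defect ν u G f t) < max 0 (defect ν u G f t) := by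
    rcases lt_or_gt_of_ne hne with h | h
    · rw [min_eq_right h.le, max_eq_left h.le]; exact h
    · rw [min_eq_left h.le, max_eq_right h.le]; exact h
  linarith

/-- the defect has derivative zero wherever it is differentiable, almost everywhere. -/
theorem deriv_zero (S : Sol W T M ν u G m f) :
    ∀ᵐ x : ℝ, x ∈ Icc 0 T → ∀ d, HasDerivAt (defect ν u G f) d x → d = 0 := by
  have hI : uIcc 0 T = Icc 0 T := uIcc_of_le S.T0
  have h1 : ∀ n : ℕ, ∀ᵐ x : ℝ, x ∈ Icc 0 T → HasDerivAt
      (fun x => ∫ τ in (0 : ℝ)..x, (good W T u n)ᶜ.indicator (wt ν M n G m f) τ)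
      ((good W T u n)ᶜ.indicator (wt ν M n G m f) x) x := by
    intro n
    have hint : IntervalIntegrable ((good W T u n)ᶜ.indicator (wt ν M n G m f)) volume 0 T := by
      rw [intervalIntegrable_iff_integrableOn_Ioc_of_le S.T0]
      exact (S.wt_int n).indicator (S.good_closed n).measurableSet.compl
    have := hint.ae_hasDerivAt_integral
    filter_upwards [this] with x hx hxI
    exact hx (by rwa [hI]) 0 (by rw [hI]; exact ⟨le_rfl, S.T0⟩)
  have h2 : ∀ᵐ x : ℝ, ∀ n : ℕ, x ∈ good W T u n → TwoSided (good W T u n) x :=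
    ae_all_iff.mpr (fun n => ae_twoSided _)
  have h3 : ∀ᵐ x : ℝ, x ∈ Ioc 0 T → (u x, G x) ∈ W := by
    have := S.memW
    rwa [ae_restrict_iff' measurableSet_Ioc] at this
  have h4 : ∀ᵐ x : ℝ, x ≠ 0 := by simp [ae_iff, measure_singleton]
  filter_upwards [ae_all_iff.mpr h1, h2, h3, h4] with x k1 k2 k3 k4 hxI d hd
  have hx0 : x ∈ Ioc 0 T := ⟨lt_of_le_of_ne hxI.1 (Ne.symm k4), hxI.2⟩
  obtain ⟨n, hn⟩ := exists_nat_ge ‖G x‖
  have hxg : x ∈ good W T u n := ⟨hxI, G x, hn, k3 hx0⟩
  set A := good W T u n with hAdef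
  have hA : IsClosed A := S.good_closed n
  have hΦ := k1 n hxI
  rw [indicator_of_notMem (show x ∉ (good W T u n)ᶜ from fun h => h hxg)] at hΦ
  have h2s := k2 n hxg
  -- the filter
  have hne : (𝓝[A ∩ Ioi x] x).NeBot := by
    rw [← mem_closure_iff_nhdsWithin_neBot, Metric.mem_closure_iff]
    intro ε hε
    obtain ⟨b, hbA, hb1, hb2⟩ := h2s.2 ε hε
    exact ⟨b, ⟨hbA, hb1⟩, by rw [Real.dist_eq, abs_lt]; constructor <;> linarith⟩
  have hle : 𝓝[A ∩ Ioi x] x ≤ 𝓝[≠] x :=
    nhdsWithin_mono _ (fun y hy => (ne_of_gt hy.2))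
  have s1 : Tendsto (fun y => |slope (defect ν u G f) x y|) (𝓝[A ∩ Ioi x] x) (𝓝 |d|) :=
    ((hasDerivAt_iff_tendsto_slope.mp hd).mono_left hle).abs
  have s2 : Tendsto (slope (fun x => ∫ τ in (0 : ℝ)..x, Aᶜ.indicator (wt ν M n G m f) τ) x)
      (𝓝[A ∩ Ioi x] x) (𝓝 0) :=
    (hasDerivAt_iff_tendsto_slope.mp hΦ).mono_left hle
  have hcomp : ∀ᶠ y in 𝓝[A ∩ Ioi x] x, |slope (defect ν u G f) x y|
      ≤ slope (fun x => ∫ τ in (0 : ℝ)..x, Aᶜ.indicator (wt ν M n G m f) τ) x y := by
    filter_upwards [self_mem_nhdsWithin] with y hy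
    have hxy : x < y := hy.2
    have hyI := (hy.1 : y ∈ good W T u n).1
    have hk := S.key hA le_rfl hxg hy.1 hxy.le
    have e1 : ∫ τ in Ioc x y \ A, wt ν M n G m f τ
        = (∫ τ in (0 : ℝ)..y, Aᶜ.indicator (wt ν M n G m f) τ)
          - ∫ τ in (0 : ℝ)..x, Aᶜ.indicator (wt ν M n G m f) τ := by
      have i0 : IntegrableOn (Aᶜ.indicator (wt ν M n G m f)) (Ioc 0 T) volume :=
        (S.wt_int n).indicator hA.measurableSet.compl
      have i1 : IntervalIntegrable (Aᶜ.indicator (wt ν M n G m f)) volume 0 x := by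
        rw [intervalIntegrable_iff_integrableOn_Ioc_of_le hxI.1]
        exact i0.mono_set (Ioc_subset_Ioc_right hxI.2)
      have i2 : IntervalIntegrable (Aᶜ.indicator (wt ν M n G m f)) volume 0 y := by
        rw [intervalIntegrable_iff_integrableOn_Ioc_of_le hyI.1]
        exact i0.mono_set (Ioc_subset_Ioc_right hyI.2)
      rw [intervalIntegral.integral_interval_sub_left i2 i1,
        intervalIntegral.integral_of_le hxy.le, setIntegral_indicator hA.measurableSet.compl]
      rfl
    rw [slope_def_field, slope_def_field, abs_div, abs_of_pos (sub_pos.mpr hxy), ← e1]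
    exact div_le_div_of_nonneg_right hk (sub_pos.mpr hxy).le
  have := le_of_tendsto_of_tendsto s1 s2 hcomp
  exact abs_nonpos_iff.mp this

/-- If the kinetic energy is absolutely continuous then the energy equality holds. -/
theorem eq_of_ac (S : Sol W T M ν u G m f)
    (hk : AbsolutelyContinuousOnInterval (fun t => ‖u t‖ ^ 2 / 2) 0 T) :
    ∀ t ∈ Icc 0 T, defect ν u G f t = 0 := by
  have hI : uIcc 0 T = Icc 0 T := uIcc_of_le S.T0
  have hp : IntervalIntegrable (pow ν u G f) volume 0 T := by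
    rw [intervalIntegrable_iff_integrableOn_Ioc_of_le S.T0]
    exact S.pow_int
  have h1 : AbsolutelyContinuousOnInterval (fun x => ∫ τ in (0 : ℝ)..x, pow ν u G f τ) 0 T :=
    hp.absolutelyContinuousOnInterval_intervalIntegral (by rw [hI]; exact ⟨le_rfl, S.T0⟩)
  have hc : AbsolutelyContinuousOnInterval (fun _ : ℝ => ‖u 0‖ ^ 2 / 2) 0 T :=
    (contDiffOn_const (𝕜 := ℝ) (n := 1)).absolutelyContinuousOnInterval
  have h2 : AbsolutelyContinuousOnInterval (defect ν u G f) 0 T := by
    have := (hc.add h1).sub hk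
    exact this
  have h3 := h2.ae_differentiableAt
  obtain ⟨C, hC⟩ := h2.const_of_ae_hasDerivAt_zero (by
    filter_upwards [h3, S.deriv_zero] with x k1 k2 hx
    have hd := (k1 hx).hasDerivAt
    have := k2 (by rwa [hI] at hx) _ hd
    rwa [this] at hd)
  intro t ht
  have e1 := hC t (by rwa [hI])
  have e2 := hC 0 (by rw [hI]; exact ⟨le_rfl, S.T0⟩)
  rw [e1, ← e2]
  exact defect_zero

end Sol

end H772R2.NS
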