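import Mathlib
import Pool.Agent.H772R2.NS.Sard

/-!
Almost everywhere approximate differentiability of the kinetic energy.
-/

set_option linter.unusedSectionVars false

open MeasureTheory Set Filter Topology
open scoped InnerProductSpace ENNReal

namespace H772R2.NS

variable {H K : Type*} [NormedAddCommGroup H] [InnerProductSpace ℝ H] [CompleteSpace H]
  [NormedAddCommGroup K] [InnerProductSpace ℝ K] [CompleteSpace K]

namespace Sol

variable {W : Submodule ℝ (H × K)} {T M ν : ℝ} {u : ℝ → H} {G m : ℝ → K} {f : ℝ → H}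

/-- the defect has derivative zero within the good sets, almost everywhere. -/
theorem defect_deriv_within (S : Sol W T M ν u G m f) (n : ℝ) :
    ∀ᵐ x : ℝ, x ∈ good W T u n →
      HasDerivWithinAt (defect ν u G f) 0 (good W T u n) x := by
  have hI : uIcc 0 T = Icc 0 T := uIcc_of_le S.T0
  have hA : IsClosed (good W T u n) := S.good_closed n
  have h1 : ∀ᵐ x : ℝ, x ∈ Icc 0 T → HasDerivAt
      (fun x => ∫ τ in (0 : ℝ)..x, (good W T u n)ᶜ.indicator (wt ν M n G m f) τ)
      ((good W T u n)ᶜ.indicator (wt ν M n G m f) x) x := by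
    have hint : IntervalIntegrable ((good W T u n)ᶜ.indicator (wt ν M n G m f)) volume 0 T := by
      rw [intervalIntegrable_iff_integrableOn_Ioc_of_le S.T0]
      exact (S.wt_int n).indicator (S.good_closed n).measurableSet.compl
    have := hint.ae_hasDerivAt_integral
    filter_upwards [this] with x hx hxI
    exact hx (by rwa [hI]) 0 (by rw [hI]; exact ⟨le_rfl, S.T0⟩)
  filter_upwards [h1] with x k1 hxg
  have hxI := hxg.1
  have hΦ := k1 hxI
  rw [indicator_of_notMem (show x ∉ (good W T u n)ᶜ from fun h => h hxg)] at hΦ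
  set A := good W T u n with hAdef
  set Φ : ℝ → ℝ := fun x => ∫ τ in (0 : ℝ)..x, Aᶜ.indicator (wt ν M n G m f) τ with hΦdef
  have i0 : IntegrableOn (Aᶜ.indicator (wt ν M n G m f)) (Ioc 0 T) volume :=
    (S.wt_int n).indicator hA.measurableSet.compl
  have hle : ∀ a ∈ A, ∀ b ∈ A, a ≤ b →
      |defect ν u G f b - defect ν u G f a| ≤ Φ b - Φ a := by
    intro a ha b hb hab
    have hk := S.key hA le_rfl ha hb hab
    have haI := (ha : a ∈ good W T u n).1
    have hbI := (hb : b ∈ good W T u n).1
    have i1 : IntervalIntegrable (Aᶜ.indicator (wt ν M n G m f)) volume 0 a := by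
      rw [intervalIntegrable_iff_integrableOn_Ioc_of_le haI.1]
      exact i0.mono_set (Ioc_subset_Ioc_right haI.2)
    have i2 : IntervalIntegrable (Aᶜ.indicator (wt ν M n G m f)) volume 0 b := by
      rw [intervalIntegrable_iff_integrableOn_Ioc_of_le hbI.1]
      exact i0.mono_set (Ioc_subset_Ioc_right hbI.2)
    have e1 : ∫ τ in Ioc a b \ A, wt ν M n G m f τ = Φ b - Φ a := by
      simp only [hΦdef]
      rw [intervalIntegral.integral_interval_sub_left i2 i1,
        intervalIntegral.integral_of_le hab, setIntegral_indicator hA.measurableSet.compl]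
      rfl
    rwa [e1] at hk
  rw [hasDerivWithinAt_iff_isLittleO]
  have hΦo := (hasDerivAt_iff_isLittleO.mp hΦ).mono (nhdsWithin_le_nhds (s := A))
  refine Asymptotics.IsBigO.trans_isLittleO ?_ hΦo
  refine Asymptotics.IsBigO.of_bound 1 ?_
  filter_upwards [self_mem_nhdsWithin] with y hy
  simp only [smul_zero, sub_zero, one_mul]
  rcases le_total x y with h | h
  · calc ‖defect ν u G f y - defect ν u G f x‖ ≤ Φ y - Φ x := hle x hxg y hy h
      _ ≤ ‖Φ y - Φ x‖ := le_abs_self _
  · calc ‖defect ν u G f y - defect ν u G f x‖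
        = |defect ν u G f x - defect ν u G f y| := by rw [Real.norm_eq_abs, abs_sub_comm]
      _ ≤ Φ x - Φ y := hle y hy x hxg h
      _ ≤ ‖Φ y - Φ x‖ := by rw [norm_sub_rev]; exact le_abs_self _

/-- **Energy balance along times of bounded enstrophy.** For almost every `x`, for every level `h`
the kinetic energy is differentiable at `x` within the set of times with enstrophy at most `h²`,
with the expected derivative; and for `h > ‖∇u(x)‖` that set has density one at `x`. -/
theorem approx_balance (S : Sol W T M ν u G m f) :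
    ∀ᵐ x ∂(volume.restrict (Ioc 0 T)),
      (∀ h : ℝ, HasDerivWithinAt (fun t => ‖u t‖ ^ 2 / 2) (pow ν u G f x) (good W T u h) x) ∧
      ∀ h : ℝ, ‖G x‖ < h →
        Tendsto (fun r => volume (good W T u h ∩ Metric.closedBall x r)
          / volume (Metric.closedBall x r)) (𝓝[>] 0) (𝓝 1) := by
  have hI : uIcc 0 T = Icc 0 T := uIcc_of_le S.T0
  have h1 : ∀ n : ℕ, ∀ᵐ x : ℝ, x ∈ good W T u n →
      HasDerivWithinAt (defect ν u G f) 0 (good W T u n) x := fun n => S.defect_deriv_within n
  have h2 : ∀ q : ℚ, ∀ᵐ x : ℝ, x ∈ good W T u q →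
      Tendsto (fun r => volume (good W T u q ∩ Metric.closedBall x r)
        / volume (Metric.closedBall x r)) (𝓝[>] 0) (𝓝 1) := by
    intro q
    have := Besicovitch.ae_tendsto_measure_inter_div (volume : Measure ℝ) (good W T u q)
    rwa [ae_restrict_iff' (S.good_closed q).measurableSet] at this
  have hp : IntervalIntegrable (pow ν u G f) volume 0 T := by
    rw [intervalIntegrable_iff_integrableOn_Ioc_of_le S.T0]
    exact S.pow_int
  have h3 : ∀ᵐ x : ℝ, x ∈ Icc 0 T →
      HasDerivAt (fun x => ∫ τ in (0 : ℝ)..x, pow ν u G f τ) (pow ν u G f x) x := by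
    filter_upwards [hp.ae_hasDerivAt_integral] with x hx hxI
    exact hx (by rwa [hI]) 0 (by rw [hI]; exact ⟨le_rfl, S.T0⟩)
  filter_upwards [S.memW, ae_restrict_mem measurableSet_Ioc, ae_restrict_of_ae (ae_all_iff.mpr h1),
    ae_restrict_of_ae (ae_all_iff.mpr h2), ae_restrict_of_ae h3] with x hW hx k1 k2 k3
  have hxI : x ∈ Icc 0 T := Ioc_subset_Icc_self hx
  have hmono : ∀ a b : ℝ, a ≤ b → good W T u a ⊆ good W T u b := by
    rintro a b hab t ⟨ht, z, hz, hzW⟩
    exact ⟨ht, z, hz.trans hab, hzW⟩
  constructor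
  · intro h
    obtain ⟨n, hn⟩ := exists_nat_ge (max h ‖G x‖)
    have hxg : x ∈ good W T u n := ⟨hxI, G x, (le_max_right _ _).trans hn, hW⟩
    have hd := ((k3 hxI).hasDerivWithinAt (s := good W T u n)).sub (k1 n hxg)
    have hc := hd.const_add (‖u 0‖ ^ 2 / 2)
    simp only [sub_zero] at hc
    refine (hc.congr_of_mem ?_ hxg).mono (hmono h n ((le_max_left _ _).trans hn))
    intro t _
    simp only [defect, Pi.sub_apply]
    ring
  · intro h hGh
    obtain ⟨q, hq1, hq2⟩ := exists_rat_btwn hGh
    have hxg : x ∈ good W T u q := ⟨hxI, G x, hq1.le, hW⟩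
    have hlow := k2 q hxg
    have hup : Tendsto (fun _ : ℝ => (1 : ℝ≥0∞)) (𝓝[>] (0 : ℝ)) (𝓝 1) := tendsto_const_nhds
    refine tendsto_of_tendsto_of_tendsto_of_le_of_le hlow hup ?_ ?_
    · intro r
      simp only
      gcongr
      exact hmono q h hq2.le
    · intro r
      simp only
      refine ENNReal.div_le_of_le_mul ?_
      rw [one_mul]
      exact measure_mono inter_subset_right

end Sol

end H772R2.NS
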