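import Mathlib
import Pool.Agent.H772R2.NS.Key

/-!
The energy defect on `[s,t]` is bounded by the liminf, as `h → ∞`, of
`h * ∫_{‖G‖ > h} ‖m‖`.
-/

set_option linter.unusedSectionVars false

open MeasureTheory Set Filter Topology
open scoped InnerProductSpace ENNReal

namespace H772R2.NS

variable {H K : Type*} [NormedAddCommGroup H] [InnerProductSpace ℝ H] [CompleteSpace H]
  [NormedAddCommGroup K] [InnerProductSpace ℝ K] [CompleteSpace K]

namespace Sol

variable {W : Submodule ℝ (H × K)} {T M ν : ℝ} {u : ℝ → H} {G m : ℝ → K} {f : ℝ → H}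

/-- In every nonempty open subinterval of `[0,T]` there is a time which is good for all large
levels. -/
theorem exists_good (S : Sol W T M ν u G m f) {a b : ℝ} (h0 : 0 ≤ a) (hab : a < b) (hb : b ≤ T) :
    ∃ τ ∈ Ioo a b, ∃ h0 : ℝ, ∀ h ≥ h0, τ ∈ good W T u h := by
  have hsub : Ioo a b ⊆ Ioc 0 T := fun x hx => ⟨h0.trans_lt hx.1, hx.2.le.trans hb⟩
  have h1 : ∀ᵐ τ ∂(volume.restrict (Ioo a b)), (u τ, G τ) ∈ W :=
    ae_mono (Measure.restrict_mono hsub le_rfl) S.memW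
  have hne : (volume.restrict (Ioo a b) : Measure ℝ) ≠ 0 := by
    intro h
    have : (volume.restrict (Ioo a b) : Measure ℝ) univ = 0 := by rw [h]; simp
    rw [Measure.restrict_apply_univ, Real.volume_Ioo] at this
    have h2 : b - a ≤ 0 := by simpa using this
    linarith
  have : (ae (volume.restrict (Ioo a b) : Measure ℝ)).NeBot := ae_neBot.mpr hne
  obtain ⟨τ, hτ1, hτ2⟩ := (h1.and (ae_restrict_mem measurableSet_Ioo)).exists
  refine ⟨τ, hτ2, ‖G τ‖, fun h hh => ⟨Ioc_subset_Icc_self (hsub hτ2), G τ, hh, hτ1⟩⟩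

theorem half_rhs_bound (S : Sol W T M ν u G m f) {p : H × K} {h : ℝ} (h1 : ‖p.1‖ ≤ M)
    (h2 : ‖p.2‖ ≤ h) (τ : ℝ) :
    |rhs ν G m f p τ| ≤ h * ‖m τ‖ + ν * h * ‖G τ‖ + M * ‖f τ‖ := by
  have hM : (M : ℝ) = 2 * (M / 2) := by ring
  unfold rhs
  have a1 : |⟪m τ, p.2⟫_ℝ| ≤ ‖m τ‖ * h :=
    (abs_real_inner_le_norm _ _).trans (by gcongr)
  have a2 : |⟪G τ, p.2⟫_ℝ| ≤ ‖G τ‖ * h :=
    (abs_real_inner_le_norm _ _).trans (by gcongr)
  have a3 : |⟪f τ, p.1⟫_ℝ| ≤ ‖f τ‖ * M :=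
    (abs_real_inner_le_norm _ _).trans (by gcongr)
  have a4 : |ν * ⟪G τ, p.2⟫_ℝ| ≤ ν * (‖G τ‖ * h) := by
    rw [abs_mul, abs_of_nonneg S.ν0]
    exact mul_le_mul_of_nonneg_left a2 S.ν0
  calc |⟪m τ, p.2⟫_ℝ - ν * ⟪G τ, p.2⟫_ℝ + ⟪f τ, p.1⟫_ℝ|
      ≤ |⟪m τ, p.2⟫_ℝ - ν * ⟪G τ, p.2⟫_ℝ| + |⟪f τ, p.1⟫_ℝ| := abs_add_le _ _
    _ ≤ |⟪m τ, p.2⟫_ℝ| + |ν * ⟪G τ, p.2⟫_ℝ| + |⟪f τ, p.1⟫_ℝ| := by
        gcongr; exact abs_sub _ _
    _ ≤ _ := by linarith

/-- one-step estimate with one good end point `g ∈ {s, t}`. -/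
theorem abs_sq_sub_le (S : Sol W T M ν u G m f) {s t h : ℝ} (h0 : 0 ≤ s) (hst : s ≤ t)
    (hT : t ≤ T) {g e : ℝ} (hge : (g = s ∧ e = t) ∨ (g = t ∧ e = s)) (hg : g ∈ good W T u h) :
    |‖u t‖ ^ 2 - ‖u s‖ ^ 2| ≤ (∫ τ in Ioc s t, (h * ‖m τ‖ + ν * h * ‖G τ‖ + M * ‖f τ‖))
      + |⟪u g - u e, u e⟫_ℝ| := by
  obtain ⟨hgI, z, hz, hzW⟩ := hg
  have hw := S.weak _ hzW s t h0 hst hT
  have hsub : Ioc s t ⊆ Ioc 0 T := Ioc_subset_Ioc h0 hT
  have hb : |⟪u t, u g⟫_ℝ - ⟪u s, u g⟫_ℝ|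
      ≤ ∫ τ in Ioc s t, (h * ‖m τ‖ + ν * h * ‖G τ‖ + M * ‖f τ‖) := by
    have e1 : ⟪u t, u g⟫_ℝ - ⟪u s, u g⟫_ℝ = ∫ τ in Ioc s t, rhs ν G m f (u g, z) τ := by
      rw [← intervalIntegral.integral_of_le hst]
      simpa [rhs] using hw
    rw [e1]
    refine (abs_integral_le_integral_abs).trans ?_
    refine setIntegral_mono_on ?_ ?_ measurableSet_Ioc ?_
    · exact (IntegrableOn.mono_set (S.rhs_int _) hsub).abs
    · exact IntegrableOn.mono_set (((S.mint.norm.const_mul h).add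
        (S.Gint.norm.const_mul (ν * h))).add (S.fint.norm.const_mul M)) hsub
    · intro τ _
      exact S.half_rhs_bound (S.bdd g hgI) hz τ
  rcases hge with ⟨rfl, rfl⟩ | ⟨rfl, rfl⟩
  · have e2 : ‖u e‖ ^ 2 - ‖u g‖ ^ 2
        = (⟪u e, u g⟫_ℝ - ⟪u g, u g⟫_ℝ) - ⟪u g - u e, u e⟫_ℝ := by
      rw [inner_sub_left, real_inner_self_eq_norm_sq, real_inner_self_eq_norm_sq,
        real_inner_comm (u g) (u e)]
      ring
    rw [e2]
    exact (abs_sub _ _).trans (by gcongr)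
  · have e2 : ‖u g‖ ^ 2 - ‖u e‖ ^ 2
        = (⟪u g, u g⟫_ℝ - ⟪u e, u g⟫_ℝ) + ⟪u g - u e, u e⟫_ℝ := by
      rw [inner_sub_left, real_inner_self_eq_norm_sq, real_inner_self_eq_norm_sq,
        real_inner_comm (u g) (u e)]
      ring
    rw [e2]
    exact (abs_add_le _ _).trans (by gcongr)

/-- defect estimate on a short interval without interior good points -/
theorem defect_end (S : Sol W T M ν u G m f) {s t h : ℝ} (h0 : 0 ≤ s) (hst : s ≤ t)
    (hT : t ≤ T) {g e : ℝ} (hge : (g = s ∧ e = t) ∨ (g = t ∧ e = s)) (hg : g ∈ good W T u h) :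
    |defect ν u G f t - defect ν u G f s| ≤ (∫ τ in Ioc s t, wt ν M h G m f τ)
      + |⟪u g - u e, u e⟫_ℝ| / 2 := by
  have hsub : Ioc s t ⊆ Ioc 0 T := Ioc_subset_Ioc h0 hT
  have hh : 0 ≤ h := by
    obtain ⟨_, z, hz, _⟩ := hg
    exact (norm_nonneg _).trans hz
  have h1 := S.abs_sq_sub_le h0 hst hT hge hg
  rw [S.defect_sub h0 hst hT]
  have h2 : |∫ τ in s..t, pow ν u G f τ| ≤ ∫ τ in Ioc s t, (M * ‖f τ‖ + ν * ‖G τ‖ ^ 2) := by
    rw [intervalIntegral.integral_of_le hst]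
    refine (abs_integral_le_integral_abs).trans ?_
    refine setIntegral_mono_on ?_ ?_ measurableSet_Ioc ?_
    · exact (IntegrableOn.mono_set S.pow_int hsub).abs
    · exact IntegrableOn.mono_set ((S.fint.norm.const_mul M).add (S.G2.const_mul ν)) hsub
    · intro τ hτ
      exact S.pow_bound ⟨h0.trans hτ.1.le, hτ.2.trans hT⟩
  have i1 : IntegrableOn (fun τ => M * ‖f τ‖ + ν * ‖G τ‖ ^ 2) (Ioc s t) volume :=
    IntegrableOn.mono_set ((S.fint.norm.const_mul M).add (S.G2.const_mul ν)) hsub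
  have i2 : IntegrableOn (fun τ => h * ‖m τ‖ + ν * h * ‖G τ‖ + M * ‖f τ‖) (Ioc s t) volume :=
    IntegrableOn.mono_set (((S.mint.norm.const_mul h).add
        (S.Gint.norm.const_mul (ν * h))).add (S.fint.norm.const_mul M)) hsub
  have i3 : IntegrableOn (wt ν M h G m f) (Ioc s t) volume :=
    IntegrableOn.mono_set (S.wt_int h) hsub
  have h3 : (∫ τ in Ioc s t, (M * ‖f τ‖ + ν * ‖G τ‖ ^ 2))
      + (∫ τ in Ioc s t, (h * ‖m τ‖ + ν * h * ‖G τ‖ + M * ‖f τ‖)) / 2
      ≤ ∫ τ in Ioc s t, wt ν M h G m f τ := by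
    rw [← integral_div, ← integral_add i1 (i2.div_const 2)]
    refine setIntegral_mono_on (i1.add (i2.div_const 2)) i3 measurableSet_Ioc ?_
    intro τ _
    unfold wt
    have n1 : 0 ≤ h * ‖m τ‖ := by positivity
    have n2 : 0 ≤ ν * h * ‖G τ‖ := mul_nonneg (mul_nonneg S.ν0 hh) (norm_nonneg _)
    have n3 : 0 ≤ M * ‖f τ‖ := mul_nonneg S.M0 (norm_nonneg _)
    linarith
  calc |(∫ τ in s..t, pow ν u G f τ) - (‖u t‖ ^ 2 - ‖u s‖ ^ 2) / 2|
      ≤ |∫ τ in s..t, pow ν u G f τ| + |(‖u t‖ ^ 2 - ‖u s‖ ^ 2) / 2| := abs_sub _ _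
    _ = |∫ τ in s..t, pow ν u G f τ| + |‖u t‖ ^ 2 - ‖u s‖ ^ 2| / 2 := by
        rw [abs_div]; norm_num
    _ ≤ _ := by linarith

/-- Bridging estimate between two arbitrary times. -/
theorem defect_bridge (S : Sol W T M ν u G m f) {s t h : ℝ} (h0 : 0 ≤ s) (hT : t ≤ T)
    {a b : ℝ} (hsb : s ≤ b) (hba : b ≤ a) (hat : a ≤ t)
    (ha : a ∈ good W T u h) (hb : b ∈ good W T u h)
    (hgap1 : ∀ x ∈ Ioo s b, x ∉ good W T u h) (hgap2 : ∀ x ∈ Ioo a t, x ∉ good W T u h) :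
    |defect ν u G f t - defect ν u G f s| ≤ (∫ τ in Ioc s t \ good W T u h, wt ν M h G m f τ)
      + |⟪u b - u s, u s⟫_ℝ| / 2 + |⟪u a - u t, u t⟫_ℝ| / 2 := by
  have hA := S.good_closed h
  have hAm := hA.measurableSet
  have hst : s ≤ t := hsb.trans (hba.trans hat)
  have hsub : Ioc s t ⊆ Ioc 0 T := Ioc_subset_Ioc h0 hT
  have hwi : IntegrableOn (wt ν M h G m f) (Ioc s t) volume :=
    IntegrableOn.mono_set (S.wt_int h) hsub
  have k1 := S.key hA le_rfl hb ha hba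
  have k2 := S.defect_end h0 hsb (hba.trans (hat.trans hT)) (Or.inr ⟨rfl, rfl⟩) hb
  have k3 := S.defect_end (h0.trans (hsb.trans hba)) hat hT (Or.inl ⟨rfl, rfl⟩) ha
  have c1 : ∫ τ in Ioc s b, wt ν M h G m f τ = ∫ τ in Ioc s b \ good W T u h, wt ν M h G m f τ := by
    apply setIntegral_congr_set
    have hsub1 : Ioc s b \ (Ioc s b \ good W T u h) ⊆ {b} := by
      intro x hx
      by_contra hne
      have hx1 : x ∈ Ioc s b := hx.1
      have hxg : x ∈ good W T u h := by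
        by_contra hcon
        exact hx.2 ⟨hx1, hcon⟩
      exact hgap1 x ⟨hx1.1, lt_of_le_of_ne hx1.2 hne⟩ hxg
    have hnull : volume (Ioc s b \ (Ioc s b \ good W T u h)) = 0 :=
      measure_mono_null hsub1 (by simp)
    refine (ae_eq_set.mpr ⟨hnull, ?_⟩)
    have : (Ioc s b \ good W T u h) \ Ioc s b = ∅ := by
      ext x; simp
    rw [this]; simp
  have c2 : ∫ τ in Ioc a t, wt ν M h G m f τ = ∫ τ in Ioc a t \ good W T u h, wt ν M h G m f τ := by
    apply setIntegral_congr_set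
    have hsub1 : Ioc a t \ (Ioc a t \ good W T u h) ⊆ {t} := by
      intro x hx
      by_contra hne
      have hx1 : x ∈ Ioc a t := hx.1
      have hxg : x ∈ good W T u h := by
        by_contra hcon
        exact hx.2 ⟨hx1, hcon⟩
      exact hgap2 x ⟨hx1.1, lt_of_le_of_ne hx1.2 hne⟩ hxg
    have hnull : volume (Ioc a t \ (Ioc a t \ good W T u h)) = 0 :=
      measure_mono_null hsub1 (by simp)
    refine (ae_eq_set.mpr ⟨hnull, ?_⟩)
    have : (Ioc a t \ good W T u h) \ Ioc a t = ∅ := by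
      ext x; simp
    rw [this]; simp
  have u1 : Ioc s t \ good W T u h
      = ((Ioc s b \ good W T u h) ∪ (Ioc b a \ good W T u h)) ∪ (Ioc a t \ good W T u h) := by
    rw [← union_sdiff_distrib, ← union_sdiff_distrib, Ioc_union_Ioc_eq_Ioc hsb hba,
      Ioc_union_Ioc_eq_Ioc (hsb.trans hba) hat]
  have i1 : IntegrableOn (wt ν M h G m f) (Ioc s b \ good W T u h) volume :=
    hwi.mono_set (sdiff_subset.trans (Ioc_subset_Ioc_right (hba.trans hat)))
  have i2 : IntegrableOn (wt ν M h G m f) (Ioc b a \ good W T u h) volume :=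
    hwi.mono_set (sdiff_subset.trans (Ioc_subset_Ioc hsb hat))
  have i3 : IntegrableOn (wt ν M h G m f) (Ioc a t \ good W T u h) volume :=
    hwi.mono_set (sdiff_subset.trans (Ioc_subset_Ioc_left (hsb.trans hba)))
  have s1 : ∫ τ in Ioc s t \ good W T u h, wt ν M h G m f τ
      = (∫ τ in Ioc s b \ good W T u h, wt ν M h G m f τ)
        + (∫ τ in Ioc b a \ good W T u h, wt ν M h G m f τ)
        + ∫ τ in Ioc a t \ good W T u h, wt ν M h G m f τ := by
    rw [u1, setIntegral_union ?_ (measurableSet_Ioc.diff hAm) (i1.union i2) i3,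
      setIntegral_union ?_ (measurableSet_Ioc.diff hAm) i1 i2]
    · rw [Set.disjoint_left]
      rintro x ⟨h1, _⟩ ⟨h2, _⟩
      exact absurd h1.2 (not_le.mpr h2.1)
    · rw [Set.disjoint_left]
      rintro x h1 ⟨h2, _⟩
      rcases h1 with ⟨h3, _⟩ | ⟨h3, _⟩
      · exact absurd (h3.2.trans hba) (not_le.mpr h2.1)
      · exact absurd h3.2 (not_le.mpr h2.1)
  rw [s1, ← c1, ← c2]
  calc |defect ν u G f t - defect ν u G f s|
      = |(defect ν u G f t - defect ν u G f a) + (defect ν u G f a - defect ν u G f b)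
          + (defect ν u G f b - defect ν u G f s)| := by congr 1; ring
    _ ≤ |defect ν u G f t - defect ν u G f a| + |defect ν u G f a - defect ν u G f b|
          + |defect ν u G f b - defect ν u G f s| := by
        refine (abs_add_le _ _).trans ?_
        gcongr
        exact abs_add_le _ _
    _ ≤ _ := by linarith

/-- **Main estimate.** The energy defect is bounded by `h * ∫_{‖G‖ > h} ‖m‖ + o(1)`. -/
theorem lam (S : Sol W T M ν u G m f) {s t : ℝ} (h0 : 0 ≤ s) (hst : s ≤ t) (hT : t ≤ T)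
    (ε : ℝ) (hε : 0 < ε) :
    ∃ h0 : ℝ, ∀ h ≥ h0, |defect ν u G f t - defect ν u G f s|
      ≤ h * (∫ τ in Ioc s t ∩ {τ | h < ‖G τ‖}, ‖m τ‖) + ε := by
  rcases hst.eq_or_lt with rfl | hlt
  · refine ⟨0, fun h hh => ?_⟩
    simp [hε.le]
  have hsub : Ioc s t ⊆ Ioc 0 T := Ioc_subset_Ioc h0 hT
  have hsI : s ∈ Icc 0 T := ⟨h0, hst.trans hT⟩
  have htI : t ∈ Icc 0 T := ⟨h0.trans hst, hT⟩
  -- weak continuity radii
  have wc1 := S.wcont (u s) s hsI
  have wc2 := S.wcont (u t) t htI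
  obtain ⟨δ1, hδ1, hw1⟩ := Metric.continuousWithinAt_iff.mp wc1 (ε / 2) (by linarith)
  obtain ⟨δ2, hδ2, hw2⟩ := Metric.continuousWithinAt_iff.mp wc2 (ε / 2) (by linarith)
  -- good points near the ends
  let mid := (s + t) / 2
  obtain ⟨τ1, hτ1, l1, hl1⟩ := S.exists_good (a := s) (b := min (s + δ1) mid) h0
    (lt_min (by linarith) (by simp only [mid]; linarith))
    ((min_le_right _ _).trans (by simp only [mid]; linarith))
  obtain ⟨τ2, hτ2, l2, hl2⟩ := S.exists_good (a := max (t - δ2) mid) (b := t)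
    (le_max_of_le_right (by simp only [mid]; linarith))
    (max_lt (by linarith) (by simp only [mid]; linarith)) hT
  -- tail integrals
  have htail : Tendsto (fun h : ℝ => ∫ τ in Ioc s t,
      ({τ | h < ‖G τ‖}.indicator (fun τ => 2 * ν * ‖G τ‖ ^ 2 + 2 * M * ‖f τ‖)) τ) atTop
      (𝓝 (∫ τ in Ioc s t, (0 : ℝ))) := by
    have hGm : AEStronglyMeasurable (fun τ => ‖G τ‖) (volume.restrict (Ioc s t)) :=
      (S.Gmeas.mono_measure (Measure.restrict_mono hsub le_rfl)).norm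
    have hint : IntegrableOn (fun τ => 2 * ν * ‖G τ‖ ^ 2 + 2 * M * ‖f τ‖) (Ioc s t) volume :=
      IntegrableOn.mono_set ((S.G2.const_mul (2 * ν)).add (S.fint.norm.const_mul (2 * M))) hsub
    refine tendsto_integral_filter_of_dominated_convergence
      (fun τ => 2 * ν * ‖G τ‖ ^ 2 + 2 * M * ‖f τ‖) ?_ ?_ hint ?_
    · refine Eventually.of_forall (fun h => ?_)
      have hset : NullMeasurableSet {τ | h < ‖G τ‖} (volume.restrict (Ioc s t)) :=
        nullMeasurableSet_lt aemeasurable_const hGm.aemeasurable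
      exact hint.aestronglyMeasurable.indicator₀ hset
    · refine Eventually.of_forall (fun h => Eventually.of_forall (fun τ => ?_))
      have hnn : 0 ≤ 2 * ν * ‖G τ‖ ^ 2 + 2 * M * ‖f τ‖ :=
        add_nonneg (mul_nonneg (mul_nonneg (by norm_num) S.ν0) (by positivity))
          (mul_nonneg (mul_nonneg (by norm_num) S.M0) (norm_nonneg _))
      rw [Real.norm_eq_abs]
      by_cases hτ : τ ∈ {τ | h < ‖G τ‖}
      · rw [indicator_of_mem hτ, abs_of_nonneg hnn]
      · rw [indicator_of_notMem hτ, abs_zero]; exact hnn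
    · refine Eventually.of_forall (fun τ => ?_)
      refine (tendsto_congr' ?_).mpr tendsto_const_nhds
      filter_upwards [eventually_ge_atTop ‖G τ‖] with h hh
      rw [indicator_of_notMem]
      simp [hh]
  have hev : ∀ᶠ h : ℝ in atTop, (∫ τ in Ioc s t,
      ({τ | h < ‖G τ‖}.indicator (fun τ => 2 * ν * ‖G τ‖ ^ 2 + 2 * M * ‖f τ‖)) τ) < ε / 2 := by
    have h1 := htail
    simp only [integral_zero] at h1
    exact h1.eventually (gt_mem_nhds (by linarith))
  obtain ⟨l3, hl3⟩ := eventually_atTop.mp hev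
  refine ⟨max (max l1 l2) (max l3 0), fun h hh => ?_⟩
  have hh1 : l1 ≤ h := (le_max_left _ _).trans ((le_max_left _ _).trans hh)
  have hh2 : l2 ≤ h := (le_max_right _ _).trans ((le_max_left _ _).trans hh)
  have hh3 : l3 ≤ h := (le_max_left _ _).trans ((le_max_right _ _).trans hh)
  have hh4 : 0 ≤ h := (le_max_right _ _).trans ((le_max_right _ _).trans hh)
  have g1 := hl1 h hh1
  have g2 := hl2 h hh2
  have hA := S.good_closed h
  have hs1 : s < τ1 := hτ1.1
  have ht2 : τ2 < t := hτ2.2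
  have h12 : τ1 < τ2 :=
    (hτ1.2.trans_le (min_le_right _ _)).trans_le ((le_max_right _ _).trans hτ2.1.le)
  -- b = first good time after s, a = last good time before t
  have hb := nxt_mem hA g1 hs1.le
  have ha := prv_mem hA g2 ht2.le
  have hbτ : nxt (good W T u h) s ≤ τ1 := nxt_le g1 hs1.le
  have haτ : τ2 ≤ prv (good W T u h) t := le_prv g2 ht2.le
  have hba : nxt (good W T u h) s ≤ prv (good W T u h) t := by linarith
  have hbr := S.defect_bridge (h := h) h0 hT hb.2 hba ha.2 ha.1 hb.1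
    (fun x hx hxg => by
      have := nxt_le hxg hx.1.le
      linarith [hx.2])
    (fun x hx hxg => by
      have := le_prv hxg hx.2.le
      linarith [hx.1])
  have p1 : |⟪u (nxt (good W T u h) s) - u s, u s⟫_ℝ| < ε / 2 := by
    have := hw1 (x := nxt (good W T u h) s) hb.1.1 (by
      rw [Real.dist_eq, abs_lt]
      have h3 := hτ1.2.trans_le (min_le_left _ _)
      constructor <;> linarith [hb.2])
    rw [Real.dist_eq] at this
    rwa [inner_sub_left]
  have p2 : |⟪u (prv (good W T u h) t) - u t, u t⟫_ℝ| < ε / 2 := by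
    have := hw2 (x := prv (good W T u h) t) ha.1.1 (by
      rw [Real.dist_eq, abs_lt]
      have h3 := (le_max_left _ _).trans_lt hτ2.1
      constructor <;> linarith [ha.2])
    rw [Real.dist_eq] at this
    rwa [inner_sub_left]
  -- the weight integral
  have hmem : ∀ᵐ τ ∂(volume.restrict (Ioc s t)), (u τ, G τ) ∈ W :=
    ae_mono (Measure.restrict_mono hsub le_rfl) S.memW
  have hwint : IntegrableOn (wt ν M h G m f) (Ioc s t) volume :=
    IntegrableOn.mono_set (S.wt_int h) hsub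
  have hmint : IntegrableOn (fun τ => ‖m τ‖) (Ioc s t) volume :=
    IntegrableOn.mono_set S.mint.norm hsub
  have hint : IntegrableOn (fun τ => 2 * ν * ‖G τ‖ ^ 2 + 2 * M * ‖f τ‖) (Ioc s t) volume :=
    IntegrableOn.mono_set ((S.G2.const_mul (2 * ν)).add (S.fint.norm.const_mul (2 * M))) hsub
  have hset : NullMeasurableSet {τ | h < ‖G τ‖} (volume.restrict (Ioc s t)) :=
    nullMeasurableSet_lt aemeasurable_const
      (S.Gmeas.mono_measure (Measure.restrict_mono hsub le_rfl)).norm.aemeasurable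
  have hfin : (∫ τ in Ioc s t \ good W T u h, wt ν M h G m f τ)
      ≤ h * (∫ τ in Ioc s t ∩ {τ | h < ‖G τ‖}, ‖m τ‖) + ∫ τ in Ioc s t,
      ({τ | h < ‖G τ‖}.indicator (fun τ => 2 * ν * ‖G τ‖ ^ 2 + 2 * M * ‖f τ‖)) τ := by
    have e1 : (∫ τ in Ioc s t \ good W T u h, wt ν M h G m f τ)
        = ∫ τ in Ioc s t, (good W T u h)ᶜ.indicator (wt ν M h G m f) τ := by
      rw [setIntegral_indicator hA.measurableSet.compl]
      rfl
    have e2 : (∫ τ in Ioc s t ∩ {τ | h < ‖G τ‖}, ‖m τ‖)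
        = ∫ τ in Ioc s t, ({τ | h < ‖G τ‖}.indicator (fun τ => ‖m τ‖)) τ := by
      rw [integral_indicator₀ hset, Measure.restrict_restrict₀ hset, inter_comm]
    rw [e1, e2, ← integral_const_mul, ← integral_add
      ((hmint.indicator₀ hset).const_mul h) (hint.indicator₀ hset)]
    refine integral_mono_ae (hwint.indicator hA.measurableSet.compl)
      (((hmint.indicator₀ hset).const_mul h).add (hint.indicator₀ hset)) ?_
    filter_upwards [hmem, ae_restrict_mem measurableSet_Ioc] with τ k1 k2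
    by_cases hτ : h < ‖G τ‖
    · have hτ' : τ ∈ {τ | h < ‖G τ‖} := hτ
      rw [indicator_of_mem hτ', indicator_of_mem hτ']
      have hnn : 0 ≤ wt ν M h G m f τ := by
        unfold wt
        have n2 : 0 ≤ ν * h * ‖G τ‖ := mul_nonneg (mul_nonneg S.ν0 hh4) (norm_nonneg _)
        have n3 : 0 ≤ 2 * M * ‖f τ‖ := mul_nonneg (mul_nonneg (by norm_num) S.M0) (norm_nonneg _)
        have n4 : 0 ≤ ν * ‖G τ‖ ^ 2 := mul_nonneg S.ν0 (by positivity)
        positivity
      refine (indicator_le_self' (fun _ _ => hnn) τ).trans ?_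
      unfold wt
      have n2 : ν * h * ‖G τ‖ ≤ ν * ‖G τ‖ ^ 2 := by
        have := mul_le_mul_of_nonneg_right hτ.le (norm_nonneg (G τ))
        have := mul_le_mul_of_nonneg_left this S.ν0
        nlinarith
      linarith
    · have hg : τ ∈ good W T u h :=
        ⟨Ioc_subset_Icc_self (hsub k2), G τ, not_lt.mp hτ, k1⟩
      have hg' : τ ∉ (good W T u h)ᶜ := fun hc => hc hg
      have hτ' : τ ∉ {τ | h < ‖G τ‖} := hτ
      rw [indicator_of_notMem hg', indicator_of_notMem hτ', indicator_of_notMem hτ']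
      simp
  have := hl3 h hh3
  linarith

end Sol

end H772R2.NS
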