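import Mathlib

/-!
A du Bois-Reymond lemma: a continuous function with integrable weak derivative.
-/

set_option linter.unusedSectionVars false

open MeasureTheory Set Filter Topology
open scoped InnerProductSpace ENNReal ContDiff NNReal

namespace H772R2.NS

theorem exists_enclosing {K : Set ℝ} (hK : IsCompact K) {T : ℝ} (hT : 0 < T)
    (hsub : K ⊆ Ioo 0 T) : ∃ α β, 0 < α ∧ β < T ∧ K ⊆ Ioo α β := by
  rcases K.eq_empty_or_nonempty with rfl | hne
  · exact ⟨T / 3, T / 2, by positivity, by linarith, by simp⟩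
  · have h1 := hsub (hK.sInf_mem hne)
    have h2 := hsub (hK.sSup_mem hne)
    refine ⟨sInf K / 2, (sSup K + T) / 2, by linarith [h1.1], by linarith [h2.2], ?_⟩
    intro x hx
    have h3 := csInf_le hK.bddBelow hx
    have h4 := le_csSup hK.bddAbove hx
    constructor
    · linarith [h1.1]
    · linarith [h2.2]

/-- antiderivative test function -/
theorem exists_antideriv {η : ℝ → ℝ} (hη : ContDiff ℝ ∞ η) {α β T : ℝ} (hα : 0 < α) (hβ : β < T)
    (hαβ : α < β) (hs : ∀ x, x ∉ Ioo α β → η x = 0) (h0 : ∫ x, η x = 0) :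
    ∃ θ : ℝ → ℝ, ContDiff ℝ ∞ θ ∧ HasCompactSupport θ ∧ tsupport θ ⊆ Ioo 0 T ∧
      ∀ x, deriv θ x = η x := by
  have hc : Continuous η := hη.continuous
  let θ : ℝ → ℝ := fun x => ∫ y in (0 : ℝ)..x, η y
  have hd : ∀ x, HasDerivAt θ (η x) x := fun x =>
    intervalIntegral.integral_hasDerivAt_right (hc.intervalIntegrable _ _)
      (hc.stronglyMeasurableAtFilter _ _) hc.continuousAt
  have hderiv : deriv θ = η := funext (fun x => (hd x).deriv)
  have hleft : ∀ x ≤ α, θ x = 0 := by
    intro x hx
    apply intervalIntegral.integral_zero_ae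
    refine Eventually.of_forall (fun y hy => ?_)
    apply hs
    rintro ⟨h1, _⟩
    rcases le_total 0 x with h | h
    · rw [uIoc_of_le h] at hy
      linarith [hy.2]
    · rw [uIoc_of_ge h] at hy
      linarith [hy.2]
  have hright : ∀ x, β ≤ x → θ x = 0 := by
    intro x hx
    show ∫ y in (0 : ℝ)..x, η y = 0
    rw [intervalIntegral.integral_eq_integral_of_support_subset, h0]
    intro y hy
    have : y ∈ Ioo α β := by
      by_contra hcon
      exact hy (hs y hcon)
    exact ⟨by linarith [this.1], by linarith [this.2]⟩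
  have hsupp : Function.support θ ⊆ Icc α β := by
    intro x hx
    constructor
    · by_contra h
      exact hx (hleft x (by linarith))
    · by_contra h
      exact hx (hright x (by linarith))
  have htsupp : tsupport θ ⊆ Icc α β := closure_minimal hsupp isClosed_Icc
  refine ⟨θ, ?_, ?_, ?_, fun x => (hd x).deriv⟩
  · rw [contDiff_infty_iff_deriv]
    exact ⟨fun x => (hd x).differentiableAt, by rw [hderiv]; exact hη⟩
  · exact HasCompactSupport.of_support_subset_isCompact isCompact_Icc hsupp
  · intro x hx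
    have := htsupp hx
    exact ⟨by linarith [this.1], by linarith [this.2]⟩

/-- a continuous function with vanishing weak derivative is constant. -/
theorem const_of_weak_deriv_zero {g : ℝ → ℝ} {T : ℝ} (hT : 0 < T) (hg : ContinuousOn g (Icc 0 T))
    (h : ∀ θ : ℝ → ℝ, ContDiff ℝ ∞ θ → HasCompactSupport θ → tsupport θ ⊆ Ioo 0 T →
      ∫ t in Ioo 0 T, deriv θ t * g t = 0) :
    ∃ c, ∀ t ∈ Icc 0 T, g t = c := by
  let ρb : ContDiffBump (T / 2 : ℝ) := ⟨T / 8, T / 4, by positivity, by linarith⟩
  let ρ : ℝ → ℝ := ρb.normed volume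
  have hρ1 : ContDiff ℝ ∞ ρ := ρb.contDiff_normed
  have hρs : ∀ x, x ∉ Ioo (T / 8) (7 * T / 8) → ρ x = 0 := by
    intro x hx
    by_contra hne
    have h1 : x ∈ Function.support (ρb.normed (volume : Measure ℝ)) := hne
    rw [ρb.support_normed_eq] at h1
    apply hx
    rw [Metric.mem_ball, Real.dist_eq, abs_lt] at h1
    have h2 : ρb.rOut = T / 4 := rfl
    rw [h2] at h1
    constructor <;> linarith [h1.1, h1.2]
  have hρi : ∫ x, ρ x = 1 := ρb.integral_normed
  have hgi : IntegrableOn g (Ioo 0 T) volume :=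
    (hg.integrableOn_Icc).mono_set Ioo_subset_Icc_self
  have hcg : ∀ ψ : ℝ → ℝ, Continuous ψ → IntegrableOn (fun t => ψ t * g t) (Ioo 0 T) volume := by
    intro ψ hψ
    have : ContinuousOn (fun t => ψ t * g t) (Icc 0 T) := hψ.continuousOn.mul hg
    exact this.integrableOn_Icc.mono_set Ioo_subset_Icc_self
  let c : ℝ := ∫ t in Ioo 0 T, ρ t * g t
  refine ⟨c, ?_⟩
  have key : ∀ ψ : ℝ → ℝ, ContDiff ℝ ∞ ψ → HasCompactSupport ψ → tsupport ψ ⊆ Ioo 0 T →
      ∫ t in Ioo 0 T, ψ t * (g t - c) = 0 := by
    intro ψ h1 h2 h3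
    obtain ⟨α, β, hα, hβ, hsub⟩ := exists_enclosing h2.isCompact hT h3
    let a : ℝ := ∫ x, ψ x
    let η : ℝ → ℝ := fun x => ψ x - a * ρ x
    have hη : ContDiff ℝ ∞ η := h1.sub (contDiff_const.mul hρ1)
    have hψi : Integrable ψ := h1.continuous.integrable_of_hasCompactSupport h2
    have hρint : Integrable ρ := by
      have : HasCompactSupport ρ := ρb.hasCompactSupport_normed
      exact hρ1.continuous.integrable_of_hasCompactSupport this
    obtain ⟨θ, t1, t2, t3, t4⟩ := exists_antideriv hη (α := min α (T / 8))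
      (β := max β (7 * T / 8)) (T := T) (lt_min hα (by positivity)) (max_lt hβ (by linarith))
      (by
        have h5 : min α (T / 8) ≤ T / 8 := min_le_right _ _
        have h6 : 7 * T / 8 ≤ max β (7 * T / 8) := le_max_right _ _
        linarith)
      (by
        intro x hx
        have e1 : ψ x = 0 := by
          apply image_eq_zero_of_notMem_tsupport
          intro hc
          have := hsub hc
          exact hx ⟨(min_le_left _ _).trans_lt this.1, this.2.trans_le (le_max_left _ _)⟩
        have e2 : ρ x = 0 := by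
          apply hρs
          intro hc
          exact hx ⟨(min_le_right _ _).trans_lt hc.1, hc.2.trans_le (le_max_right _ _)⟩
        simp only [η, e1, e2]; ring)
      (by
        simp only [η]
        rw [integral_sub hψi (hρint.const_mul a), integral_const_mul, hρi]
        simp [a])
    have h4 := h θ t1 t2 t3
    simp only [t4] at h4
    have e3 : ∫ t in Ioo 0 T, η t * g t
        = (∫ t in Ioo 0 T, ψ t * g t) - a * c := by
      have : ∀ t, η t * g t = ψ t * g t - a * (ρ t * g t) := fun t => by simp only [η]; ring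
      simp_rw [this]
      rw [integral_sub (hcg ψ h1.continuous) ((hcg ρ hρ1.continuous).const_mul a),
        integral_const_mul]
    have e4 : ∫ t in Ioo 0 T, ψ t * (g t - c) = (∫ t in Ioo 0 T, ψ t * g t) - a * c := by
      have : ∀ t, ψ t * (g t - c) = ψ t * g t - ψ t * c := fun t => by ring
      simp_rw [this]
      rw [integral_sub (hcg ψ h1.continuous) (hψi.integrableOn.mul_const c),
        integral_mul_const]
      congr 2
      apply setIntegral_eq_integral_of_forall_compl_eq_zero
      intro x hx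
      exact image_eq_zero_of_notMem_tsupport (fun hc => hx (h3 hc))
    rw [e4, ← e3]
    exact h4
  have hloc : LocallyIntegrableOn (fun t => g t - c) (Ioo 0 T) volume := by
    apply ContinuousOn.locallyIntegrableOn _ measurableSet_Ioo
    exact (hg.mono Ioo_subset_Icc_self).sub continuousOn_const
  have hae := isOpen_Ioo.ae_eq_zero_of_integral_contDiff_smul_eq_zero hloc (fun ψ g1 g2 g3 => by
    rw [← key ψ g1 g2 g3]
    symm
    apply setIntegral_eq_integral_of_forall_compl_eq_zero
    intro x hx
    have : ψ x = 0 := image_eq_zero_of_notMem_tsupport (fun hc => hx (g3 hc))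
    rw [this, zero_mul])
  have hae2 : g =ᵐ[volume.restrict (Icc 0 T)] fun _ => c := by
    have : (volume.restrict (Icc 0 T) : Measure ℝ) = volume.restrict (Ioo 0 T) :=
      Measure.restrict_congr_set Ioo_ae_eq_Icc.symm
    rw [this, EventuallyEq, ae_restrict_iff' measurableSet_Ioo]
    filter_upwards [hae] with x hx hxI
    have := hx hxI
    linarith
  have := Measure.eqOn_of_ae_eq hae2 hg continuousOn_const (by
    rw [interior_Icc, closure_Ioo hT.ne])
  intro t ht
  exact this ht

/-- du Bois-Reymond lemma. -/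
theorem sub_eq_of_weak_deriv {g F : ℝ → ℝ} {T : ℝ} (hT : 0 < T) (hg : ContinuousOn g (Icc 0 T))
    (hF : IntegrableOn F (Ioo 0 T) volume)
    (h : ∀ θ : ℝ → ℝ, ContDiff ℝ ∞ θ → HasCompactSupport θ → tsupport θ ⊆ Ioo 0 T →
      ∫ t in Ioo 0 T, (deriv θ t * g t + θ t * F t) = 0)
    {s t : ℝ} (hs : 0 ≤ s) (hst : s ≤ t) (ht : t ≤ T) :
    g t - g s = ∫ τ in s..t, F τ := by
  have hI : uIcc 0 T = Icc 0 T := uIcc_of_le hT.le
  have hF' : IntervalIntegrable F volume 0 T := by
    rw [intervalIntegrable_iff_integrableOn_Ioc_of_le hT.le]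
    exact hF.congr_set_ae Ioo_ae_eq_Ioc.symm
  let P : ℝ → ℝ := fun x => ∫ τ in (0 : ℝ)..x, F τ
  have hPac : AbsolutelyContinuousOnInterval P 0 T :=
    hF'.absolutelyContinuousOnInterval_intervalIntegral (by rw [hI]; exact ⟨le_rfl, hT.le⟩)
  have hPc : ContinuousOn P (Icc 0 T) := by
    have := hPac.continuousOn
    rwa [hI] at this
  have hPd : ∀ᵐ x, x ∈ Icc 0 T → deriv P x = F x := by
    filter_upwards [hF'.ae_hasDerivAt_integral] with x hx hxI
    exact (hx (by rwa [hI]) 0 (by rw [hI]; exact ⟨le_rfl, hT.le⟩)).deriv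
  have hconst := const_of_weak_deriv_zero hT (hg.sub hPc) (fun θ t1 t2 t3 => by
    have h1 := h θ t1 t2 t3
    have hθc : Continuous θ := t1.continuous
    have hθd : Continuous (deriv θ) := t1.continuous_deriv (by simp)
    have hθac : AbsolutelyContinuousOnInterval θ 0 T :=
      ((t1.of_le (by simp) : ContDiff ℝ 1 θ).contDiffOn).absolutelyContinuousOnInterval
    have hθ0 : θ 0 = 0 := by
      apply image_eq_zero_of_notMem_tsupport
      intro hc
      exact absurd (t3 hc).1 (lt_irrefl _)
    have hθT : θ T = 0 := by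
      apply image_eq_zero_of_notMem_tsupport
      intro hc
      exact absurd (t3 hc).2 (lt_irrefl _)
    have hibp := AbsolutelyContinuousOnInterval.integral_mul_deriv_eq_deriv_mul hPac hθac
    rw [hθ0, hθT, mul_zero, mul_zero, sub_zero, zero_sub,
      intervalIntegral.integral_of_le hT.le, intervalIntegral.integral_of_le hT.le,
      integral_Ioc_eq_integral_Ioo, integral_Ioc_eq_integral_Ioo] at hibp
    have e1 : ∫ x in Ioo 0 T, deriv P x * θ x = ∫ x in Ioo 0 T, θ x * F x := by
      apply integral_congr_ae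
      rw [EventuallyEq, ae_restrict_iff' measurableSet_Ioo]
      filter_upwards [hPd] with x hx hxI
      rw [hx (Ioo_subset_Icc_self hxI)]
      ring
    have i1 : IntegrableOn (fun t => deriv θ t * g t) (Ioo 0 T) volume := by
      have : ContinuousOn (fun t => deriv θ t * g t) (Icc 0 T) := hθd.continuousOn.mul hg
      exact this.integrableOn_Icc.mono_set Ioo_subset_Icc_self
    have i2 : IntegrableOn (fun t => θ t * F t) (Ioo 0 T) volume := by
      obtain ⟨C, hC⟩ := t2.exists_bound_of_continuous hθc
      exact Integrable.bdd_mul hF hθc.aestronglyMeasurable (Eventually.of_forall hC)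
    have i3 : IntegrableOn (fun t => P t * deriv θ t) (Ioo 0 T) volume := by
      have : ContinuousOn (fun t => P t * deriv θ t) (Icc 0 T) := hPc.mul hθd.continuousOn
      exact this.integrableOn_Icc.mono_set Ioo_subset_Icc_self
    rw [integral_add i1 i2] at h1
    have e2 : ∀ t, deriv θ t * (g - P) t = deriv θ t * g t - P t * deriv θ t := fun t => by
      simp only [Pi.sub_apply]; ring
    simp_rw [e2]
    rw [integral_sub i1 i3, hibp, e1]
    linarith)
  obtain ⟨c, hc⟩ := hconst
  have c1 := hc t ⟨hs.trans hst, ht⟩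
  have c2 := hc s ⟨hs, hst.trans ht⟩
  simp only [Pi.sub_apply] at c1 c2
  have j1 : IntervalIntegrable F volume 0 s := hF'.mono_set (by
    rw [hI, uIcc_of_le hs]; exact Icc_subset_Icc_right (hst.trans ht))
  have j2 : IntervalIntegrable F volume s t := hF'.mono_set (by
    rw [hI, uIcc_of_le hst]; exact Icc_subset_Icc hs ht)
  have := intervalIntegral.integral_add_adjacent_intervals j1 j2
  simp only [P] at c1 c2
  linarith

end H772R2.NS
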