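import Mathlib
import Pool.Agent.H772R2.NS.Space3
import Pool.Agent.H772R2.NS.Time
import Pool.Agent.H772R2.NS.Sard
import Pool.Agent.H772R2.NS.Lam

/-!
Weak solutions of the Navier-Stokes equations are abstract weak solutions.
-/

set_option linter.unusedSectionVars false

open MeasureTheory Set Filter Topology
open scoped InnerProductSpace ENNReal ContDiff NNReal

namespace H772R2.NS

variable {Ω : Set E3} {ν T : ℝ} {u : ℝ → L2V Ω} {G : ℝ → L2M Ω} {f : ℝ → L2V Ω}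

theorem restrict_Ioc_eq (T : ℝ) :
    (volume.restrict (Ioc 0 T) : Measure ℝ) = volume.restrict (Ioo 0 T) :=
  Measure.restrict_congr_set Ioo_ae_eq_Ioc.symm

theorem IsWeakSolution.m_meas (hΩ : IsOpen Ω) (h : IsWeakSolution Ω ν T u G f) :
    AEStronglyMeasurable (fun t => tensL (u t)) (volume.restrict (Ioo 0 T)) :=
  aestronglyMeasurable_tensL hΩ.measurableSet h.meas h.gradL2.aestronglyMeasurable
    (by filter_upwards [h.grad] with t ht; exact mem_graphW.mpr ht)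

theorem norm_tensL_le (hΩ : IsOpen Ω) {p : L2V Ω × L2M Ω} (hp : p ∈ graphW Ω) {M : ℝ}
    (hM : ‖p.1‖ ≤ M) : ‖tensL p.1‖ ≤ Real.sqrt ((CS : ℝ) ^ 3 * M) * (1 + ‖p.2‖ ^ 2) := by
  have h1 := norm_tensL_sq_le hΩ.measurableSet hp
  have hM0 : 0 ≤ M := (norm_nonneg _).trans hM
  have hK : 0 ≤ (CS : ℝ) ^ 3 * M := by positivity
  have h2 : ‖p.2‖ ^ 3 ≤ (1 + ‖p.2‖ ^ 2) ^ 2 := by
    have hn := norm_nonneg p.2
    nlinarith [sq_nonneg (‖p.2‖ - 1), sq_nonneg (‖p.2‖ ^ 2), mul_nonneg hn (sq_nonneg (‖p.2‖ - 1)),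
      sq_nonneg ‖p.2‖]
  have h3 : ‖tensL p.1‖ ^ 2 ≤ (Real.sqrt ((CS : ℝ) ^ 3 * M) * (1 + ‖p.2‖ ^ 2)) ^ 2 := by
    rw [mul_pow, Real.sq_sqrt hK]
    calc ‖tensL p.1‖ ^ 2 ≤ (CS : ℝ) ^ 3 * (‖p.1‖ * ‖p.2‖ ^ 3) := h1
      _ ≤ (CS : ℝ) ^ 3 * (M * (1 + ‖p.2‖ ^ 2) ^ 2) := by gcongr
      _ = _ := by ring
  exact (pow_le_pow_iff_left₀ (norm_nonneg _) (by positivity) (by norm_num)).mp h3

theorem IsWeakSolution.m_int (hΩ : IsOpen Ω) (h : IsWeakSolution Ω ν T u G f) :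
    Integrable (fun t => tensL (u t)) (volume.restrict (Ioo 0 T)) := by
  obtain ⟨M, hM⟩ := h.bdd
  have hG2 : Integrable (fun t => ‖G t‖ ^ 2) (volume.restrict (Ioo 0 T)) :=
    (memLp_two_iff_integrable_sq_norm h.gradL2.aestronglyMeasurable).mp h.gradL2
  refine Integrable.mono' (g := fun t => Real.sqrt ((CS : ℝ) ^ 3 * M) * (1 + ‖G t‖ ^ 2)) ?_
    (h.m_meas hΩ) ?_
  · refine ((integrable_const _).add hG2).const_mul _
  · filter_upwards [h.grad, ae_restrict_mem measurableSet_Ioo] with t ht htI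
    exact norm_tensL_le hΩ (p := (u t, G t)) (mem_graphW.mpr ht) (hM t (Ioo_subset_Icc_self htI))

/-- weak form for test pairs. -/
theorem IsWeakSolution.weak_test (hΩ : IsOpen Ω) (hT : 0 < T) (h : IsWeakSolution Ω ν T u G f)
    {p : L2V Ω × L2M Ω} (hp : p ∈ preW Ω) {s t : ℝ} (hs : 0 ≤ s) (hst : s ≤ t) (ht : t ≤ T) :
    ⟪u t, p.1⟫_ℝ - ⟪u s, p.1⟫_ℝ
      = ∫ τ in s..t, (⟪tensL (u τ), p.2⟫_ℝ - ν * ⟪G τ, p.2⟫_ℝ + ⟪f τ, p.1⟫_ℝ) := by
  obtain ⟨φ, k1, k2, k3⟩ := hp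
  have hG : Integrable G (volume.restrict (Ioo 0 T)) := h.gradL2.integrable (by norm_num)
  refine sub_eq_of_weak_deriv (g := fun t => ⟪u t, p.1⟫_ℝ) hT (h.wcont p.1) ?_ ?_ hs hst ht
  · exact (((h.m_int hΩ).inner_const p.2).sub ((hG.inner_const p.2).const_mul ν)).add
      (h.force.inner_const p.1)
  · intro θ t1 t2 t3
    refine Eq.trans ?_ (h.eqn φ k1 θ t1 t2 t3)
    apply integral_congr_ae
    filter_upwards [h.grad] with τ hτ
    have hW : (u τ, G τ) ∈ graphW Ω := mem_graphW.mpr hτ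
    have e1 : ⟪u τ, p.1⟫_ℝ = ∫ x in Ω, ∑ i, u τ x i * φ x i := by
      rw [L2.inner_def]
      apply integral_congr_ae
      filter_upwards [k2] with x a
      rw [a, inner_E3]
    have e2 : ⟪f τ, p.1⟫_ℝ = ∫ x in Ω, ∑ i, f τ x i * φ x i := by
      rw [L2.inner_def]
      apply integral_congr_ae
      filter_upwards [k2] with x a
      rw [a, inner_E3]
    have e3 : ⟪G τ, p.2⟫_ℝ = ∫ x in Ω, ∑ i, ∑ j, G τ x (i, j) * jac φ x (i, j) := by
      rw [L2.inner_def]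
      apply integral_congr_ae
      filter_upwards [k3] with x a
      rw [a, inner_M3]
    have e4 : ⟪tensL (u τ), p.2⟫_ℝ
        = ∫ x in Ω, ∑ i, ∑ j, u τ x i * u τ x j * jac φ x (i, j) := by
      rw [L2.inner_def]
      apply integral_congr_ae
      filter_upwards [k3, tensL_coe hΩ.measurableSet hW] with x a b
      rw [a, b, inner_M3]
      rfl
    rw [e1, e2, e3, e4]
    ring

/-- weak form for all pairs in the graph of the gradient. -/
theorem IsWeakSolution.weak_all (hΩ : IsOpen Ω) (hT : 0 < T) (h : IsWeakSolution Ω ν T u G f)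
    {p : L2V Ω × L2M Ω} (hp : p ∈ graphW Ω) {s t : ℝ} (hs : 0 ≤ s) (hst : s ≤ t) (ht : t ≤ T) :
    ⟪u t, p.1⟫_ℝ - ⟪u s, p.1⟫_ℝ
      = ∫ τ in s..t, (⟪tensL (u τ), p.2⟫_ℝ - ν * ⟪G τ, p.2⟫_ℝ + ⟪f τ, p.1⟫_ℝ) := by
  have hG : Integrable G (volume.restrict (Ioo 0 T)) := h.gradL2.integrable (by norm_num)
  have hsub : Ioc s t ⊆ Ioc 0 T := Ioc_subset_Ioc hs ht
  have conv : ∀ {X : Type} [NormedAddCommGroup X] (g : ℝ → X),
      Integrable g (volume.restrict (Ioo 0 T)) → IntegrableOn g (Ioc s t) volume := by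
    intro X _ g hg
    have : IntegrableOn g (Ioc 0 T) volume := by
      rw [IntegrableOn, restrict_Ioc_eq]; exact hg
    exact this.mono_set hsub
  have im := conv _ (h.m_int hΩ)
  have iG := conv _ hG
  have iF := conv _ h.force
  have hrw : ∀ p : L2V Ω × L2M Ω,
      ∫ τ in s..t, (⟪tensL (u τ), p.2⟫_ℝ - ν * ⟪G τ, p.2⟫_ℝ + ⟪f τ, p.1⟫_ℝ)
      = ⟪p.2, ∫ τ in Ioc s t, tensL (u τ)⟫_ℝ - ν * ⟪p.2, ∫ τ in Ioc s t, G τ⟫_ℝ
        + ⟪p.1, ∫ τ in Ioc s t, f τ⟫_ℝ := by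
    intro p
    rw [intervalIntegral.integral_of_le hst, ← integral_inner im, ← integral_inner iG,
      ← integral_inner iF, ← integral_const_mul, ← integral_sub, ← integral_add]
    · apply integral_congr_ae
      refine Eventually.of_forall (fun τ => ?_)
      simp only
      rw [real_inner_comm p.2 (tensL (u τ)), real_inner_comm p.2 (G τ), real_inner_comm p.1 (f τ)]
    · exact (im.const_inner p.2).sub ((iG.const_inner p.2).const_mul ν)
    · exact iF.const_inner p.1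
    · exact im.const_inner p.2
    · exact (iG.const_inner p.2).const_mul ν
  have hz := graphW_induction (fun p : L2V Ω × L2M Ω => ⟪u t, p.1⟫_ℝ - ⟪u s, p.1⟫_ℝ
      - (⟪p.2, ∫ τ in Ioc s t, tensL (u τ)⟫_ℝ - ν * ⟪p.2, ∫ τ in Ioc s t, G τ⟫_ℝ
        + ⟪p.1, ∫ τ in Ioc s t, f τ⟫_ℝ))
    (by fun_prop) (fun q hq => by
      have := h.weak_test hΩ hT hq hs hst ht
      rw [hrw] at this
      linarith) hp
  rw [hrw]
  linarith

/-- A weak solution of the Navier-Stokes equations is an abstract weak solution. -/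
theorem IsWeakSolution.toSol (hΩ : IsOpen Ω) (hν : 0 ≤ ν) (hT : 0 < T)
    (h : IsWeakSolution Ω ν T u G f) {M : ℝ} (hM : ∀ t ∈ Icc 0 T, ‖u t‖ ≤ M) :
    Sol (graphW Ω) T M ν u G (fun t => tensL (u t)) f where
  T0 := hT.le
  ν0 := hν
  closedW := graphW_closed Ω
  uniq := fun z hz => graphW_uniq hΩ z hz
  wcont := h.wcont
  bdd := hM
  umeas := by rw [restrict_Ioc_eq]; exact h.meas
  memW := by
    rw [restrict_Ioc_eq]
    filter_upwards [h.grad] with t ht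
    exact mem_graphW.mpr ht
  Gmeas := by rw [restrict_Ioc_eq]; exact h.gradL2.aestronglyMeasurable
  G2 := by
    rw [restrict_Ioc_eq]
    exact (memLp_two_iff_integrable_sq_norm h.gradL2.aestronglyMeasurable).mp h.gradL2
  fint := by rw [restrict_Ioc_eq]; exact h.force
  mint := by rw [restrict_Ioc_eq]; exact h.m_int hΩ
  ortho := by
    rw [restrict_Ioc_eq]
    filter_upwards [h.grad] with t ht
    exact inner_tensL_zero hΩ.measurableSet (p := (u t, G t)) (mem_graphW.mpr ht)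
  weak := fun p hp s t hs hst ht => h.weak_all hΩ hT hp hs hst ht

/-- the two forms of the energy defect agree. -/
theorem energyDefect_eq (hΩ : IsOpen Ω) (hν : 0 ≤ ν) (hT : 0 < T)
    (h : IsWeakSolution Ω ν T u G f) {t : ℝ} (ht : t ∈ Icc 0 T) :
    energyDefect ν u G f t = defect ν u G f t := by
  obtain ⟨M, hM⟩ := h.bdd
  have S := h.toSol hΩ hν hT hM
  unfold energyDefect defect pow
  have hsub : Ioc 0 t ⊆ Ioc 0 T := Ioc_subset_Ioc_right ht.2
  rw [intervalIntegral.integral_sub, intervalIntegral.integral_const_mul]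
  · ring
  · rw [intervalIntegrable_iff_integrableOn_Ioc_of_le ht.1]
    exact IntegrableOn.mono_set S.fu_int hsub
  · rw [intervalIntegrable_iff_integrableOn_Ioc_of_le ht.1]
    exact IntegrableOn.mono_set (S.G2.const_mul ν) hsub

theorem mem_H10sigma_iff {v : L2V Ω} : v ∈ H10sigma Ω ↔ ∃ z, (v, z) ∈ graphW Ω := by
  unfold H10sigma
  simp only [mem_graphW]
  rfl

end H772R2.NS
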