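import Mathlib
import Pool.Agent.H772R2.NS.Build

/-!
The bound of the energy defect by the enstrophy tails, in extended nonnegative reals, and its
consequences.
-/

set_option linter.unusedSectionVars false

open MeasureTheory Set Filter Topology
open scoped InnerProductSpace ENNReal ContDiff NNReal

namespace H772R2.NS

variable {Ω : Set E3} {ν T : ℝ} {u : ℝ → L2V Ω} {G : ℝ → L2M Ω} {f : ℝ → L2V Ω}

/-- The tail functional. -/
noncomputable def tail (Ω : Set E3) (u : ℝ → L2V Ω) (G : ℝ → L2M Ω) (s t h : ℝ) : ℝ≥0∞ :=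
  ENNReal.ofReal h * ∫⁻ τ in Ioo s t ∩ {τ | h < ‖G τ‖}, (eLpNorm (u τ) 4 (volume.restrict Ω)) ^ 2

theorem IsWeakSolution.defect_le_tail (hΩ : IsOpen Ω) (hν : 0 ≤ ν) (hT : 0 < T)
    (h : IsWeakSolution Ω ν T u G f) {s t : ℝ} (hs : 0 ≤ s) (hst : s ≤ t) (ht : t ≤ T) :
    ENNReal.ofReal |energyDefect ν u G f t - energyDefect ν u G f s|
      ≤ Filter.liminf (tail Ω u G s t) atTop := by
  obtain ⟨M, hM⟩ := h.bdd
  have S := h.toSol hΩ hν hT hM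
  rw [energyDefect_eq hΩ hν hT h ⟨hs.trans hst, ht⟩, energyDefect_eq hΩ hν hT h ⟨hs, hst.trans ht⟩]
  refine ENNReal.le_of_forall_pos_le_add (fun ε hε _ => ?_)
  rw [← tsub_le_iff_right]
  obtain ⟨h0, hh0⟩ := S.lam hs hst ht (ε : ℝ) (by exact_mod_cast hε)
  refine le_liminf_of_le (by isBoundedDefault) ?_
  filter_upwards [eventually_ge_atTop h0, eventually_ge_atTop 0] with r hr hr0
  rw [tsub_le_iff_right]
  have h1 := hh0 r hr
  have hsub : Ioc s t ⊆ Ioc 0 T := Ioc_subset_Ioc hs ht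
  have hint : Integrable (fun τ => tensL (u τ))
      (volume.restrict (Ioc s t ∩ {τ | r < ‖G τ‖})) :=
    (IntegrableOn.mono_set S.mint hsub).mono_set inter_subset_left
  have e1 : ENNReal.ofReal (∫ τ in Ioc s t ∩ {τ | r < ‖G τ‖}, ‖tensL (u τ)‖)
      = ∫⁻ τ in Ioo s t ∩ {τ | r < ‖G τ‖}, (eLpNorm (u τ) 4 (volume.restrict Ω)) ^ 2 := by
    rw [ofReal_integral_norm_eq_lintegral_enorm hint]
    have e2 : (volume.restrict (Ioc s t ∩ {τ | r < ‖G τ‖}) : Measure ℝ)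
        = volume.restrict (Ioo s t ∩ {τ | r < ‖G τ‖}) := by
      apply Measure.restrict_congr_set
      exact (Ioo_ae_eq_Ioc.symm).inter (ae_eq_refl _)
    rw [e2]
    apply lintegral_congr_ae
    have hsub2 : Ioo s t ∩ {τ | r < ‖G τ‖} ⊆ Ioo 0 T :=
      inter_subset_left.trans (Ioo_subset_Ioo hs ht)
    filter_upwards [ae_mono (Measure.restrict_mono hsub2 le_rfl) h.grad] with τ hτ
    exact enorm_tensL hΩ.measurableSet (p := (u τ, G τ)) (mem_graphW.mpr hτ)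
  calc ENNReal.ofReal |defect ν u G f t - defect ν u G f s|
      ≤ ENNReal.ofReal (r * (∫ τ in Ioc s t ∩ {τ | r < ‖G τ‖}, ‖tensL (u τ)‖) + ε) :=
        ENNReal.ofReal_le_ofReal h1
    _ ≤ ENNReal.ofReal (r * (∫ τ in Ioc s t ∩ {τ | r < ‖G τ‖}, ‖tensL (u τ)‖))
        + ENNReal.ofReal ε := ENNReal.ofReal_add_le
    _ = tail Ω u G s t r + ε := by
        rw [ENNReal.ofReal_mul hr0, e1, ENNReal.ofReal_coe_nnreal]
        rfl

theorem tail_mono {s t s' t' r : ℝ} (h1 : s ≤ s') (h2 : t' ≤ t) :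
    tail Ω u G s' t' r ≤ tail Ω u G s t r := by
  unfold tail
  gcongr

/-- If the tail functional on `(0,T)` has vanishing liminf, the energy equality holds. -/
theorem IsWeakSolution.eq_of_tail (hΩ : IsOpen Ω) (hν : 0 ≤ ν) (hT : 0 < T)
    (h : IsWeakSolution Ω ν T u G f) (h0 : Filter.liminf (tail Ω u G 0 T) atTop = 0) :
    ∀ t ∈ Icc 0 T, energyDefect ν u G f t = 0 := by
  intro t ht
  have h1 := h.defect_le_tail hΩ hν hT (s := 0) le_rfl ht.1 ht.2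
  have h2 : Filter.liminf (tail Ω u G 0 t) atTop ≤ Filter.liminf (tail Ω u G 0 T) atTop :=
    liminf_le_liminf (Eventually.of_forall (fun r => tail_mono le_rfl ht.2))
  rw [h0] at h2
  have h3 := (h1.trans h2)
  rw [nonpos_iff_eq_zero, ENNReal.ofReal_eq_zero] at h3
  have h4 : energyDefect ν u G f 0 = 0 := by simp [energyDefect]
  rw [h4, sub_zero] at h3
  exact abs_nonpos_iff.mp h3

/-- bound of the tail functional by the enstrophy tail -/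
theorem IsWeakSolution.tail_sq_le (hΩ : IsOpen Ω) (h : IsWeakSolution Ω ν T u G f) {M : ℝ}
    (hM : ∀ t ∈ Icc 0 T, ‖u t‖ ≤ M) {r : ℝ} (hr : 0 < r) :
    tail Ω u G 0 T r ≤ ENNReal.ofReal (Real.sqrt ((CS : ℝ) ^ 3 * M)) *
      (ENNReal.ofReal (Real.sqrt r) * ∫⁻ τ in Ioo 0 T ∩ {τ | r < ‖G τ‖}, ‖G τ‖ₑ ^ 2) := by
  unfold tail
  have e : ENNReal.ofReal r = ENNReal.ofReal (Real.sqrt r) * ENNReal.ofReal (Real.sqrt r) := by
    rw [← ENNReal.ofReal_mul (Real.sqrt_nonneg _), Real.mul_self_sqrt hr.le]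
  rw [e]
  rw [show ENNReal.ofReal (Real.sqrt r) * ENNReal.ofReal (Real.sqrt r)
      * (∫⁻ τ in Ioo 0 T ∩ {τ | r < ‖G τ‖}, (eLpNorm (u τ) 4 (volume.restrict Ω)) ^ 2)
      = ENNReal.ofReal (Real.sqrt r) * (ENNReal.ofReal (Real.sqrt r)
      * (∫⁻ τ in Ioo 0 T ∩ {τ | r < ‖G τ‖}, (eLpNorm (u τ) 4 (volume.restrict Ω)) ^ 2)) by ring,
    show ENNReal.ofReal (Real.sqrt ((CS : ℝ) ^ 3 * M)) *
      (ENNReal.ofReal (Real.sqrt r) * ∫⁻ τ in Ioo 0 T ∩ {τ | r < ‖G τ‖}, ‖G τ‖ₑ ^ 2)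
      = ENNReal.ofReal (Real.sqrt r) * (ENNReal.ofReal (Real.sqrt ((CS : ℝ) ^ 3 * M)) *
        ∫⁻ τ in Ioo 0 T ∩ {τ | r < ‖G τ‖}, ‖G τ‖ₑ ^ 2) by ring]
  refine mul_le_mul' le_rfl ?_
  rw [← lintegral_const_mul' _ _ ENNReal.ofReal_ne_top,
    ← lintegral_const_mul' _ _ ENNReal.ofReal_ne_top]
  have hGm : AEStronglyMeasurable (fun τ => ‖G τ‖) (volume.restrict (Ioo 0 T)) :=
    h.gradL2.aestronglyMeasurable.norm
  have hset : NullMeasurableSet {τ | r < ‖G τ‖} (volume.restrict (Ioo 0 T)) :=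
    nullMeasurableSet_lt aemeasurable_const hGm.aemeasurable
  have hmem : ∀ᵐ τ ∂(volume.restrict (Ioo 0 T ∩ {τ | r < ‖G τ‖})), r < ‖G τ‖ := by
    rw [inter_comm, ← Measure.restrict_restrict₀ hset]
    exact ae_restrict_mem₀ hset
  refine lintegral_mono_ae ?_
  have hsub : Ioo 0 T ∩ {τ | r < ‖G τ‖} ⊆ Ioo 0 T := inter_subset_left
  filter_upwards [ae_mono (Measure.restrict_mono hsub le_rfl) h.grad, hmem,
    ae_mono (Measure.restrict_mono hsub le_rfl) (ae_restrict_mem measurableSet_Ioo)]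
    with τ h1 h2 h3
  have hW : (u τ, G τ) ∈ graphW Ω := mem_graphW.mpr h1
  have h4 := enorm_tensL hΩ.measurableSet hW
  simp only at h4
  rw [← h4]
  have h5 := norm_tensL_sq_le hΩ.measurableSet hW
  simp only at h5
  have hM0 : 0 ≤ M := (norm_nonneg _).trans (hM τ (Ioo_subset_Icc_self h3))
  have hG0 : 0 ≤ ‖G τ‖ := norm_nonneg _
  have h6 : Real.sqrt r * ‖tensL (u τ)‖ ≤ Real.sqrt ((CS : ℝ) ^ 3 * M) * ‖G τ‖ ^ 2 := by
    have h7 : (Real.sqrt r * ‖tensL (u τ)‖) ^ 2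
        ≤ (Real.sqrt ((CS : ℝ) ^ 3 * M) * ‖G τ‖ ^ 2) ^ 2 := by
      rw [mul_pow, mul_pow, Real.sq_sqrt hr.le, Real.sq_sqrt (by positivity)]
      calc r * ‖tensL (u τ)‖ ^ 2 ≤ ‖G τ‖ * ((CS : ℝ) ^ 3 * (‖u τ‖ * ‖G τ‖ ^ 3)) := by
            gcongr
        _ ≤ ‖G τ‖ * ((CS : ℝ) ^ 3 * (M * ‖G τ‖ ^ 3)) := by
            gcongr
            exact hM τ (Ioo_subset_Icc_self h3)
        _ = _ := by ring
    exact (pow_le_pow_iff_left₀ (by positivity) (by positivity) (by norm_num)).mp h7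
  have h8 := ENNReal.ofReal_le_ofReal h6
  rw [ENNReal.ofReal_mul (Real.sqrt_nonneg _), ENNReal.ofReal_mul (Real.sqrt_nonneg _),
    ENNReal.ofReal_pow hG0, ofReal_norm, ofReal_norm] at h8
  exact h8

/-- Energy equality if the enstrophy tails decay faster than `h^{-1/2}` along a sequence. -/
theorem IsWeakSolution.eq_of_enstrophy_tail (hΩ : IsOpen Ω) (hν : 0 ≤ ν) (hT : 0 < T)
    (h : IsWeakSolution Ω ν T u G f)
    (h0 : Filter.liminf (fun r : ℝ => ENNReal.ofReal (Real.sqrt r)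
      * ∫⁻ τ in Ioo 0 T ∩ {τ | r < ‖G τ‖}, ‖G τ‖ₑ ^ 2) atTop = 0) :
    ∀ t ∈ Icc 0 T, energyDefect ν u G f t = 0 := by
  obtain ⟨M, hM⟩ := h.bdd
  apply h.eq_of_tail hΩ hν hT
  have h1 : Filter.liminf (tail Ω u G 0 T) atTop
      ≤ Filter.liminf (fun r : ℝ => ENNReal.ofReal (Real.sqrt ((CS : ℝ) ^ 3 * M)) *
        (ENNReal.ofReal (Real.sqrt r) * ∫⁻ τ in Ioo 0 T ∩ {τ | r < ‖G τ‖}, ‖G τ‖ₑ ^ 2)) atTop := by
    refine liminf_le_liminf ?_
    filter_upwards [eventually_gt_atTop 0] with r hr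
    exact h.tail_sq_le hΩ hM hr
  have h2 : Filter.liminf (fun r : ℝ => ENNReal.ofReal (Real.sqrt ((CS : ℝ) ^ 3 * M)) *
        (ENNReal.ofReal (Real.sqrt r) * ∫⁻ τ in Ioo 0 T ∩ {τ | r < ‖G τ‖}, ‖G τ‖ₑ ^ 2)) atTop
      = 0 := by
    rw [ENNReal.liminf_const_mul_of_ne_top ENNReal.ofReal_ne_top, h0, mul_zero]
  rw [h2] at h1
  exact nonpos_iff_eq_zero.mp h1

end H772R2.NS
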