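import Mathlib
import Pool.Agent.H772R2.NS.Final2

/-!
Consequences: weak `L⁴` in time, logarithmic improvement of the `5/2` criterion.
-/

set_option linter.unusedSectionVars false

open MeasureTheory Set Filter Topology
open scoped InnerProductSpace ENNReal ContDiff NNReal

namespace H772R2.NS

section weak
variable {α : Type*} {mα : MeasurableSpace α} {μ : Measure α}

/-- pointwise dyadic bound -/
theorem dyadic_le (y : ℝ≥0∞) {R : ℝ} (hR : 0 < R) :
    y ≤ ENNReal.ofReal R
      + ∑' k : ℕ, (if ENNReal.ofReal (2 ^ k * R) < y then ENNReal.ofReal (2 ^ k * R) else 0) := by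
  by_cases hall : ∀ k : ℕ, ENNReal.ofReal (2 ^ k * R) < y
  · -- the sum is infinite
    have hsum : ∑' k : ℕ, (if ENNReal.ofReal (2 ^ k * R) < y then ENNReal.ofReal (2 ^ k * R)
        else 0) = ⊤ := by
      rw [eq_top_iff]
      calc (⊤ : ℝ≥0∞) = ∑' _ : ℕ, ENNReal.ofReal R := by
            rw [ENNReal.tsum_const_eq_top_of_ne_zero]
            simpa using hR
        _ ≤ _ := by
            refine ENNReal.tsum_le_tsum (fun k => ?_)
            rw [if_pos (hall k)]
            apply ENNReal.ofReal_le_ofReal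
            have : (1 : ℝ) ≤ 2 ^ k := one_le_pow₀ (by norm_num)
            nlinarith
    rw [hsum]; simp
  · push Not at hall
    classical
    let K := Nat.find hall
    have hK : y ≤ ENNReal.ofReal (2 ^ K * R) := Nat.find_spec hall
    have hlt : ∀ k < K, ENNReal.ofReal (2 ^ k * R) < y := fun k hk =>
      not_le.mp (Nat.find_min hall hk)
    have hgeom : ENNReal.ofReal (2 ^ K * R) = ENNReal.ofReal R
        + ∑ k ∈ Finset.range K, ENNReal.ofReal (2 ^ k * R) := by
      rw [← ENNReal.ofReal_sum_of_nonneg (fun k _ => by positivity),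
        ← ENNReal.ofReal_add hR.le (Finset.sum_nonneg (fun k _ => by positivity)),
        ← Finset.sum_mul]
      congr 1
      have := geom_sum_eq (show (2 : ℝ) ≠ 1 by norm_num) K
      rw [this]; ring
    calc y ≤ ENNReal.ofReal (2 ^ K * R) := hK
      _ = ENNReal.ofReal R + ∑ k ∈ Finset.range K, ENNReal.ofReal (2 ^ k * R) := hgeom
      _ = ENNReal.ofReal R + ∑ k ∈ Finset.range K,
          (if ENNReal.ofReal (2 ^ k * R) < y then ENNReal.ofReal (2 ^ k * R) else 0) := by
          congr 1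
          refine Finset.sum_congr rfl (fun k hk => ?_)
          rw [if_pos (hlt k (Finset.mem_range.mp hk))]
      _ ≤ _ := by
          gcongr
          exact ENNReal.sum_le_tsum _

/-- integrals over small sets of functions in weak `L²`. -/
theorem weak_int_le {F : α → ℝ≥0∞} (hF : AEMeasurable F μ) {C : ℝ} (hC : 0 ≤ C)
    (hw : ∀ l : ℝ, 0 < l → μ {x | ENNReal.ofReal l < F x} ≤ ENNReal.ofReal (C / l ^ 2))
    (E : Set α) {R : ℝ} (hR : 0 < R) :
    ∫⁻ x in E, F x ∂μ ≤ ENNReal.ofReal R * μ E + ENNReal.ofReal (2 * C / R) := by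
  have h1 : ∫⁻ x in E, F x ∂μ ≤ ∫⁻ x in E, (ENNReal.ofReal R
      + ∑' k : ℕ, (if ENNReal.ofReal (2 ^ k * R) < F x then ENNReal.ofReal (2 ^ k * R) else 0)) ∂μ :=
    lintegral_mono (fun x => dyadic_le (F x) hR)
  refine h1.trans ?_
  rw [lintegral_add_left measurable_const, setLIntegral_const]
  gcongr
  have hmeas : ∀ k : ℕ, AEMeasurable (fun x => if ENNReal.ofReal (2 ^ k * R) < F x then
      ENNReal.ofReal (2 ^ k * R) else 0) μ := by
    intro k
    have hs : NullMeasurableSet {x | ENNReal.ofReal (2 ^ k * R) < F x} μ :=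
      nullMeasurableSet_lt aemeasurable_const hF
    have := (aemeasurable_const (b := ENNReal.ofReal (2 ^ k * R)) (μ := μ)).indicator₀ hs
    refine this.congr (Eventually.of_forall (fun x => ?_))
    simp only [indicator, mem_ofPred_eq]
  refine (lintegral_mono' Measure.restrict_le_self le_rfl).trans ?_
  rw [lintegral_tsum hmeas]
  have h2 : ∀ k : ℕ, ∫⁻ x, (if ENNReal.ofReal (2 ^ k * R) < F x then
      ENNReal.ofReal (2 ^ k * R) else 0) ∂μ ≤ ENNReal.ofReal ((C / R) * (1 / 2) ^ k) := by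
    intro k
    have hs : NullMeasurableSet {x | ENNReal.ofReal (2 ^ k * R) < F x} μ :=
      nullMeasurableSet_lt aemeasurable_const hF
    have e : ∫⁻ x, (if ENNReal.ofReal (2 ^ k * R) < F x then
        ENNReal.ofReal (2 ^ k * R) else 0) ∂μ
        = ENNReal.ofReal (2 ^ k * R) * μ {x | ENNReal.ofReal (2 ^ k * R) < F x} := by
      rw [← lintegral_indicator_const₀ hs]
      refine lintegral_congr (fun x => ?_)
      simp only [indicator, mem_ofPred_eq]
    rw [e]
    have hpos : (0 : ℝ) < 2 ^ k * R := by positivity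
    calc ENNReal.ofReal (2 ^ k * R) * μ {x | ENNReal.ofReal (2 ^ k * R) < F x}
        ≤ ENNReal.ofReal (2 ^ k * R) * ENNReal.ofReal (C / (2 ^ k * R) ^ 2) := by
          gcongr; exact hw _ hpos
      _ = ENNReal.ofReal ((C / R) * (1 / 2) ^ k) := by
          rw [← ENNReal.ofReal_mul hpos.le]
          congr 1
          have h12 : (2 : ℝ) ^ k * (1 / 2) ^ k = 1 := by rw [← mul_pow]; norm_num
          field_simp
          linear_combination (-C) * h12
  calc ∑' k : ℕ, ∫⁻ x, (if ENNReal.ofReal (2 ^ k * R) < F x then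
      ENNReal.ofReal (2 ^ k * R) else 0) ∂μ
      ≤ ∑' k : ℕ, ENNReal.ofReal ((C / R) * (1 / 2) ^ k) := ENNReal.tsum_le_tsum h2
    _ = ENNReal.ofReal (∑' k : ℕ, (C / R) * (1 / 2) ^ k) := by
        rw [ENNReal.ofReal_tsum_of_nonneg (fun k => by positivity)]
        exact (summable_geometric_two).mul_left _
    _ = ENNReal.ofReal (2 * C / R) := by
        rw [tsum_mul_left, tsum_geometric_two]
        congr 1; ring

end weak

variable {Ω : Set E3} {ν T : ℝ} {u : ℝ → L2V Ω} {G : ℝ → L2M Ω} {f : ℝ → L2V Ω}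

/-- the enstrophy tails tend to zero. -/
theorem IsWeakSolution.tail_tendsto (h : IsWeakSolution Ω ν T u G f) :
    Tendsto (fun r : ℝ => ∫⁻ τ in Ioo 0 T ∩ {τ | r < ‖G τ‖}, ‖G τ‖ₑ ^ 2) atTop (𝓝 0) := by
  have hGm := h.gradL2.aestronglyMeasurable
  have e : ∀ r : ℝ, ∫⁻ τ in Ioo 0 T ∩ {τ | r < ‖G τ‖}, ‖G τ‖ₑ ^ 2
      = ∫⁻ τ in Ioo 0 T, {τ | r < ‖G τ‖}.indicator (fun τ => ‖G τ‖ₑ ^ 2) τ := by
    intro r
    have hset : NullMeasurableSet {τ | r < ‖G τ‖} (volume.restrict (Ioo 0 T)) :=
      nullMeasurableSet_lt aemeasurable_const hGm.norm.aemeasurable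
    rw [lintegral_indicator₀ hset, Measure.restrict_restrict₀ hset, inter_comm]
  simp_rw [e]
  have hG2 : Integrable (fun t => ‖G t‖ ^ 2) (volume.restrict (Ioo 0 T)) :=
    (memLp_two_iff_integrable_sq_norm hGm).mp h.gradL2
  have hreal : Tendsto (fun r : ℝ => ∫ τ in Ioo 0 T,
      {τ | r < ‖G τ‖}.indicator (fun τ => ‖G τ‖ ^ 2) τ) atTop (𝓝 (∫ τ in Ioo 0 T, (0 : ℝ))) := by
    refine tendsto_integral_filter_of_dominated_convergence (fun τ => ‖G τ‖ ^ 2) ?_ ?_ hG2 ?_
    · refine Eventually.of_forall (fun r => ?_)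
      have hset : NullMeasurableSet {τ | r < ‖G τ‖} (volume.restrict (Ioo 0 T)) :=
        nullMeasurableSet_lt aemeasurable_const hGm.norm.aemeasurable
      exact hG2.aestronglyMeasurable.indicator₀ hset
    · refine Eventually.of_forall (fun r => Eventually.of_forall (fun τ => ?_))
      by_cases hτ : τ ∈ {τ | r < ‖G τ‖}
      · rw [indicator_of_mem hτ]; simp
      · rw [indicator_of_notMem hτ]; simp
    · refine Eventually.of_forall (fun τ => ?_)
      refine (tendsto_congr' ?_).mpr tendsto_const_nhds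
      filter_upwards [eventually_ge_atTop ‖G τ‖] with r hr
      rw [indicator_of_notMem]
      simp [hr]
  have h5 := (ENNReal.continuous_ofReal.tendsto _).comp hreal
  simp only [integral_zero, ENNReal.ofReal_zero] at h5
  refine h5.congr (fun r => ?_)
  have hset : NullMeasurableSet {τ | r < ‖G τ‖} (volume.restrict (Ioo 0 T)) :=
    nullMeasurableSet_lt aemeasurable_const hGm.norm.aemeasurable
  simp only [Function.comp]
  rw [ofReal_integral_eq_lintegral_ofReal (hG2.indicator₀ hset)
    (Eventually.of_forall (fun τ => indicator_nonneg (fun _ _ => by positivity) τ))]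
  refine lintegral_congr (fun τ => ?_)
  by_cases hτ : τ ∈ {τ | r < ‖G τ‖}
  · rw [indicator_of_mem hτ, indicator_of_mem hτ, ENNReal.ofReal_pow (norm_nonneg _), ofReal_norm]
  · rw [indicator_of_notMem hτ, indicator_of_notMem hτ, ENNReal.ofReal_zero]

/-- Energy equality in the weak Lebesgue class `L^{4,∞}(0,T; L⁴)`. -/
theorem IsWeakSolution.eq_of_weak_four (hΩ : IsOpen Ω) (hν : 0 ≤ ν) (hT : 0 < T)
    (h : IsWeakSolution Ω ν T u G f) {C : ℝ}
    (hC : ∀ l : ℝ, 0 < l →
      volume {τ ∈ Ioo 0 T | ENNReal.ofReal l < eLpNorm (u τ) 4 (volume.restrict Ω)}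
        ≤ ENNReal.ofReal (C / l ^ 4)) :
    ∀ t ∈ Icc 0 T, energyDefect ν u G f t = 0 := by
  apply h.eq_of_tail hΩ hν hT
  -- WLOG C ≥ 0
  set C' := max C 0 with hC'
  have hC0 : 0 ≤ C' := le_max_right _ _
  -- the weak L² bound of the square
  let F : ℝ → ℝ≥0∞ := fun τ => ‖tensL (u τ)‖ₑ
  have hFm : AEMeasurable F (volume.restrict (Ioo 0 T)) := (h.m_meas hΩ).enorm
  have hFe : ∀ᵐ τ ∂(volume.restrict (Ioo 0 T)),
      F τ = (eLpNorm (u τ) 4 (volume.restrict Ω)) ^ 2 := by
    filter_upwards [h.grad] with τ hτ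
    exact enorm_tensL hΩ.measurableSet (p := (u τ, G τ)) (mem_graphW.mpr hτ)
  have hw : ∀ l : ℝ, 0 < l → (volume.restrict (Ioo 0 T)) {x | ENNReal.ofReal l < F x}
      ≤ ENNReal.ofReal (C' / l ^ 2) := by
    intro l hl
    have h1 : (volume.restrict (Ioo 0 T)) {x | ENNReal.ofReal l < F x}
        ≤ (volume.restrict (Ioo 0 T))
          {x | ENNReal.ofReal (Real.sqrt l) < eLpNorm (u x) 4 (volume.restrict Ω)} := by
      refine measure_mono_ae ?_
      filter_upwards [hFe] with τ hτ hlt
      have hlt' : ENNReal.ofReal l < F τ := hlt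
      rw [hτ] at hlt'
      show ENNReal.ofReal (Real.sqrt l) < eLpNorm (u τ) 4 (volume.restrict Ω)
      by_contra hcon
      push Not at hcon
      have h2 : (eLpNorm (u τ) 4 (volume.restrict Ω)) ^ 2 ≤ ENNReal.ofReal l := by
        calc (eLpNorm (u τ) 4 (volume.restrict Ω)) ^ 2 ≤ (ENNReal.ofReal (Real.sqrt l)) ^ 2 := by
              gcongr
          _ = ENNReal.ofReal l := by
              rw [← ENNReal.ofReal_pow (Real.sqrt_nonneg _), Real.sq_sqrt hl.le]
      exact absurd hlt' (not_lt.mpr h2)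
    refine h1.trans ?_
    rw [Measure.restrict_apply' measurableSet_Ioo]
    have h3 := hC (Real.sqrt l) (Real.sqrt_pos.mpr hl)
    have e1 : {x | ENNReal.ofReal (Real.sqrt l) < eLpNorm (u x) 4 (volume.restrict Ω)} ∩ Ioo 0 T
        = {τ ∈ Ioo 0 T | ENNReal.ofReal (Real.sqrt l) < eLpNorm (u τ) 4 (volume.restrict Ω)} := by
      ext x; simp only [mem_inter_iff, mem_ofPred_eq]; tauto
    rw [e1]
    refine h3.trans (ENNReal.ofReal_le_ofReal ?_)
    have e2 : Real.sqrt l ^ 4 = l ^ 2 := by
      calc Real.sqrt l ^ 4 = (Real.sqrt l ^ 2) ^ 2 := by ring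
        _ = l ^ 2 := by rw [Real.sq_sqrt hl.le]
    rw [e2]
    gcongr
    exact le_max_left _ _
  -- tails
  have hlim := h.tail_tendsto
  refine le_antisymm ?_ zero_le
  refine ENNReal.le_of_forall_pos_le_add (fun ε hε _ => ?_)
  rw [zero_add]
  have hε' : (0 : ℝ) < ε := by exact_mod_cast hε
  -- choose η with (1 + 2 C') η ≤ ε
  let η : ℝ := ε / (1 + 2 * C')
  have hη : 0 < η := by positivity
  have hev : ∀ᶠ r : ℝ in atTop, tail Ω u G 0 T r ≤ ε := by
    have hη2 : (0 : ℝ≥0∞) < ENNReal.ofReal (η ^ 2) := by simp; positivity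
    filter_upwards [hlim.eventually (gt_mem_nhds hη2), eventually_gt_atTop 0] with r h1 hr
    -- measure of E
    have hset : NullMeasurableSet {τ | r < ‖G τ‖} (volume.restrict (Ioo 0 T)) :=
      nullMeasurableSet_lt aemeasurable_const
        h.gradL2.aestronglyMeasurable.norm.aemeasurable
    have hmem : ∀ᵐ τ ∂(volume.restrict (Ioo 0 T ∩ {τ | r < ‖G τ‖})), r < ‖G τ‖ := by
      rw [inter_comm, ← Measure.restrict_restrict₀ hset]
      exact ae_restrict_mem₀ hset
    have hE : ENNReal.ofReal (r ^ 2) * (volume.restrict (Ioo 0 T)) {τ | r < ‖G τ‖}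
        ≤ ENNReal.ofReal (η ^ 2) := by
      refine le_trans ?_ h1.le
      rw [Measure.restrict_apply' measurableSet_Ioo, inter_comm, ← setLIntegral_const]
      refine lintegral_mono_ae ?_
      filter_upwards [hmem] with τ hτ
      rw [ENNReal.ofReal_pow hr.le, ← ofReal_norm]
      gcongr
    have hmain := weak_int_le hFm hC0 hw {τ | r < ‖G τ‖} (R := r / η) (by positivity)
    have e1 : ∫⁻ x in {τ | r < ‖G τ‖}, F x ∂(volume.restrict (Ioo 0 T))
        = ∫⁻ τ in Ioo 0 T ∩ {τ | r < ‖G τ‖}, (eLpNorm (u τ) 4 (volume.restrict Ω)) ^ 2 := by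
      rw [Measure.restrict_restrict₀ hset, inter_comm]
      apply lintegral_congr_ae
      exact ae_mono (Measure.restrict_mono inter_subset_left le_rfl) hFe
    rw [e1] at hmain
    unfold tail
    calc ENNReal.ofReal r * ∫⁻ τ in Ioo 0 T ∩ {τ | r < ‖G τ‖},
          (eLpNorm (u τ) 4 (volume.restrict Ω)) ^ 2
        ≤ ENNReal.ofReal r * (ENNReal.ofReal (r / η) * (volume.restrict (Ioo 0 T)) {τ | r < ‖G τ‖}
          + ENNReal.ofReal (2 * C' / (r / η))) := by gcongr
      _ = ENNReal.ofReal (1 / η) * (ENNReal.ofReal (r ^ 2)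
            * (volume.restrict (Ioo 0 T)) {τ | r < ‖G τ‖})
          + ENNReal.ofReal r * ENNReal.ofReal (2 * C' / (r / η)) := by
          have e3 : ENNReal.ofReal r * ENNReal.ofReal (r / η)
              = ENNReal.ofReal (1 / η) * ENNReal.ofReal (r ^ 2) := by
            rw [← ENNReal.ofReal_mul hr.le, ← ENNReal.ofReal_mul (by positivity)]
            congr 1
            field_simp
          rw [mul_add, ← mul_assoc, ← mul_assoc, e3]
      _ ≤ ENNReal.ofReal (1 / η) * ENNReal.ofReal (η ^ 2)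
          + ENNReal.ofReal r * ENNReal.ofReal (2 * C' / (r / η)) := by gcongr
      _ = ENNReal.ofReal (η + 2 * C' * η) := by
          rw [← ENNReal.ofReal_mul (by positivity), ← ENNReal.ofReal_mul hr.le,
            ← ENNReal.ofReal_add (by positivity) (by positivity)]
          congr 1
          field_simp
      _ = ε := by
          have : η + 2 * C' * η = ε := by
            simp only [η]
            field_simp
          rw [this, ENNReal.ofReal_coe_nnreal]
  exact liminf_le_of_frequently_le' hev.frequently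

end H772R2.NS
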