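import Mathlib
import Pool.Agent.H772R2.NS.Final2

/-!
Logarithmic improvement of the `5/2` criterion.
-/

set_option linter.unusedSectionVars false

open MeasureTheory Set Filter Topology
open scoped InnerProductSpace ENNReal ContDiff NNReal

namespace H772R2.NS

theorem sum_dyadic_le (N : ℕ) (hN : 1 ≤ N) :
    ∑ n ∈ Finset.range N, (2 : ℝ) ^ (n + 1) / (n + 1) ≤ 4 * 2 ^ N / N := by
  induction N, hN using Nat.le_induction with
  | base => norm_num
  | succ N hN ih =>
    rw [Finset.sum_range_succ]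
    rcases Nat.eq_or_lt_of_le hN with h1 | h2
    · rw [← h1]; norm_num
    · have hN2 : (2 : ℝ) ≤ N := by exact_mod_cast h2
      have hN0 : (0 : ℝ) < N := by linarith
      refine (add_le_add_left ih _).trans ?_
      push_cast
      have h3 : 4 * (2 : ℝ) ^ N / N + 2 ^ (N + 1) / (N + 1)
          = 2 ^ (N + 1) * (2 / N + 1 / (N + 1)) := by
        field_simp
        ring
      have h4 : 4 * (2 : ℝ) ^ (N + 1) / (N + 1) = 2 ^ (N + 1) * (4 / (N + 1)) := by ring
      rw [h3, h4]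
      gcongr
      rw [div_add_div _ _ (by positivity) (by positivity), div_le_div_iff₀ (by positivity)
        (by positivity)]
      nlinarith

/-- pointwise bound -/
theorem weights_le (x : ℝ) (_hx : 0 ≤ x) :
    ∑' n : ℕ, (if (4 : ℝ) ^ (n + 1) < x then ENNReal.ofReal ((2 : ℝ) ^ (n + 1) / (n + 1)) else 0)
      ≤ ENNReal.ofReal (14 * (Real.sqrt x / Real.log (Real.exp 1 + x))) := by
  rcases le_or_gt x 4 with h4 | h4
  · have : ∀ n : ℕ, (if (4 : ℝ) ^ (n + 1) < x then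
        ENNReal.ofReal ((2 : ℝ) ^ (n + 1) / (n + 1)) else 0) = 0 := by
      intro n
      rw [if_neg]
      push Not
      have : (4 : ℝ) ^ 1 ≤ 4 ^ (n + 1) := pow_le_pow_right₀ (by norm_num) (by omega)
      linarith
    simp [this]
  · -- N with 4^N < x ≤ 4^(N+1)
    have hex : ∃ N : ℕ, x ≤ (4 : ℝ) ^ (N + 1) := by
      obtain ⟨n, hn⟩ := pow_unbounded_of_one_lt x (show (1 : ℝ) < 4 by norm_num)
      exact ⟨n, hn.le.trans (pow_le_pow_right₀ (by norm_num) (by omega))⟩
    classical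
    set N := Nat.find hex with hNdef
    have hN1 : x ≤ (4 : ℝ) ^ (N + 1) := Nat.find_spec hex
    have hN0 : 1 ≤ N := by
      by_contra hcon
      have : N = 0 := by omega
      rw [this] at hN1
      norm_num at hN1
      linarith
    have hN2 : (4 : ℝ) ^ N < x := by
      have := Nat.find_min hex (m := N - 1) (by omega)
      push Not at this
      have e : N - 1 + 1 = N := by omega
      rwa [e] at this
    have hsum : ∑' n : ℕ, (if (4 : ℝ) ^ (n + 1) < x then
        ENNReal.ofReal ((2 : ℝ) ^ (n + 1) / (n + 1)) else 0)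
        = ∑ n ∈ Finset.range N, ENNReal.ofReal ((2 : ℝ) ^ (n + 1) / (n + 1)) := by
      rw [tsum_eq_sum (s := Finset.range N)]
      · refine Finset.sum_congr rfl (fun n hn => ?_)
        rw [if_pos]
        have : n + 1 ≤ N := Finset.mem_range.mp hn
        exact (pow_le_pow_right₀ (by norm_num) this).trans_lt hN2
      · intro n hn
        rw [if_neg]
        push Not
        have : N ≤ n := not_lt.mp (fun h => hn (Finset.mem_range.mpr h))
        exact hN1.trans (pow_le_pow_right₀ (by norm_num) (by omega))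
    rw [hsum, ← ENNReal.ofReal_sum_of_nonneg (fun n _ => by positivity)]
    apply ENNReal.ofReal_le_ofReal
    refine (sum_dyadic_le N hN0).trans ?_
    have hNpos : (0 : ℝ) < N := by exact_mod_cast hN0
    have hN1' : (1 : ℝ) ≤ N := by exact_mod_cast hN0
    have hsq : (2 : ℝ) ^ N ≤ Real.sqrt x := by
      apply Real.le_sqrt_of_sq_le
      rw [← pow_mul, mul_comm, pow_mul]
      norm_num
      exact hN2.le
    have he : Real.exp 1 ≤ 4 := by
      have := Real.exp_one_lt_d9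
      linarith
    have hlog : Real.log (Real.exp 1 + x) ≤ 3.5 * N := by
      have h1 : Real.exp 1 + x ≤ 2 * 4 ^ (N + 1) := by
        have : (4 : ℝ) ^ 1 ≤ 4 ^ (N + 1) := pow_le_pow_right₀ (by norm_num) (by omega)
        linarith
      have h2 : Real.log (Real.exp 1 + x) ≤ Real.log (2 * 4 ^ (N + 1)) :=
        Real.log_le_log (by positivity) h1
      have h3 : Real.log (2 * 4 ^ (N + 1)) = (2 * N + 3) * Real.log 2 := by
        have : (2 : ℝ) * 4 ^ (N + 1) = 2 ^ (2 * N + 3) := by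
          rw [show (4 : ℝ) = 2 ^ 2 by norm_num, ← pow_mul]
          ring
        rw [this, Real.log_pow]
        push_cast; ring
      rw [h3] at h2
      have h4 := Real.log_two_lt_d9
      nlinarith
    have hlogpos : 0 < Real.log (Real.exp 1 + x) := by
      apply Real.log_pos
      have := Real.add_one_le_exp (1 : ℝ)
      linarith
    rw [mul_div_assoc', div_le_div_iff₀ hNpos hlogpos]
    have hs0 : 0 ≤ Real.sqrt x := Real.sqrt_nonneg _
    calc 4 * (2 : ℝ) ^ N * Real.log (Real.exp 1 + x)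
        ≤ 4 * Real.sqrt x * (3.5 * N) := by gcongr
      _ = 14 * Real.sqrt x * N := by ring

variable {Ω : Set E3} {ν T : ℝ} {u : ℝ → L2V Ω} {G : ℝ → L2M Ω} {f : ℝ → L2V Ω}

/-- Energy equality under the logarithmically improved `5/2` condition. -/
theorem IsWeakSolution.eq_of_log (hΩ : IsOpen Ω) (hν : 0 ≤ ν) (hT : 0 < T)
    (h : IsWeakSolution Ω ν T u G f)
    (hlog : ∫⁻ τ in Ioo 0 T, ENNReal.ofReal
      (‖G τ‖ ^ (5 / 2 : ℝ) / Real.log (Real.exp 1 + ‖G τ‖)) ≠ ⊤) :
    ∀ t ∈ Icc 0 T, energyDefect ν u G f t = 0 := by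
  apply h.eq_of_enstrophy_tail hΩ hν hT
  by_contra hne
  set a : ℝ → ℝ≥0∞ := fun r : ℝ => ENNReal.ofReal (Real.sqrt r)
      * ∫⁻ τ in Ioo 0 T ∩ {τ | r < ‖G τ‖}, ‖G τ‖ₑ ^ 2 with ha
  have hpos : 0 < Filter.liminf a atTop := pos_iff_ne_zero.mpr hne
  obtain ⟨c, hc0, hc⟩ := exists_between hpos
  have hev : ∀ᶠ r in atTop, c < a r := eventually_lt_of_lt_liminf hc
  obtain ⟨r0, hr0⟩ := eventually_atTop.mp hev
  obtain ⟨n0, hn0⟩ := pow_unbounded_of_one_lt r0 (show (1 : ℝ) < 4 by norm_num)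
  have hGm := h.gradL2.aestronglyMeasurable
  have hset : ∀ r : ℝ, NullMeasurableSet {τ | r < ‖G τ‖} (volume.restrict (Ioo 0 T)) := fun r =>
    nullMeasurableSet_lt aemeasurable_const hGm.norm.aemeasurable
  -- the weighted sum
  have e1 : ∀ n : ℕ, ENNReal.ofReal (1 / ((n : ℝ) + 1)) * a ((4 : ℝ) ^ (n + 1))
      = ∫⁻ τ in Ioo 0 T, ‖G τ‖ₑ ^ 2 * (if (4 : ℝ) ^ (n + 1) < ‖G τ‖ then
        ENNReal.ofReal ((2 : ℝ) ^ (n + 1) / (n + 1)) else 0) := by
    intro n
    have s1 : Real.sqrt ((4 : ℝ) ^ (n + 1)) = 2 ^ (n + 1) := by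
      rw [show (4 : ℝ) = 2 ^ 2 by norm_num, ← pow_mul, mul_comm, pow_mul]
      exact Real.sqrt_sq (by positivity)
    have s2 : ∀ τ, ‖G τ‖ₑ ^ 2 * (if (4 : ℝ) ^ (n + 1) < ‖G τ‖ then
        ENNReal.ofReal ((2 : ℝ) ^ (n + 1) / (n + 1)) else 0)
        = ENNReal.ofReal ((2 : ℝ) ^ (n + 1) / (n + 1))
          * {τ | (4 : ℝ) ^ (n + 1) < ‖G τ‖}.indicator (fun τ => ‖G τ‖ₑ ^ 2) τ := by
      intro τ
      by_cases hτ : (4 : ℝ) ^ (n + 1) < ‖G τ‖
      · rw [if_pos hτ, indicator_of_mem (by exact hτ), mul_comm]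
      · rw [if_neg hτ, indicator_of_notMem (by exact hτ), mul_zero, mul_zero]
    simp_rw [s2]
    rw [lintegral_const_mul' _ _ ENNReal.ofReal_ne_top, lintegral_indicator₀ (hset _),
      Measure.restrict_restrict₀ (hset _), inter_comm]
    simp only [ha, s1]
    rw [← mul_assoc, ← ENNReal.ofReal_mul (by positivity)]
    congr 2
    ring
  have hmeas : ∀ n : ℕ, AEMeasurable (fun τ => ‖G τ‖ₑ ^ 2 * (if (4 : ℝ) ^ (n + 1) < ‖G τ‖ then
        ENNReal.ofReal ((2 : ℝ) ^ (n + 1) / (n + 1)) else 0)) (volume.restrict (Ioo 0 T)) := by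
    intro n
    refine (hGm.enorm.pow_const 2).mul ?_
    have := (aemeasurable_const (b := ENNReal.ofReal ((2 : ℝ) ^ (n + 1) / (n + 1)))
      (μ := (volume.restrict (Ioo 0 T)))).indicator₀ (hset ((4 : ℝ) ^ (n + 1)))
    refine this.congr (Eventually.of_forall (fun x => ?_))
    simp only [indicator, mem_ofPred_eq]
  have hup : ∑' n : ℕ, ENNReal.ofReal (1 / ((n : ℝ) + 1)) * a ((4 : ℝ) ^ (n + 1)) < ⊤ := by
    simp_rw [e1]
    rw [← lintegral_tsum hmeas]
    have hle : ∫⁻ τ in Ioo 0 T, ∑' n : ℕ, ‖G τ‖ₑ ^ 2 * (if (4 : ℝ) ^ (n + 1) < ‖G τ‖ then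
        ENNReal.ofReal ((2 : ℝ) ^ (n + 1) / (n + 1)) else 0)
        ≤ ∫⁻ τ in Ioo 0 T, ENNReal.ofReal 14 * ENNReal.ofReal
          (‖G τ‖ ^ (5 / 2 : ℝ) / Real.log (Real.exp 1 + ‖G τ‖)) := by
      refine lintegral_mono (fun τ => ?_)
      simp only
      rw [ENNReal.tsum_mul_left]
      refine (mul_le_mul' le_rfl (weights_le ‖G τ‖ (norm_nonneg _))).trans (le_of_eq ?_)
      rw [← ofReal_norm, ← ENNReal.ofReal_pow (norm_nonneg _),
        ← ENNReal.ofReal_mul (by positivity), ← ENNReal.ofReal_mul (by norm_num)]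
      congr 1
      have : ‖G τ‖ ^ (5 / 2 : ℝ) = ‖G τ‖ ^ 2 * Real.sqrt ‖G τ‖ := by
        rw [Real.sqrt_eq_rpow, ← Real.rpow_natCast,
          ← Real.rpow_add_of_nonneg (norm_nonneg _) (by norm_num) (by norm_num)]
        norm_num
      rw [this]
      ring
    refine hle.trans_lt ?_
    rw [lintegral_const_mul' _ _ ENNReal.ofReal_ne_top]
    exact ENNReal.mul_lt_top ENNReal.ofReal_lt_top (lt_top_iff_ne_top.mpr hlog)
  -- divergence
  have hdiv : ∑' n : ℕ, ENNReal.ofReal (1 / ((n : ℝ) + 1)) * a ((4 : ℝ) ^ (n + 1)) = ⊤ := by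
    have hns : ¬ Summable (fun n : ℕ => 1 / (((n + n0 : ℕ) : ℝ) + 1)) := by
      intro hcon
      have h1 := (summable_nat_add_iff (f := fun n : ℕ => 1 / ((n : ℝ) + 1)) n0).mp hcon
      have h2 : Summable (fun n : ℕ => 1 / (((n + 1 : ℕ)) : ℝ)) := by
        refine h1.congr (fun n => ?_)
        push_cast; rfl
      have h3 := (summable_nat_add_iff (f := fun n : ℕ => 1 / (n : ℝ)) 1).mp h2
      exact Real.not_summable_one_div_natCast h3
    have htop : ∑' n : ℕ, ENNReal.ofReal (1 / (((n + n0 : ℕ) : ℝ) + 1)) = ⊤ := by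
      by_contra hcon
      apply hns
      have := ENNReal.summable_toReal hcon
      refine this.congr (fun n => ?_)
      rw [ENNReal.toReal_ofReal (by positivity)]
    have hlow : ∑' n : ℕ, ENNReal.ofReal (1 / (((n + n0 : ℕ) : ℝ) + 1)) * c
        ≤ ∑' n : ℕ, ENNReal.ofReal (1 / ((n : ℝ) + 1)) * a ((4 : ℝ) ^ (n + 1)) := by
      have h1 : ∑' n : ℕ, ENNReal.ofReal (1 / (((n + n0 : ℕ) : ℝ) + 1)) * c
          ≤ ∑' n : ℕ, ENNReal.ofReal (1 / (((n + n0 : ℕ) : ℝ) + 1))
            * a ((4 : ℝ) ^ ((n + n0) + 1)) := by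
        refine ENNReal.tsum_le_tsum (fun n => ?_)
        gcongr
        apply (hr0 _ _).le
        refine hn0.le.trans (pow_le_pow_right₀ (by norm_num) (by omega))
      refine h1.trans ?_
      exact ENNReal.tsum_comp_le_tsum_of_injective (add_left_injective n0)
        (fun n : ℕ => ENNReal.ofReal (1 / ((n : ℝ) + 1)) * a ((4 : ℝ) ^ (n + 1)))
    rw [ENNReal.tsum_mul_right, htop, ENNReal.top_mul hc0.ne'] at hlow
    exact top_le_iff.mp hlow
  rw [hdiv] at hup
  exact lt_irrefl _ hup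

end H772R2.NS
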