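import Mathlib
import Pool.Agent.H772R2.NS.Lam

/-!
Energy jumps force the enstrophy to blow up fast.
-/

set_option linter.unusedSectionVars false

open MeasureTheory Set Filter Topology
open scoped InnerProductSpace ENNReal

namespace H772R2.NS

variable {H K : Type*} [NormedAddCommGroup H] [InnerProductSpace ℝ H] [CompleteSpace H]
  [NormedAddCommGroup K] [InnerProductSpace ℝ K] [CompleteSpace K]

/-- tails of integrable functions tend to zero at the left of a point. -/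
theorem tendsto_tail {g : ℝ → ℝ} {T t : ℝ} (hg : IntegrableOn g (Ioc 0 T) volume)
    (ht : t ∈ Ioc 0 T) :
    Tendsto (fun a => ∫ τ in Ioc a t, g τ) (𝓝[<] t) (𝓝 0) := by
  have hI : uIcc 0 T = Icc 0 T := uIcc_of_le (ht.1.le.trans ht.2)
  have hint : IntervalIntegrable g volume 0 T := by
    rw [intervalIntegrable_iff_integrableOn_Ioc_of_le (ht.1.le.trans ht.2)]; exact hg
  have hc := intervalIntegral.continuousOn_primitive_interval' hint
    (by rw [hI]; exact ⟨le_rfl, ht.1.le.trans ht.2⟩ : (0 : ℝ) ∈ uIcc 0 T)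
  rw [hI] at hc
  have h1 := (hc t ⟨ht.1.le, ht.2⟩)
  have h2 : Tendsto (fun a => ∫ τ in (0 : ℝ)..a, g τ) (𝓝[<] t) (𝓝 (∫ τ in (0 : ℝ)..t, g τ)) := by
    refine h1.mono_left ?_
    refine nhdsWithin_le_of_mem ?_
    filter_upwards [Ioo_mem_nhdsLT ht.1] with x hx
    exact ⟨hx.1.le, hx.2.le.trans ht.2⟩
  have h3 := (tendsto_const_nhds (x := ∫ τ in (0 : ℝ)..t, g τ)).sub h2
  rw [sub_self] at h3
  refine (tendsto_congr' ?_).mpr h3
  filter_upwards [Ioo_mem_nhdsLT ht.1] with a ha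
  have i1 : IntervalIntegrable g volume 0 a := by
    rw [intervalIntegrable_iff_integrableOn_Ioc_of_le ha.1.le]
    exact hg.mono_set (Ioc_subset_Ioc_right (ha.2.le.trans ht.2))
  have i2 : IntervalIntegrable g volume 0 t := by
    rw [intervalIntegrable_iff_integrableOn_Ioc_of_le ht.1.le]
    exact hg.mono_set (Ioc_subset_Ioc_right ht.2)
  rw [intervalIntegral.integral_interval_sub_left i2 i1, intervalIntegral.integral_of_le ha.2.le]

namespace Sol

variable {W : Submodule ℝ (H × K)} {T M ν : ℝ} {u : ℝ → H} {G m : ℝ → K} {f : ℝ → H}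

/-- If the defect jumps by `δ` at `t`, then `δ ≤ ‖∇u(a)‖ ∫_a^t (‖m‖ + ν ‖G‖)` for all `a < t`
close to `t`. -/
theorem jump (S : Sol W T M ν u G m f) {t δ : ℝ} (ht : t ∈ Ioc 0 T) (hδ : 0 < δ)
    (hj : ∀ᶠ a in 𝓝[<] t, defect ν u G f a ≤ defect ν u G f t - δ) :
    ∀ᶠ a in 𝓝[<] t, ∀ z : K, (u a, z) ∈ W →
      δ ≤ ‖z‖ * ∫ τ in Ioc a t, (‖m τ‖ + ν * ‖G τ‖) := by
  have htI : t ∈ Icc 0 T := Ioc_subset_Icc_self ht
  have i0 : Integrable (fun τ => M * ‖f τ‖ + ν * ‖G τ‖ ^ 2) (volume.restrict (Ioc 0 T)) :=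
    (S.fint.norm.const_mul M).add (S.G2.const_mul ν)
  have l1 := tendsto_tail (T := T) (g := fun τ => M * ‖f τ‖ + ν * ‖G τ‖ ^ 2) i0 ht
  have l2 := tendsto_tail (T := T) (g := fun τ => M * ‖f τ‖) (S.fint.norm.const_mul M) ht
  have l3 : Tendsto (fun a => |⟪u a - u t, u t⟫_ℝ|) (𝓝[<] t) (𝓝 0) := by
    have := S.utend (x := t) (F := 𝓝[<] t) nhdsWithin_le_nhds htI (by
      filter_upwards [Ioo_mem_nhdsLT ht.1] with x hx
      exact ⟨hx.1.le, hx.2.le.trans ht.2⟩) (u t)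
    have h2 := (this.sub_const ⟪u t, u t⟫_ℝ).abs
    rw [sub_self, abs_zero] at h2
    refine h2.congr (fun a => ?_)
    rw [inner_sub_left]
  filter_upwards [hj, l1.eventually (gt_mem_nhds (show 0 < δ / 8 by linarith)),
    l2.eventually (gt_mem_nhds (show 0 < δ / 8 by linarith)),
    l3.eventually (gt_mem_nhds (show 0 < δ / 8 by linarith)), Ioo_mem_nhdsLT ht.1]
    with a k0 k1 k2 k3 k4 z hz
  have haT : a ∈ Icc 0 T := ⟨k4.1.le, k4.2.le.trans ht.2⟩
  have hsub : Ioc a t ⊆ Ioc 0 T := Ioc_subset_Ioc k4.1.le ht.2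
  have h1 := S.abs_sq_sub_le (h := ‖z‖) k4.1.le k4.2.le ht.2 (Or.inl ⟨rfl, rfl⟩)
    ⟨haT, z, le_rfl, hz⟩
  have h2 := S.defect_sub k4.1.le k4.2.le ht.2
  have h3 : |∫ τ in a..t, pow ν u G f τ| ≤ ∫ τ in Ioc a t, (M * ‖f τ‖ + ν * ‖G τ‖ ^ 2) := by
    rw [intervalIntegral.integral_of_le k4.2.le]
    refine (abs_integral_le_integral_abs).trans ?_
    refine setIntegral_mono_on ?_ ?_ measurableSet_Ioc ?_
    · exact (IntegrableOn.mono_set S.pow_int hsub).abs
    · exact IntegrableOn.mono_set ((S.fint.norm.const_mul M).add (S.G2.const_mul ν)) hsub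
    · intro τ hτ
      exact S.pow_bound ⟨k4.1.le.trans hτ.1.le, hτ.2.trans ht.2⟩
  have h4 : ∫ τ in Ioc a t, (‖z‖ * ‖m τ‖ + ν * ‖z‖ * ‖G τ‖ + M * ‖f τ‖)
      = ‖z‖ * (∫ τ in Ioc a t, (‖m τ‖ + ν * ‖G τ‖)) + ∫ τ in Ioc a t, M * ‖f τ‖ := by
    rw [← integral_const_mul, ← integral_add]
    · apply integral_congr_ae
      refine Eventually.of_forall (fun τ => ?_)
      simp only
      ring
    · exact IntegrableOn.mono_set ((S.mint.norm.add (S.Gint.norm.const_mul ν)).const_mul ‖z‖) hsub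
    · exact IntegrableOn.mono_set (S.fint.norm.const_mul M) hsub
  rw [h4] at h1
  have h5 : defect ν u G f t - defect ν u G f a
      ≤ |∫ τ in a..t, pow ν u G f τ| + |‖u t‖ ^ 2 - ‖u a‖ ^ 2| / 2 := by
    rw [h2]
    have a1 := le_abs_self (∫ τ in a..t, pow ν u G f τ)
    have a2 := neg_abs_le (‖u t‖ ^ 2 - ‖u a‖ ^ 2)
    linarith
  linarith

/-- lower semicontinuity: the defect is upper semicontinuous from the left. -/
theorem defect_usc (S : Sol W T M ν u G m f) {t : ℝ} (ht : t ∈ Ioc 0 T) {c : ℝ}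
    (hc : ∀ᶠ a in 𝓝[<] t, c ≤ defect ν u G f a) : c ≤ defect ν u G f t := by
  have htI : t ∈ Icc 0 T := Ioc_subset_Icc_self ht
  have l1 := tendsto_tail (g := pow ν u G f) S.pow_int ht
  have l3 : Tendsto (fun a => ⟪u a - u t, u t⟫_ℝ) (𝓝[<] t) (𝓝 0) := by
    have := S.utend (x := t) (F := 𝓝[<] t) nhdsWithin_le_nhds htI (by
      filter_upwards [Ioo_mem_nhdsLT ht.1] with x hx
      exact ⟨hx.1.le, hx.2.le.trans ht.2⟩) (u t)
    have h2 := (this.sub_const ⟪u t, u t⟫_ℝ)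
    rw [sub_self] at h2
    refine h2.congr (fun a => ?_)
    rw [inner_sub_left]
  refine le_of_forall_pos_le_add (fun ε hε => ?_)
  have hev : ∀ᶠ a in 𝓝[<] t, c ≤ defect ν u G f t + ε := by
    filter_upwards [hc, l1.eventually (lt_mem_nhds (show -(ε / 2) < 0 by linarith)),
      l3.eventually (lt_mem_nhds (show -(ε / 2) < 0 by linarith)), Ioo_mem_nhdsLT ht.1]
      with a k0 k1 k3 k4
    have h2 := S.defect_sub k4.1.le k4.2.le ht.2
    rw [intervalIntegral.integral_of_le k4.2.le] at h2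
    have h3 : ‖u a‖ ^ 2 = ‖u t‖ ^ 2 + 2 * ⟪u a - u t, u t⟫_ℝ + ‖u a - u t‖ ^ 2 := by
      have e1 := norm_add_sq_real (u a - u t) (u t)
      rw [sub_add_cancel] at e1
      linarith
    have h4 : 0 ≤ ‖u a - u t‖ ^ 2 := by positivity
    linarith
  obtain ⟨a, ha⟩ := (hev.and (Ioo_mem_nhdsLT ht.1)).exists
  exact ha.1

end Sol

end H772R2.NS
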