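import Mathlib
import Pool.Agent.H772R2.NS.First

/-!
Real variable part of the blow-up rates forced by an energy jump.
-/

set_option linter.unusedSectionVars false

open MeasureTheory Set Filter Topology
open scoped InnerProductSpace ENNReal

namespace H772R2.NS

/-- Cauchy-Schwarz inequality for integrals of real functions. -/
theorem integral_mul_sq_le {α : Type*} {mα : MeasurableSpace α} {μ : Measure α} {a b : α → ℝ}
    (ha : Integrable (fun x => a x ^ 2) μ) (hb : Integrable (fun x => b x ^ 2) μ)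
    (hab : Integrable (fun x => a x * b x) μ) :
    (∫ x, a x * b x ∂μ) ^ 2 ≤ (∫ x, a x ^ 2 ∂μ) * ∫ x, b x ^ 2 ∂μ := by
  have h : ∀ l : ℝ, 0 ≤ (∫ x, a x ^ 2 ∂μ) * (l * l) + (2 * ∫ x, a x * b x ∂μ) * l
      + ∫ x, b x ^ 2 ∂μ := by
    intro l
    have h1 : 0 ≤ ∫ x, (l * a x + b x) ^ 2 ∂μ := integral_nonneg (fun x => by positivity)
    have h2 : ∀ x, (l * a x + b x) ^ 2 = (l * l) * a x ^ 2 + (2 * l) * (a x * b x) + b x ^ 2 :=
      fun x => by ring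
    simp_rw [h2] at h1
    have i1 : Integrable (fun x => l * l * a x ^ 2 + 2 * l * (a x * b x)) μ :=
      (ha.const_mul _).add (hab.const_mul _)
    rw [integral_add i1 hb,
      integral_add (ha.const_mul _) (hab.const_mul _), integral_const_mul, integral_const_mul] at h1
    linarith
  have := discrim_le_zero h
  unfold discrim at this
  nlinarith

/-- the three halves power `g √g`. -/
noncomputable def th (x : ℝ) : ℝ := x * Real.sqrt x

theorem th_sq {x : ℝ} (hx : 0 ≤ x) : th x ^ 2 = x ^ 3 := by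
  unfold th
  rw [mul_pow, Real.sq_sqrt hx]; ring

theorem th_nonneg {x : ℝ} (hx : 0 ≤ x) : 0 ≤ th x := mul_nonneg hx (Real.sqrt_nonneg _)

theorem th_le {x : ℝ} (hx : 0 ≤ x) : th x ≤ 1 + x ^ 2 := by
  have h1 := th_sq hx
  have h2 := th_nonneg hx
  have h3 : x ^ 3 ≤ (1 + x ^ 2) ^ 2 := by
    nlinarith [sq_nonneg (x - 1), sq_nonneg (x ^ 2), mul_nonneg hx (sq_nonneg (x - 1)),
      sq_nonneg x]
  rw [← h1] at h3
  exact (pow_le_pow_iff_left₀ h2 (by positivity) (by norm_num)).mp h3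

section real
variable {g : ℝ → ℝ} {T t : ℝ}

theorem g_int (hm : AEStronglyMeasurable g (volume.restrict (Ioc 0 T)))
    (h2 : IntegrableOn (fun x => g x ^ 2) (Ioc 0 T) volume) :
    IntegrableOn g (Ioc 0 T) volume := by
  refine Integrable.mono' (g := fun x => 1 + g x ^ 2) ((integrable_const _).add h2) hm ?_
  refine Eventually.of_forall (fun x => ?_)
  rw [Real.norm_eq_abs, abs_le]
  constructor <;> nlinarith [sq_nonneg (g x - 1), sq_nonneg (g x + 1)]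

theorem th_int (hm : AEStronglyMeasurable g (volume.restrict (Ioc 0 T)))
    (hg : ∀ x, 0 ≤ g x) (h2 : IntegrableOn (fun x => g x ^ 2) (Ioc 0 T) volume) :
    IntegrableOn (fun x => th (g x)) (Ioc 0 T) volume := by
  refine Integrable.mono' (g := fun x => 1 + g x ^ 2) ((integrable_const _).add h2) ?_ ?_
  · exact hm.mul (Real.continuous_sqrt.comp_aestronglyMeasurable hm)
  · refine Eventually.of_forall (fun x => ?_)
    rw [Real.norm_eq_abs, abs_of_nonneg (th_nonneg (hg x))]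
    exact th_le (hg x)

/-- `(∫ g)² ≤ (t - a) ∫ g²`. -/
theorem sq_int_le (hm : AEStronglyMeasurable g (volume.restrict (Ioc 0 T)))
    (h2 : IntegrableOn (fun x => g x ^ 2) (Ioc 0 T) volume) {a : ℝ} (ha : 0 ≤ a) (hat : a ≤ t)
    (ht : t ≤ T) :
    (∫ x in Ioc a t, g x) ^ 2 ≤ (t - a) * ∫ x in Ioc a t, g x ^ 2 := by
  have hsub : Ioc a t ⊆ Ioc 0 T := Ioc_subset_Ioc ha ht
  have hgi : IntegrableOn g (Ioc a t) volume := (g_int hm h2).mono_set hsub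
  have := integral_mul_sq_le (μ := volume.restrict (Ioc a t)) (a := fun _ => (1 : ℝ)) (b := g)
    (by simp) (h2.mono_set hsub) (by simp only [one_mul]; exact hgi)
  simp only [one_mul, one_pow] at this
  refine this.trans (le_of_eq ?_)
  congr 1
  rw [integral_const]
  simp [measureReal_def, hat]

/-- `(∫ g^{3/2})⁴ ≤ (t - a) (∫ g²)³`. -/
theorem fourth_int_le (hm : AEStronglyMeasurable g (volume.restrict (Ioc 0 T)))
    (hg : ∀ x, 0 ≤ g x) (h2 : IntegrableOn (fun x => g x ^ 2) (Ioc 0 T) volume) {a : ℝ}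
    (ha : 0 ≤ a) (hat : a ≤ t) (ht : t ≤ T) :
    (∫ x in Ioc a t, th (g x)) ^ 4 ≤ (t - a) * (∫ x in Ioc a t, g x ^ 2) ^ 3 := by
  have hsub : Ioc a t ⊆ Ioc 0 T := Ioc_subset_Ioc ha ht
  have h1 := integral_mul_sq_le (μ := volume.restrict (Ioc a t)) (a := g)
    (b := fun x => Real.sqrt (g x)) (h2.mono_set hsub)
    (by
      refine ((g_int hm h2).mono_set hsub).congr (Eventually.of_forall (fun x => ?_))
      simp only [Real.sq_sqrt (hg x)])
    ((th_int hm hg h2).mono_set hsub)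
  simp only [Real.sq_sqrt (hg _)] at h1
  have h3 := sq_int_le hm h2 ha hat ht
  have n1 : 0 ≤ ∫ x in Ioc a t, g x ^ 2 := integral_nonneg (fun x => by positivity)
  have n2 : 0 ≤ ∫ x in Ioc a t, g x := integral_nonneg (fun x => hg x)
  calc (∫ x in Ioc a t, th (g x)) ^ 4 = ((∫ x in Ioc a t, g x * Real.sqrt (g x)) ^ 2) ^ 2 := by
        unfold th; ring
    _ ≤ ((∫ x in Ioc a t, g x ^ 2) * ∫ x in Ioc a t, g x) ^ 2 := by gcongr
    _ = (∫ x in Ioc a t, g x ^ 2) ^ 2 * (∫ x in Ioc a t, g x) ^ 2 := by ring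
    _ ≤ (∫ x in Ioc a t, g x ^ 2) ^ 2 * ((t - a) * ∫ x in Ioc a t, g x ^ 2) := by gcongr
    _ = _ := by ring

/-- **Rates.** -/
theorem rates (hm : AEStronglyMeasurable g (volume.restrict (Ioc 0 T)))
    (hg : ∀ x, 0 ≤ g x) (h2 : IntegrableOn (fun x => g x ^ 2) (Ioc 0 T) volume)
    (ht : t ∈ Ioc 0 T) {κ ν δ : ℝ} (hκ : 0 < κ) (hν : 0 ≤ ν) (hδ : 0 < δ)
    {N : ℝ → Set ℝ}
    (hN : ∀ᶠ a in 𝓝[<] t, ∀ x ∈ N a, δ ≤ x * ∫ τ in Ioc a t, (κ * th (g τ) + ν * g τ))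
    (hN0 : ∀ a, ∀ x ∈ N a, 0 ≤ x)
    (hae : ∀ᵐ a ∂(volume.restrict (Ioc 0 T)), g a ∈ N a) :
    (∀ L : ℝ, ∀ᶠ a in 𝓝[<] t, ∀ x ∈ N a, L ≤ (t - a) * x ^ 4) ∧
    ∀ᶠ a in 𝓝[<] t, δ ^ 4 * (t - a) ≤ 16 * κ ^ 4 * (∫ τ in Ioc a t, g τ ^ 2) ^ 5 := by
  have hgi := g_int hm h2
  have hti := th_int hm hg h2
  -- part 1
  have key1 : ∀ a, 0 ≤ a → a < t → ∀ x, 0 ≤ x →
      δ ≤ x * ∫ τ in Ioc a t, (κ * th (g τ) + ν * g τ) →
      δ ^ 4 ≤ (t - a) * x ^ 4 * (8 * (κ ^ 4 * (∫ τ in Ioc a t, g τ ^ 2) ^ 3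
        + ν ^ 4 * (t - a) * (∫ τ in Ioc a t, g τ ^ 2) ^ 2)) := by
    intro a ha hat x hx h
    have hsub : Ioc a t ⊆ Ioc 0 T := Ioc_subset_Ioc ha ht.2
    have e1 : ∫ τ in Ioc a t, (κ * th (g τ) + ν * g τ)
        = κ * (∫ τ in Ioc a t, th (g τ)) + ν * ∫ τ in Ioc a t, g τ := by
      rw [integral_add ((hti.mono_set hsub).const_mul κ) ((hgi.mono_set hsub).const_mul ν),
        integral_const_mul, integral_const_mul]
    rw [e1] at h
    have f1 := fourth_int_le hm hg h2 ha hat.le ht.2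
    have f2 := sq_int_le hm h2 ha hat.le ht.2
    have n1 : 0 ≤ ∫ τ in Ioc a t, th (g τ) := integral_nonneg (fun x => th_nonneg (hg x))
    have n2 : 0 ≤ ∫ τ in Ioc a t, g τ := integral_nonneg (fun x => hg x)
    set ψ := ∫ τ in Ioc a t, th (g τ)
    set χ := ∫ τ in Ioc a t, g τ
    set e := ∫ τ in Ioc a t, g τ ^ 2
    have p1 : (κ * ψ + ν * χ) ^ 4 ≤ 8 * ((κ * ψ) ^ 4 + (ν * χ) ^ 4) := by
      have q1 : 0 ≤ κ * ψ := by positivity
      have q2 : 0 ≤ ν * χ := by positivity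
      nlinarith [sq_nonneg (κ * ψ - ν * χ), sq_nonneg (κ * ψ + ν * χ),
        sq_nonneg ((κ * ψ) ^ 2 - (ν * χ) ^ 2), mul_nonneg q1 q2,
        mul_nonneg (mul_nonneg q1 q2) (sq_nonneg (κ * ψ - ν * χ)),
        mul_nonneg (sq_nonneg (κ * ψ + ν * χ)) (sq_nonneg (κ * ψ - ν * χ))]
    have p2 : χ ^ 4 ≤ ((t - a) * e) ^ 2 := by
      calc χ ^ 4 = (χ ^ 2) ^ 2 := by ring
        _ ≤ ((t - a) * e) ^ 2 := by gcongr
    calc δ ^ 4 ≤ (x * (κ * ψ + ν * χ)) ^ 4 := by gcongr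
      _ = x ^ 4 * (κ * ψ + ν * χ) ^ 4 := by ring
      _ ≤ x ^ 4 * (8 * ((κ * ψ) ^ 4 + (ν * χ) ^ 4)) := by gcongr
      _ = x ^ 4 * (8 * (κ ^ 4 * ψ ^ 4 + ν ^ 4 * χ ^ 4)) := by ring
      _ ≤ x ^ 4 * (8 * (κ ^ 4 * ((t - a) * e ^ 3) + ν ^ 4 * ((t - a) * e) ^ 2)) := by gcongr
      _ = _ := by ring
  have lim_e := tendsto_tail (g := fun τ => g τ ^ 2) h2 ht
  have lim_t : Tendsto (fun a => t - a) (𝓝[<] t) (𝓝 0) := by
    have : Tendsto (fun a => t - a) (𝓝 t) (𝓝 (t - t)) :=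
      (continuous_const.sub continuous_id).tendsto t
    rw [sub_self] at this
    exact this.mono_left nhdsWithin_le_nhds
  have lim_o : Tendsto (fun a => 8 * (κ ^ 4 * (∫ τ in Ioc a t, g τ ^ 2) ^ 3
        + ν ^ 4 * (t - a) * (∫ τ in Ioc a t, g τ ^ 2) ^ 2)) (𝓝[<] t) (𝓝 0) := by
    have h1 := ((lim_e.pow 3).const_mul (κ ^ 4)).add ((lim_t.const_mul (ν ^ 4)).mul (lim_e.pow 2))
    have h3 := h1.const_mul 8
    simpa using h3
  have part1 : ∀ L : ℝ, ∀ᶠ a in 𝓝[<] t, ∀ x ∈ N a, L ≤ (t - a) * x ^ 4 := by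
    intro L
    have hL : (0 : ℝ) < δ ^ 4 / (|L| + 1) := by positivity
    filter_upwards [hN, lim_o.eventually (gt_mem_nhds hL), Ioo_mem_nhdsLT ht.1] with a k1 k2 k3 x hx
    have h1 := key1 a k3.1.le k3.2 x (hN0 a x hx) (k1 x hx)
    have hx0 := hN0 a x hx
    have hta : 0 < t - a := sub_pos.mpr k3.2
    have n1 : 0 ≤ (t - a) * x ^ 4 := by positivity
    have h3 : δ ^ 4 ≤ (t - a) * x ^ 4 * (δ ^ 4 / (|L| + 1)) :=
      h1.trans (mul_le_mul_of_nonneg_left k2.le n1)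
    have hLp : 0 < |L| + 1 := by positivity
    have h4 : |L| + 1 ≤ (t - a) * x ^ 4 := by
      rw [mul_div_assoc', le_div_iff₀ hLp] at h3
      have hδ4 : 0 < δ ^ 4 := by positivity
      nlinarith
    linarith [le_abs_self L]
  refine ⟨part1, ?_⟩
  -- part 2
  -- choose level where ν g ≤ κ g^{3/2}
  obtain ⟨a0, ha0, hev⟩ : ∃ a0 < t, ∀ a ∈ Ioo a0 t,
      (∀ x ∈ N a, δ ≤ x * ∫ τ in Ioc a t, (κ * th (g τ) + ν * g τ)) ∧
      (∀ x ∈ N a, (t + 1) * ((ν / κ) ^ 2 + 1) ^ 4 ≤ (t - a) * x ^ 4) ∧ a ∈ Ioo 0 t := by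
    have h1 := (hN.and ((part1 ((t + 1) * ((ν / κ) ^ 2 + 1) ^ 4)).and (Ioo_mem_nhdsLT ht.1)))
    obtain ⟨l, hl, hl2⟩ := (mem_nhdsLT_iff_exists_Ioo_subset (a := t)).mp h1
    exact ⟨l, hl, fun a ha => hl2 ha⟩
  have hbig : ∀ a ∈ Ioo a0 t, ∀ x ∈ N a, (ν / κ) ^ 2 ≤ x := by
    intro a ha x hx
    obtain ⟨_, h3, h4⟩ := hev a ha
    have h5 := h3 x hx
    have hx0 := hN0 a x hx
    by_contra hcon
    push Not at hcon
    have h6 : x ^ 4 < ((ν / κ) ^ 2 + 1) ^ 4 := by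
      have : x < (ν / κ) ^ 2 + 1 := by linarith
      gcongr
    have h7 : 0 ≤ x ^ 4 := by positivity
    have h8 : t - a ≤ t + 1 := by linarith [h4.1]
    have h9 : 0 < t + 1 := by linarith [ht.1]
    nlinarith
  have hth : ∀ x : ℝ, 0 ≤ x → (ν / κ) ^ 2 ≤ x → ν * x ≤ κ * th x := by
    intro x hx h
    have h3 : ν / κ ≤ Real.sqrt x := Real.le_sqrt_of_sq_le h
    rw [div_le_iff₀ hκ] at h3
    unfold th
    nlinarith
  filter_upwards [Ioo_mem_nhdsLT ha0] with a ha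
  obtain ⟨_, _, ha3⟩ := hev a ha
  have hsub : Ioc a t ⊆ Ioc 0 T := Ioc_subset_Ioc ha3.1.le ht.2
  have hta : 0 < t - a := sub_pos.mpr ha.2
  set ψ := ∫ τ in Ioc a t, th (g τ) with hψ
  set e := ∫ τ in Ioc a t, g τ ^ 2 with he
  have haeI : ∀ᵐ τ ∂(volume.restrict (Ioc a t)), g τ ∈ N τ :=
    ae_mono (Measure.restrict_mono hsub le_rfl) hae
  have hne : ∀ᵐ τ ∂(volume.restrict (Ioc a t)), τ ≠ t := by
    apply ae_restrict_of_ae
    simp [ae_iff, measure_singleton]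
  have hpt : ∀ᵐ τ ∂(volume.restrict (Ioc a t)), δ ≤ 2 * κ * g τ * ψ := by
    filter_upwards [haeI, hne, ae_restrict_mem measurableSet_Ioc] with τ k1 k2 k3
    have hτ : τ ∈ Ioo a0 t := ⟨ha.1.trans k3.1, lt_of_le_of_ne k3.2 k2⟩
    obtain ⟨h3, _, h5⟩ := hev τ hτ
    have h6 := h3 _ k1
    have hsubτ : Ioc τ t ⊆ Ioc a t := Ioc_subset_Ioc_left k3.1.le
    have h7 : ∫ σ in Ioc τ t, (κ * th (g σ) + ν * g σ) ≤ ∫ σ in Ioc τ t, 2 * κ * th (g σ) := by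
      refine integral_mono_ae ?_ ?_ ?_
      · exact ((hti.mono_set (hsubτ.trans hsub)).const_mul κ).add
          ((hgi.mono_set (hsubτ.trans hsub)).const_mul ν)
      · exact (hti.mono_set (hsubτ.trans hsub)).const_mul (2 * κ)
      · filter_upwards [ae_mono (Measure.restrict_mono (hsubτ.trans hsub) le_rfl) hae,
          (show ∀ᵐ σ ∂(volume.restrict (Ioc τ t)), σ ≠ t by
            apply ae_restrict_of_ae; simp [ae_iff, measure_singleton]),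
          ae_restrict_mem measurableSet_Ioc] with σ j1 j2 j3
        have hσ : σ ∈ Ioo a0 t := ⟨(ha.1.trans k3.1).trans j3.1, lt_of_le_of_ne j3.2 j2⟩
        have := hth _ (hg σ) (hbig σ hσ _ j1)
        show κ * th (g σ) + ν * g σ ≤ 2 * κ * th (g σ)
        linarith
    have h8 : ∫ σ in Ioc τ t, 2 * κ * th (g σ) ≤ 2 * κ * ψ := by
      rw [integral_const_mul]
      refine mul_le_mul_of_nonneg_left ?_ (by positivity)
      exact setIntegral_mono_set (hti.mono_set hsub)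
        (Eventually.of_forall (fun x => th_nonneg (hg x))) hsubτ.eventuallyLE
    calc δ ≤ g τ * ∫ σ in Ioc τ t, (κ * th (g σ) + ν * g σ) := h6
      _ ≤ g τ * (2 * κ * ψ) := mul_le_mul_of_nonneg_left (h7.trans h8) (hg τ)
      _ = _ := by ring
  -- ψ > 0
  have hψ0 : 0 ≤ ψ := integral_nonneg (fun x => th_nonneg (hg x))
  have hψpos : 0 < ψ := by
    rcases hψ0.eq_or_lt with h | h
    · exfalso
      have hne2 : (volume.restrict (Ioc a t) : Measure ℝ) ≠ 0 := by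
        intro h3
        have : (volume.restrict (Ioc a t) : Measure ℝ) univ = 0 := by rw [h3]; simp
        rw [Measure.restrict_apply_univ, Real.volume_Ioc] at this
        have h4 : t - a ≤ 0 := by simpa using this
        linarith
      have : (ae (volume.restrict (Ioc a t) : Measure ℝ)).NeBot := ae_neBot.mpr hne2
      obtain ⟨τ, hτ⟩ := hpt.exists
      rw [← h] at hτ
      simp at hτ
      linarith
    · exact h
  -- lower bound of ψ
  set c := Real.sqrt (δ ^ 3 / ((2 * κ) ^ 3 * ψ ^ 3)) with hc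
  have hlow : (t - a) * c ≤ ψ := by
    have h1 : ∫ τ in Ioc a t, c ≤ ψ := by
      refine integral_mono_ae (integrable_const _) (hti.mono_set hsub) ?_
      filter_upwards [hpt] with τ hτ
      have hgτ := hg τ
      have h3 : δ ^ 3 ≤ (2 * κ * g τ * ψ) ^ 3 := by gcongr
      have h4 : δ ^ 3 / ((2 * κ) ^ 3 * ψ ^ 3) ≤ th (g τ) ^ 2 := by
        rw [th_sq hgτ, div_le_iff₀ (by positivity)]
        calc δ ^ 3 ≤ (2 * κ * g τ * ψ) ^ 3 := h3
          _ = _ := by ring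
      calc c ≤ Real.sqrt (th (g τ) ^ 2) := Real.sqrt_le_sqrt h4
        _ = th (g τ) := Real.sqrt_sq (th_nonneg hgτ)
    rw [integral_const] at h1
    simpa [measureReal_def, ha.2.le] using h1
  have hc2 : c ^ 2 = δ ^ 3 / ((2 * κ) ^ 3 * ψ ^ 3) := Real.sq_sqrt (by positivity)
  have hc0 : 0 ≤ c := Real.sqrt_nonneg _
  have h5 : (t - a) ^ 2 * δ ^ 3 ≤ (2 * κ) ^ 3 * ψ ^ 5 := by
    have h6 : ((t - a) * c) ^ 2 ≤ ψ ^ 2 := by gcongr
    rw [mul_pow, hc2, mul_div_assoc', div_le_iff₀ (by positivity)] at h6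
    calc (t - a) ^ 2 * δ ^ 3 ≤ ψ ^ 2 * ((2 * κ) ^ 3 * ψ ^ 3) := h6
      _ = _ := by ring
  have h6 := fourth_int_le hm hg h2 ha3.1.le ha.2.le ht.2
  have he0 : 0 ≤ e := integral_nonneg (fun x => by positivity)
  -- combine
  have h7 : ((t - a) ^ 2 * δ ^ 3) ^ 4 ≤ ((2 * κ) ^ 3) ^ 4 * ((t - a) * e ^ 3) ^ 5 := by
    calc ((t - a) ^ 2 * δ ^ 3) ^ 4 ≤ ((2 * κ) ^ 3 * ψ ^ 5) ^ 4 := by gcongr
      _ = ((2 * κ) ^ 3) ^ 4 * (ψ ^ 4) ^ 5 := by ring
      _ ≤ _ := by gcongr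
  have h8 : (δ ^ 4 * (t - a)) ^ 3 ≤ (16 * κ ^ 4 * e ^ 5) ^ 3 := by
    have e1 : ((t - a) ^ 2 * δ ^ 3) ^ 4 = (t - a) ^ 5 * (δ ^ 4 * (t - a)) ^ 3 := by ring
    have e2 : ((2 * κ) ^ 3) ^ 4 * ((t - a) * e ^ 3) ^ 5
        = (t - a) ^ 5 * (16 * κ ^ 4 * e ^ 5) ^ 3 := by ring
    rw [e1, e2] at h7
    exact le_of_mul_le_mul_left h7 (by positivity)
  exact (pow_le_pow_iff_left₀ (by positivity) (by positivity) (by norm_num)).mp h8

end real

end H772R2.NS
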