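import Mathlib
import Pool.Agent.H772R2.NS.Build
import Pool.Agent.H772R2.NS.First2

/-!
Blow-up rates forced by an energy jump, for weak solutions of the Navier-Stokes equations.
-/

set_option linter.unusedSectionVars false

open MeasureTheory Set Filter Topology
open scoped InnerProductSpace ENNReal ContDiff NNReal

namespace H772R2.NS

variable {Ω : Set E3} {ν T : ℝ} {u : ℝ → L2V Ω} {G : ℝ → L2M Ω} {f : ℝ → L2V Ω}

theorem norm_tensL_le_th (hΩ : IsOpen Ω) {p : L2V Ω × L2M Ω} (hp : p ∈ graphW Ω) {M : ℝ}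
    (hM : ‖p.1‖ ≤ M) :
    ‖tensL p.1‖ ≤ Real.sqrt (((CS : ℝ) ^ 3 + 1) * M) * th ‖p.2‖ := by
  have h1 := norm_tensL_sq_le hΩ.measurableSet hp
  have hM0 : 0 ≤ M := (norm_nonneg _).trans hM
  have hK : 0 ≤ ((CS : ℝ) ^ 3 + 1) * M := by positivity
  have hth := th_nonneg (norm_nonneg p.2)
  have h3 : ‖tensL p.1‖ ^ 2 ≤ (Real.sqrt (((CS : ℝ) ^ 3 + 1) * M) * th ‖p.2‖) ^ 2 := by
    rw [mul_pow, Real.sq_sqrt hK, th_sq (norm_nonneg _)]
    have h4 : (0 : ℝ) ≤ M * ‖p.2‖ ^ 3 := by positivity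
    calc ‖tensL p.1‖ ^ 2 ≤ (CS : ℝ) ^ 3 * (‖p.1‖ * ‖p.2‖ ^ 3) := h1
      _ ≤ (CS : ℝ) ^ 3 * (M * ‖p.2‖ ^ 3) := by gcongr
      _ ≤ (CS : ℝ) ^ 3 * (M * ‖p.2‖ ^ 3) + M * ‖p.2‖ ^ 3 := by linarith
      _ = _ := by ring
  exact (pow_le_pow_iff_left₀ (norm_nonneg _) (by positivity) (by norm_num)).mp h3

theorem IsWeakSolution.jump_rates (hΩ : IsOpen Ω) (hν : 0 ≤ ν) (hT : 0 < T)
    (h : IsWeakSolution Ω ν T u G f) {M : ℝ} (hM0 : 0 < M) (hM : ∀ t ∈ Icc 0 T, ‖u t‖ ≤ M)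
    {t : ℝ} (ht : t ∈ Ioc 0 T) {δ : ℝ} (hδ : 0 < δ)
    (hj : ∀ᶠ a in 𝓝[<] t, energyDefect ν u G f a + δ ≤ energyDefect ν u G f t) :
    (∀ L : ℝ, ∀ᶠ a in 𝓝[<] t, ∀ z, (u a, z) ∈ H1graph Ω → L ≤ (t - a) ^ (1 / 4 : ℝ) * ‖z‖) ∧
    ∀ᶠ a in 𝓝[<] t, δ ^ 4 * (t - a)
      ≤ 16 * ((CS : ℝ) ^ 3 + 1) ^ 2 * M ^ 2 * (∫ τ in a..t, ‖G τ‖ ^ 2) ^ 5 := by
  have S := h.toSol hΩ hν hT hM
  have hIoo : ∀ᶠ a in 𝓝[<] t, a ∈ Ioo 0 t := Ioo_mem_nhdsLT ht.1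
  have hj' : ∀ᶠ a in 𝓝[<] t, defect ν u G f a ≤ defect ν u G f t - δ := by
    filter_upwards [hj, hIoo] with a h1 h2
    rw [energyDefect_eq hΩ hν hT h ⟨h2.1.le, h2.2.le.trans ht.2⟩,
      energyDefect_eq hΩ hν hT h (Ioc_subset_Icc_self ht)] at h1
    linarith
  have hjump := S.jump ht hδ hj'
  set κ := Real.sqrt (((CS : ℝ) ^ 3 + 1) * M) with hκdef
  have hκ : 0 < κ := Real.sqrt_pos.mpr (by positivity)
  have hκ4 : κ ^ 4 = ((CS : ℝ) ^ 3 + 1) ^ 2 * M ^ 2 := by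
    have : κ ^ 2 = ((CS : ℝ) ^ 3 + 1) * M := Real.sq_sqrt (by positivity)
    calc κ ^ 4 = (κ ^ 2) ^ 2 := by ring
      _ = _ := by rw [this]; ring
  have hgm : AEStronglyMeasurable (fun τ => ‖G τ‖) (volume.restrict (Ioc 0 T)) := S.Gmeas.norm
  have hg2 : IntegrableOn (fun τ => ‖G τ‖ ^ 2) (Ioc 0 T) volume := S.G2
  have hg1 := g_int hgm hg2
  have hth := th_int hgm (fun x => norm_nonneg _) hg2
  have hr := rates (g := fun τ => ‖G τ‖) (T := T) (t := t) hgm (fun x => norm_nonneg _) hg2 ht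
    hκ hν hδ (N := fun a => {x | ∃ z, (u a, z) ∈ graphW Ω ∧ x = ‖z‖})
    (by
      filter_upwards [hjump, hIoo] with a h1 h2
      rintro x ⟨z, hz, rfl⟩
      refine (h1 z hz).trans ?_
      refine mul_le_mul_of_nonneg_left ?_ (norm_nonneg _)
      have hsub : Ioc a t ⊆ Ioc 0 T := Ioc_subset_Ioc h2.1.le ht.2
      refine integral_mono_ae ?_ ?_ ?_
      · exact IntegrableOn.mono_set (S.mint.norm.add (S.Gint.norm.const_mul ν)) hsub
      · exact IntegrableOn.mono_set ((hth.const_mul κ).add (hg1.const_mul ν)) hsub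
      · filter_upwards [ae_mono (Measure.restrict_mono hsub le_rfl) S.memW,
          ae_restrict_mem measurableSet_Ioc] with τ k1 k2
        have k3 := norm_tensL_le_th hΩ (p := (u τ, G τ)) k1 (hM τ
          ⟨h2.1.le.trans k2.1.le, k2.2.trans ht.2⟩)
        simp only at k3 ⊢
        linarith)
    (by rintro a x ⟨z, hz, rfl⟩; exact norm_nonneg _)
    (by filter_upwards [S.memW] with a ha using ⟨G a, ha, rfl⟩)
  constructor
  · intro L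
    filter_upwards [hr.1 ((max L 0) ^ 4), hIoo] with a h1 h2 z hz
    have h3 := h1 ‖z‖ ⟨z, mem_graphW.mpr hz, rfl⟩
    have hta : 0 < t - a := sub_pos.mpr h2.2
    have h4 : ((t - a) ^ (1 / 4 : ℝ) * ‖z‖) ^ 4 = (t - a) * ‖z‖ ^ 4 := by
      rw [mul_pow, ← Real.rpow_natCast ((t - a) ^ (1 / 4 : ℝ)), ← Real.rpow_mul hta.le]
      norm_num
    rw [← h4] at h3
    have h5 := (pow_le_pow_iff_left₀ (le_max_right L 0) (by positivity) (by norm_num)).mp h3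
    exact (le_max_left _ _).trans h5
  · filter_upwards [hr.2, hIoo] with a h1 h2
    rw [intervalIntegral.integral_of_le h2.2.le]
    rw [hκ4] at h1
    calc δ ^ 4 * (t - a) ≤ _ := h1
      _ = _ := by ring

/-- At a first time of failure the defect is positive. -/
theorem IsWeakSolution.defect_pos (hΩ : IsOpen Ω) (hν : 0 ≤ ν) (hT : 0 < T)
    (h : IsWeakSolution Ω ν T u G f) {t : ℝ} (ht : t ∈ Ioc 0 T)
    (h0 : ∀ a ∈ Ico 0 t, energyDefect ν u G f a = 0) (h1 : energyDefect ν u G f t ≠ 0) :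
    0 < energyDefect ν u G f t := by
  obtain ⟨M, hM⟩ := h.bdd
  have S := h.toSol hΩ hν hT hM
  have h2 := S.defect_usc ht (c := 0) (by
    filter_upwards [Ioo_mem_nhdsLT ht.1] with a ha
    rw [← energyDefect_eq hΩ hν hT h ⟨ha.1.le, ha.2.le.trans ht.2⟩, h0 a ⟨ha.1.le, ha.2⟩])
  rw [← energyDefect_eq hΩ hν hT h (Ioc_subset_Icc_self ht)] at h2
  exact lt_of_le_of_ne h2 (Ne.symm h1)

end H772R2.NS
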